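import Pool.Agent.TH204.WR.W14

/-!
A prime value of `F + t` for almost all `t`.
-/

set_option autoImplicit false

namespace Pool.Agent.TH204.HP

open Finset Polynomial Filter
open Pool.Agent.TH204.WR (rho hh evt_log_ge evt_log_pow both rt rt_pow)
open Pool.Agent.TH892.SW (wt)

/-- sum of the absolute values of the coefficients -/
def AA (F : ℤ[X]) : ℤ := ∑ i ∈ range (F.natDegree + 1), |F.coeff i|

lemma AA_nonneg (F : ℤ[X]) : 0 ≤ AA F := sum_nonneg fun _ _ => abs_nonneg _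

lemma eval_le (F : ℤ[X]) (n : ℕ) (hn : F.natDegree ≤ n) (w : ℤ) (hw : 1 ≤ |w|) : |F.eval w| ≤ AA F * |w| ^ n := by
  rw [eval_eq_sum_range]
  refine (abs_sum_le_sum_abs _ _).trans ?_
  unfold AA
  rw [sum_mul]
  apply sum_le_sum
  intro i hi
  rw [mem_range] at hi
  rw [abs_mul, abs_pow]
  exact mul_le_mul_of_nonneg_left (pow_le_pow_right₀ hw (by omega)) (abs_nonneg _)

lemma eval_ge (F : ℤ[X]) (n : ℕ) (hn : F.natDegree = n + 1) (hl : 0 < F.leadingCoeff) (w : ℤ) (hw : 1 ≤ w) :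
    w ^ (n + 1) - AA F.eraseLead * w ^ n ≤ F.eval w := by
  have h1 : F.eval w = F.eraseLead.eval w + F.leadingCoeff * w ^ (n + 1) := by
    conv_lhs => rw [← eraseLead_add_C_mul_X_pow F]
    rw [eval_add, eval_mul, eval_C, eval_pow, eval_X, hn]
  have h2 : F.eraseLead.natDegree ≤ n := by
    have := eraseLead_natDegree_le F
    omega
  have hw1 : |w| = w := abs_of_pos (by linarith)
  have h3 := eval_le F.eraseLead n h2 w (by rw [hw1]; exact hw)
  rw [hw1] at h3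
  have h4 := (abs_le.1 h3).1
  have h5 : w ^ (n + 1) ≤ F.leadingCoeff * w ^ (n + 1) :=
    le_mul_of_one_le_left (by positivity) hl
  rw [h1]
  linarith

/-- a window in the bulk, positive leading coefficient -/
lemma bulk (F : ℤ[X]) (n : ℕ) (hn : F.natDegree = n + 1) (hl : 0 < F.leadingCoeff) (x : ℕ) (t : ℤ)
    (ht : |t| ≤ x) (W : ℤ) (hW : 2 * AA F.eraseLead + 2 ≤ W) (hWx : 4 * (x : ℤ) ≤ W ^ (n + 1)) (hx : 2 ≤ x) (w : ℤ)
    (h1 : W < w) (h2 : w ≤ 2 * W) :
    2 ≤ F.eval w + t ∧ F.eval w + t ≤ (AA F + 1) * 2 ^ (n + 1) * W ^ (n + 1) := by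
  have hA := AA_nonneg F.eraseLead
  have hA' := AA_nonneg F
  have hw1 : 1 ≤ w := by linarith
  rw [abs_le] at ht
  have hxz : (2 : ℤ) ≤ x := by exact_mod_cast hx
  have hWn : W ^ (n + 1) ≤ w ^ (n + 1) := pow_le_pow_left₀ (by linarith) h1.le _
  constructor
  · have h3 := eval_ge F n hn hl w hw1
    have h4 : 2 * (AA F.eraseLead * w ^ n) ≤ w ^ (n + 1) := by
      rw [pow_succ' w n]
      have : 2 * AA F.eraseLead ≤ w := by linarith
      nlinarith [pow_pos (show 0 < w by linarith) n]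
    linarith
  · have h3 := eval_le F (n + 1) hn.le w (by rw [abs_of_pos (by linarith)]; exact hw1)
    rw [abs_of_pos (show 0 < w by linarith)] at h3
    have h4 := (abs_le.1 h3).2
    have h5 : w ^ (n + 1) ≤ (2 * W) ^ (n + 1) := pow_le_pow_left₀ (by linarith) h2 _
    rw [mul_pow] at h5
    have h6 : AA F * w ^ (n + 1) ≤ AA F * (2 ^ (n + 1) * W ^ (n + 1)) := mul_le_mul_of_nonneg_left h5 hA'
    have h7 : (x : ℤ) ≤ 2 ^ (n + 1) * W ^ (n + 1) := by
      have h8 : (1 : ℤ) ≤ 2 ^ (n + 1) := one_le_pow₀ (by norm_num)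
      have h9 : 0 ≤ W ^ (n + 1) := by linarith
      nlinarith
    have e : (AA F + 1) * 2 ^ (n + 1) * W ^ (n + 1) = AA F * (2 ^ (n + 1) * W ^ (n + 1)) + 2 ^ (n + 1) * W ^ (n + 1) := by ring
    rw [e]
    linarith

/-- from a window to a prime value -/
lemma from_window (n : ℕ) (F : ℤ[X]) (x : ℕ) (t : ℤ) (C B : ℕ) (ε : ℝ) (hε : ε = 1 / 2)
    (hrho : ∀ p : ℕ, p.Prime → rho F t p < p)
    (h : (∀ p : ℕ, p.Prime → rho F t p < p) →
    ∀ z : ℕ, Real.log x ^ B ≤ z → z ^ 3 ≤ x → 0 < hh F t z ∧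
    ∀ a₁ b₁ : ℤ, a₁ < b₁ →
      (∀ m ∈ Ioc a₁ b₁, 2 ≤ F.eval m + t ∧
        ((F.eval m + t : ℤ) : ℝ) ≤ ((b₁ : ℝ) - a₁) * (rt n x ^ n * Real.log x ^ C)) →
      (Real.log x ^ B ≤ (b₁ : ℝ) - a₁ →
        |(#((Ioc a₁ b₁).filter (fun m => (F.eval m + t).natAbs.Prime)) : ℝ) -
          hh F t z * ∑ m ∈ Ioc a₁ b₁, wt (F.eval m + t).natAbs| ≤
        ε * (hh F t z * ∑ m ∈ Ioc a₁ b₁, wt (F.eval m + t).natAbs)))
    (z : ℕ) (hz : Real.log x ^ B ≤ z) (hz3 : z ^ 3 ≤ x) (a b : ℤ) (hab : a < b)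
    (hv : ∀ m ∈ Ioc a b, 2 ≤ F.eval m + t ∧
        ((F.eval m + t : ℤ) : ℝ) ≤ ((b : ℝ) - a) * (rt n x ^ n * Real.log x ^ C))
    (hlen : Real.log x ^ B ≤ (b : ℝ) - a) : ∃ (w : ℤ) (q : ℕ), q.Prime ∧ F.eval w + t = q := by
  obtain ⟨h1, h2⟩ := h hrho z hz hz3
  have h3 := h2 a b hab hv hlen
  have hM : 0 < ∑ m ∈ Ioc a b, wt (F.eval m + t).natAbs := by
    apply sum_pos
    · intro m hm
      have h4 := (hv m hm).1
      unfold wt
      have h5 : (2 : ℝ) ≤ (((F.eval m + t).natAbs : ℕ) : ℝ) := by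
        have : 2 ≤ (F.eval m + t).natAbs := by omega
        exact_mod_cast this
      exact one_div_pos.2 (Real.log_pos (by linarith))
    · exact ⟨b, mem_Ioc.2 ⟨hab, le_rfl⟩⟩
  have hSM : 0 < hh F t z * ∑ m ∈ Ioc a b, wt (F.eval m + t).natAbs := mul_pos h1 hM
  have hP : 0 < #((Ioc a b).filter (fun m => (F.eval m + t).natAbs.Prime)) := by
    have h4 := (abs_le.1 h3).1
    have h5 : (0 : ℝ) < #((Ioc a b).filter (fun m => (F.eval m + t).natAbs.Prime)) := by
      rw [hε] at h4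
      linarith
    exact_mod_cast h5
  obtain ⟨m, hm⟩ := card_pos.1 hP
  rw [mem_filter] at hm
  refine ⟨m, (F.eval m + t).natAbs, hm.2, ?_⟩
  have := (hv m hm.1).1
  omega

theorem exists_prime (n : ℕ) (hn1 : 1 ≤ n) (F : ℤ[X]) (hn : F.natDegree = n + 1) (U V : ℕ) :
    ∃ X0 : ℕ, ∀ x : ℕ, X0 ≤ x → ∃ Bad : Finset ℤ, (#Bad : ℝ) ≤ x / Real.log x ^ U ∧
    ∀ t : ℤ, |t| ≤ x → t ∉ Bad → (∀ p : ℕ, p.Prime → rho F t p < p) →
      (0 < F.leadingCoeff ∨ (x : ℝ) / Real.log x ^ V ≤ t) →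
      ∃ (w : ℤ) (q : ℕ), q.Prime ∧ F.eval w + t = q := by
  obtain ⟨B, X1, h⟩ := both n hn1 F hn U (V + 2) (1 / 2) (by norm_num)
  have hpos : (0 : ℝ) < (1 : ℝ) / (n + 1) := by positivity
  obtain ⟨A, hA⟩ : ∃ A : ℤ, A = AA F + AA F.eraseLead + 1 := ⟨_, rfl⟩
  have hA1 := AA_nonneg F
  have hA2 := AA_nonneg F.eraseLead
  have hA0 : 1 ≤ A := by linarith
  have hAr : (1 : ℝ) ≤ A := by exact_mod_cast hA0
  have hev : ∀ᶠ x : ℕ in atTop, (32 * A * (32 : ℝ) ^ (n + 1) ≤ Real.log x) ∧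
      Real.log x ^ (B + V + 3) ≤ (x : ℝ) ^ ((1 : ℝ) / (n + 1)) ∧ Real.log x ^ (3 * (B + 1)) ≤ (x : ℝ) ^ (1 : ℝ) := by
    filter_upwards [evt_log_ge (32 * A * (32 : ℝ) ^ (n + 1)), evt_log_pow (B + V + 3) ((1 : ℝ) / (n + 1)) hpos,
      evt_log_pow (3 * (B + 1)) 1 (by norm_num)] with x h1 h2 h3
    exact ⟨h1, h2, h3⟩
  obtain ⟨X2, hX2⟩ := eventually_atTop.1 hev
  refine ⟨max X1 X2, fun x hx => ?_⟩
  obtain ⟨Bad, -, hB2, hB3⟩ := h x ((le_max_left _ _).trans hx)
  obtain ⟨hL, hR, h3B⟩ := hX2 x ((le_max_right _ _).trans hx)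
  clear h hX2
  refine ⟨Bad, hB2, fun t ht htB hrho hcase => ?_⟩
  have htI : t ∈ Icc (-(x : ℤ)) x := by
    rw [mem_Icc, ← abs_le]
    exact ht
  have hkey := fun z hz hz3 a b hab hv hlen => from_window n F x t (V + 2) B (1 / 2) rfl hrho
    (fun hr z hz hz3 => ⟨(hB3 t htI htB hr z hz hz3).1, fun a b hab hv hlen => ((hB3 t htI htB hr z hz hz3).2 a b hab hv).1 hlen⟩)
    z hz hz3 a b hab hv hlen
  clear hB3
  obtain ⟨R, hRd⟩ : ∃ R : ℝ, R = (x : ℝ) ^ ((1 : ℝ) / (n + 1)) := ⟨_, rfl⟩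
  have hrt : rt n x = R := by rw [hRd]; rfl
  have hRp : R ^ (n + 1) = x := by rw [← hrt]; exact rt_pow n x
  rw [← hRd] at hR
  rw [hrt] at hkey
  rw [Real.rpow_one] at h3B
  obtain ⟨L, hLd⟩ : ∃ L, L = Real.log x := ⟨_, rfl⟩
  rw [← hLd] at hL hR h3B hkey hcase
  have h32 : (32 : ℝ) ≤ 32 ^ (n + 1) := by
    calc (32 : ℝ) = 32 ^ 1 := by norm_num
      _ ≤ 32 ^ (n + 1) := pow_le_pow_right₀ (by norm_num) (by omega)
  have hL32 : 32 * A ≤ L := by nlinarith
  have hL1 : (32 : ℝ) ≤ L := by linarith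
  have hL0 : 0 < L := by linarith
  have hL1' : 1 ≤ L := by linarith
  have hR1 : L ≤ R := by
    refine le_trans ?_ hR
    exact le_self_pow₀ hL1' (by omega)
  have hR0 : 0 < R := by linarith
  have hLB : 1 ≤ L ^ B := one_le_pow₀ hL1'
  have hx32 : (32 : ℝ) ≤ x := by
    rw [← hRp]
    calc (32 : ℝ) ≤ R := by linarith
      _ ≤ R ^ (n + 1) := le_self_pow₀ (by linarith) (by omega)
  have hx2 : 2 ≤ x := by
    have : (2 : ℝ) ≤ x := by linarith
    exact_mod_cast this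
  -- the level
  obtain ⟨z, hz⟩ : ∃ z, z = ⌈L ^ B⌉₊ := ⟨_, rfl⟩
  have hz1 : L ^ B ≤ z := by rw [hz]; exact Nat.le_ceil _
  have hz2 : (z : ℝ) ≤ L ^ (B + 1) := by
    have := Nat.ceil_lt_add_one (show 0 ≤ L ^ B by positivity)
    rw [← hz] at this
    calc (z : ℝ) ≤ L ^ B + 1 := this.le
      _ ≤ L ^ B * 2 := by linarith
      _ ≤ L ^ B * L := mul_le_mul_of_nonneg_left (by linarith) (by positivity)
      _ = L ^ (B + 1) := by ring
  have hz3 : z ^ 3 ≤ x := by
    have : (z : ℝ) ^ 3 ≤ x := by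
      calc (z : ℝ) ^ 3 ≤ (L ^ (B + 1)) ^ 3 := pow_le_pow_left₀ (Nat.cast_nonneg _) hz2 3
        _ = L ^ (3 * (B + 1)) := by rw [← pow_mul]; ring_nf
        _ ≤ x := h3B
    exact_mod_cast this
  rcases hcase with hl | ht2
  · -- bulk
    obtain ⟨W, hW⟩ : ∃ W : ℤ, W = ⌈8 * R⌉ := ⟨_, rfl⟩
    have hW1 : 8 * R ≤ W := by rw [hW]; exact Int.le_ceil _
    have hW2 : (W : ℝ) ≤ 16 * R := by
      have := Int.ceil_lt_add_one (8 * R)
      rw [← hW] at this
      linarith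
    have hWA : 2 * AA F.eraseLead + 2 ≤ W := by
      have h4 : ((2 * AA F.eraseLead + 2 : ℤ) : ℝ) ≤ W := by
        have h5 : ((AA F.eraseLead : ℤ) : ℝ) ≤ A := by
          have : AA F.eraseLead ≤ A := by linarith
          exact_mod_cast this
        push_cast
        linarith
      exact_mod_cast h4
    have hWx : 4 * (x : ℤ) ≤ W ^ (n + 1) := by
      have h4 : 4 * (x : ℝ) ≤ (W : ℝ) ^ (n + 1) := by
        rw [← hRp]
        calc 4 * R ^ (n + 1) ≤ 8 ^ (n + 1) * R ^ (n + 1) := by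
              apply mul_le_mul_of_nonneg_right _ (by positivity)
              calc (4 : ℝ) ≤ 8 ^ 1 := by norm_num
                _ ≤ 8 ^ (n + 1) := pow_le_pow_right₀ (by norm_num) (by omega)
          _ = (8 * R) ^ (n + 1) := by rw [mul_pow]
          _ ≤ (W : ℝ) ^ (n + 1) := pow_le_pow_left₀ (by positivity) hW1 _
      exact_mod_cast h4
    have hWpos : 0 < W := by linarith
    have hWr : (0 : ℝ) < W := by exact_mod_cast hWpos
    have hlen : (((2 * W : ℤ) : ℝ)) - ((W : ℤ) : ℝ) = W := by push_cast; ring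
    refine hkey z hz1 hz3 W (2 * W) (by linarith) (fun w hw => ?_) ?_
    · rw [mem_Ioc] at hw
      obtain ⟨h4, h5⟩ := bulk F n hn hl x t ht W hWA hWx hx2 w hw.1 hw.2
      refine ⟨h4, ?_⟩
      rw [hlen]
      have h6 : ((F.eval w + t : ℤ) : ℝ) ≤ ((AA F : ℝ) + 1) * 2 ^ (n + 1) * (W : ℝ) ^ (n + 1) := by exact_mod_cast h5
      refine h6.trans ?_
      have h7 : (AA F : ℝ) + 1 ≤ A := by
        have : AA F + 1 ≤ A := by linarith
        exact_mod_cast this
      have h8 : (W : ℝ) ^ n ≤ 16 ^ n * R ^ n := by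
        rw [← mul_pow]
        exact pow_le_pow_left₀ hWr.le hW2 _
      have h9 : (2 : ℝ) ^ (n + 1) * 16 ^ n ≤ 32 ^ (n + 1) := by
        have e : (32 : ℝ) ^ (n + 1) = 2 ^ (n + 1) * 16 ^ (n + 1) := by rw [← mul_pow]; norm_num
        rw [e]
        apply mul_le_mul_of_nonneg_left _ (by positivity)
        exact pow_le_pow_right₀ (by norm_num) (by omega)
      calc ((AA F : ℝ) + 1) * 2 ^ (n + 1) * (W : ℝ) ^ (n + 1) = W * (((AA F : ℝ) + 1) * 2 ^ (n + 1) * (W : ℝ) ^ n) := by ring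
        _ ≤ W * ((A : ℝ) * 2 ^ (n + 1) * (16 ^ n * R ^ n)) := by
            apply mul_le_mul_of_nonneg_left _ hWr.le
            apply mul_le_mul _ h8 (by positivity) (by positivity)
            exact mul_le_mul_of_nonneg_right h7 (by positivity)
        _ = W * (R ^ n * (A * (2 ^ (n + 1) * 16 ^ n))) := by ring
        _ ≤ W * (R ^ n * L ^ (V + 2)) := by
            apply mul_le_mul_of_nonneg_left _ hWr.le
            apply mul_le_mul_of_nonneg_left _ (by positivity)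
            have h10 : A * ((2 : ℝ) ^ (n + 1) * 16 ^ n) ≤ A * 32 ^ (n + 1) :=
              mul_le_mul_of_nonneg_left h9 (by linarith)
            have h11 : L ≤ L ^ (V + 2) := le_self_pow₀ hL1' (by omega)
            have h12 : (A : ℝ) * 32 ^ (n + 1) ≤ 32 * A * 32 ^ (n + 1) := by
              have : 0 ≤ (A : ℝ) * 32 ^ (n + 1) := by positivity
              linarith
            linarith
    · rw [hlen]
      have h4 : L ^ B ≤ R := by
        refine le_trans ?_ hR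
        exact pow_le_pow_right₀ hL1' (by omega)
      linarith
  · -- near zero, large positive `t`
    obtain ⟨r, hr⟩ : ∃ r : ℝ, r = R / (4 * A * L ^ V) := ⟨_, rfl⟩
    have hLV : 1 ≤ L ^ V := one_le_pow₀ hL1'
    have hr0 : L ^ (B + 1) ≤ r := by
      rw [hr, le_div_iff₀ (by positivity)]
      refine le_trans ?_ hR
      have e : L ^ (B + V + 3) = (L ^ (B + 1) * L ^ V) * (L * L) := by ring
      have e2 : L ^ (B + 1) * (4 * A * L ^ V) = (L ^ (B + 1) * L ^ V) * (4 * A) := by ring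
      rw [e, e2]
      apply mul_le_mul_of_nonneg_left _ (by positivity)
      nlinarith
    obtain ⟨H, hH⟩ : ∃ H : ℕ, H = ⌊r⌋₊ := ⟨_, rfl⟩
    have hrpos : 0 ≤ r := le_trans (by positivity) hr0
    have hH1 : (H : ℝ) ≤ r := by rw [hH]; exact Nat.floor_le hrpos
    have hH2 : r < H + 1 := by rw [hH]; exact Nat.lt_floor_add_one _
    have hLB1 : L ^ (B + 1) = L * L ^ B := by ring
    have hHB : L ^ B ≤ H := by nlinarith
    have hHr : r ≤ 2 * H := by linarith
    have hH0 : (1 : ℝ) ≤ H := hLB.trans hHB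
    have hHpos : (0 : ℤ) < H := by
      have : (0 : ℝ) < H := by linarith
      exact_mod_cast this
    have hlen : (((H : ℤ) : ℝ)) - ((0 : ℤ) : ℝ) = H := by push_cast; ring
    -- values
    have hAH : (AA F : ℝ) * (H : ℝ) ^ (n + 1) ≤ t / 2 := by
      have h4 : (H : ℝ) ^ (n + 1) ≤ x / (4 * A * L ^ V) := by
        calc (H : ℝ) ^ (n + 1) ≤ r ^ (n + 1) := pow_le_pow_left₀ (by linarith) hH1 _
          _ = R ^ (n + 1) / (4 * A * L ^ V) ^ (n + 1) := by rw [hr, div_pow]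
          _ ≤ R ^ (n + 1) / (4 * A * L ^ V) := by
              apply div_le_div_of_nonneg_left (by positivity) (by positivity)
              apply le_self_pow₀ _ (by omega)
              nlinarith
          _ = x / (4 * A * L ^ V) := by rw [hRp]
      have h5 : (AA F : ℝ) ≤ A := by
        have : AA F ≤ A := by linarith
        exact_mod_cast this
      have h6 : (0 : ℝ) ≤ AA F := by exact_mod_cast hA1
      calc (AA F : ℝ) * (H : ℝ) ^ (n + 1) ≤ A * (x / (4 * A * L ^ V)) := mul_le_mul h5 h4 (by positivity) (by linarith)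
        _ = (x / L ^ V) / 4 := by
            have : (A : ℝ) ≠ 0 := by linarith
            field_simp
        _ ≤ t / 2 := by
            have : 0 ≤ (x : ℝ) / L ^ V := by positivity
            linarith
    have hxV : (8 : ℝ) ≤ (x : ℝ) / L ^ V := by
      rw [le_div_iff₀ (by positivity), ← hRp]
      calc 8 * L ^ V ≤ L * L ^ V := mul_le_mul_of_nonneg_right (by linarith) (by positivity)
        _ = L ^ (V + 1) := by ring
        _ ≤ L ^ (B + V + 3) := pow_le_pow_right₀ hL1' (by omega)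
        _ ≤ R := hR
        _ ≤ R ^ (n + 1) := le_self_pow₀ (by linarith) (by omega)
    have htx : (t : ℝ) ≤ x := by
      have := (abs_le.1 ht).2
      exact_mod_cast this
    refine hkey z hz1 hz3 0 H hHpos (fun w hw => ?_) (by rw [hlen]; exact hHB)
    rw [mem_Ioc] at hw
    have h4 := eval_le F (n + 1) hn.le w (by rw [abs_of_pos hw.1]; linarith [hw.1])
    rw [abs_of_pos hw.1] at h4
    have h5 : |((F.eval w : ℤ) : ℝ)| ≤ t / 2 := by
      have h6 : |((F.eval w : ℤ) : ℝ)| ≤ (AA F : ℝ) * (w : ℝ) ^ (n + 1) := by exact_mod_cast h4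
      refine h6.trans (le_trans ?_ hAH)
      apply mul_le_mul_of_nonneg_left _ (by exact_mod_cast hA1)
      apply pow_le_pow_left₀
      · exact_mod_cast hw.1.le
      · exact_mod_cast hw.2
    rw [abs_le] at h5
    constructor
    · have h6 : (2 : ℝ) ≤ ((F.eval w + t : ℤ) : ℝ) := by push_cast; linarith
      exact_mod_cast h6
    · rw [hlen]
      push_cast
      have h6 : ((F.eval w : ℤ) : ℝ) + t ≤ 2 * x := by linarith
      refine h6.trans ?_
      rw [← hRp]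
      have h7 : R ≤ H * L ^ (V + 1) := by
        have h8 : R = r * (4 * A * L ^ V) := by rw [hr]; field_simp
        rw [h8]
        have e : (H : ℝ) * L ^ (V + 1) = (H * L ^ V) * L := by ring
        rw [e]
        calc r * (4 * A * L ^ V) ≤ (2 * H) * (4 * A * L ^ V) := mul_le_mul_of_nonneg_right hHr (by positivity)
          _ = (H * L ^ V) * (8 * A) := by ring
          _ ≤ (H * L ^ V) * L := mul_le_mul_of_nonneg_left (by linarith) (by positivity)
      calc 2 * R ^ (n + 1) = R * (2 * R ^ n) := by ring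
        _ ≤ (H * L ^ (V + 1)) * (L * R ^ n) := by
            apply mul_le_mul h7 _ (by positivity) (by positivity)
            exact mul_le_mul_of_nonneg_right (by linarith) (by positivity)
        _ = H * (R ^ n * L ^ (V + 2)) := by ring

end Pool.Agent.TH204.HP
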