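import Pool.Agent.TH204.HP.H9

/-!
The theorems in one variable.
-/

set_option autoImplicit false

namespace Pool.Agent.TH204.HP

open Finset Polynomial Filter Topology
open Pool.Agent.TH204.WR (rho evt_log_ge evt_log_pow)
open Pool.Agent.W313.BMX (Splits splits_swap splits_comm splits_mul_sq)

/-- The variety has a real point. -/
def RealPt {r : ℕ} (f : ℤ[X]) (a c : Fin r → ℤ) (k : ℤ) : Prop := ∃ (t : ℝ) (y z : Fin r → ℝ), OnV f a c k t y z

/-- The variety has points over all the `p`-adic numbers. -/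
def PadicPts {r : ℕ} (f : ℤ[X]) (a c : Fin r → ℤ) (k : ℤ) : Prop :=
  ∀ p : Nat.Primes, ∃ (t : ℚ_[(p : ℕ)]) (y z : Fin r → ℚ_[(p : ℕ)]), OnV f a c k t y z

lemma els_of_pt {r : ℕ} (f : ℤ[X]) (a c : Fin r → ℤ) (ha : ∀ i, a i ≠ 0) (hc : ∀ i, c i ≠ 0) (k : ℤ) (h : PadicPts f a c k)
    (p : Nat.Primes) : ELS f (AA' a c) (p : ℕ) k := by
  obtain ⟨t, y, z, h1, h2⟩ := h p
  refine ⟨t, h1, fun w hw => ?_⟩
  rw [mem_AA'] at hw
  obtain ⟨i, rfl⟩ := hw
  simp only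
  rw [← conic_iff _ _ (by exact_mod_cast ha i) (mul_ne_zero (by exact_mod_cast hc i) h1)]
  exact ⟨y i, z i, h2 i⟩

open Classical in
theorem quant {r : ℕ} (f : ℤ[X]) (hd : 2 ≤ f.natDegree) (a c : Fin r → ℤ) (ha : ∀ i, a i ≠ 0) (hc : ∀ i, c i ≠ 0)
    (T : Finset Nat.Primes) (N : ℕ)
    (hT : ∀ p : Nat.Primes, ((p : ℕ) ≤ f.natDegree ∨ ((p : ℕ) : ℤ) ∣ f.leadingCoeff * ∏ i, (a i * c i)) → p ∈ T) (U : ℕ) :
    ∃ X0 : ℕ, ∀ X : ℕ, X0 ≤ X →
      (#((Icc (-(X : ℤ)) X).filter (fun k => ¬ (RealPt f a c k → WA f a c T N k))) : ℝ) ≤ X / Real.log X ^ U := by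
  have hA : ∀ z ∈ AA' a c, z.1 ≠ 0 ∧ z.2 ≠ 0 := by
    intro z hz
    rw [mem_AA'] at hz
    obtain ⟨i, rfl⟩ := hz
    exact ⟨ha i, hc i⟩
  have hBT : BigT f (AA' a c) T := by
    intro p hp
    apply hT p
    rcases hp with h | h | ⟨z, hz, h⟩
    · exact Or.inl h
    · exact Or.inr (h.mul_right _)
    · right
      rw [mem_AA'] at hz
      obtain ⟨i, rfl⟩ := hz
      simp only at h
      have h1 : ((p : ℕ) : ℤ) ∣ a i * c i := by
        rcases h with h | h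
        · exact h.mul_right _
        · exact h.mul_left _
      exact (h1.trans (dvd_prod_of_mem (fun i => a i * c i) (mem_univ i))).mul_left _
  obtain ⟨X0, h⟩ := thm2 f hd (AA' a c) hA T hBT ((2 * f.natDegree + 3) * N + 3) U
  refine ⟨X0, fun X hX => ?_⟩
  obtain ⟨Bad, hB1, hB2⟩ := h X hX
  refine le_trans ?_ hB1
  have hsub : (Icc (-(X : ℤ)) X).filter (fun k => ¬ (RealPt f a c k → WA f a c T N k)) ⊆ Bad := by
    intro k hk
    rw [mem_filter, mem_Icc] at hk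
    by_contra hkB
    apply hk.2
    intro hr
    exact wa_of_glob f a c ha hc T T (Subset.refl T) N _ le_rfl k (fun p hp hp2 => absurd hp hp2)
      (fun t => hB2 k (abs_le.2 hk.1) hkB (real_cond f a c ha hc k hr) t)
  exact_mod_cast card_le_card hsub

open Classical in
theorem density {r : ℕ} (f : ℤ[X]) (hd : 2 ≤ f.natDegree) (a c : Fin r → ℤ) (ha : ∀ i, a i ≠ 0) (hc : ∀ i, c i ≠ 0)
    (T : Finset Nat.Primes) (N : ℕ) (η : ℝ) (hη : 0 < η) :
    ∃ X0 : ℕ, ∀ X : ℕ, X0 ≤ X →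
      (#((Icc (-(X : ℤ)) X).filter (fun k => ¬ (RealPt f a c k → PadicPts f a c k → WA f a c T N k))) : ℝ) ≤ η * X := by
  have hA : ∀ z ∈ AA' a c, z.1 ≠ 0 ∧ z.2 ≠ 0 := by
    intro z hz
    rw [mem_AA'] at hz
    obtain ⟨i, rfl⟩ := hz
    exact ⟨ha i, hc i⟩
  have hf0 : f.leadingCoeff ≠ 0 := by
    rw [Ne, leadingCoeff_eq_zero]
    rintro rfl
    simp at hd
  -- the set of primes
  obtain ⟨B, hB⟩ : ∃ B : ℕ, B = f.natDegree + f.leadingCoeff.natAbs + ∑ z ∈ AA' a c, (z.1.natAbs + z.2.natAbs) := ⟨_, rfl⟩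
  have hfin : {p : Nat.Primes | (p : ℕ) ≤ B}.Finite := (Set.finite_Iic B).preimage (Subtype.val_injective.injOn)
  obtain ⟨T1, hT1⟩ : ∃ T1 : Finset Nat.Primes, T1 = T ∪ hfin.toFinset := ⟨_, rfl⟩
  have hBT : BigT f (AA' a c) T1 := by
    intro p hp
    have h1 : (p : ℕ) ≤ B := by
      rcases hp with h | h | ⟨z, hz, h⟩
      · omega
      · have h2 : (p : ℕ) ≤ f.leadingCoeff.natAbs :=
          Nat.le_of_dvd (Int.natAbs_pos.2 hf0) (Int.natCast_dvd.1 h)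
        omega
      · have h3 : z.1.natAbs + z.2.natAbs ≤ ∑ z ∈ AA' a c, (z.1.natAbs + z.2.natAbs) :=
          single_le_sum (f := fun z : ℤ × ℤ => z.1.natAbs + z.2.natAbs) (fun _ _ => Nat.zero_le _) hz
        rcases h with h | h
        · have h2 : (p : ℕ) ≤ z.1.natAbs := Nat.le_of_dvd (Int.natAbs_pos.2 (hA z hz).1) (Int.natCast_dvd.1 h)
          omega
        · have h2 : (p : ℕ) ≤ z.2.natAbs := Nat.le_of_dvd (Int.natAbs_pos.2 (hA z hz).2) (Int.natCast_dvd.1 h)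
          omega
    rw [hT1, mem_union]
    right
    rw [Set.Finite.mem_toFinset]
    exact h1
  have hTT : T ⊆ T1 := by rw [hT1]; exact subset_union_left
  -- the levels
  obtain ⟨η', hη'⟩ : ∃ η' : ℝ, η' = η / (2 * (#T1 + 1)) := ⟨_, rfl⟩
  have hT1n : (0 : ℝ) ≤ #T1 := Nat.cast_nonneg _
  have hη'0 : 0 < η' := by
    rw [hη']
    exact div_pos hη (by linarith)
  have hlev : ∀ p : Nat.Primes, ∃ N1 X1 : ℕ, ∀ X : ℕ, X1 ≤ X →
      (#((Icc (-(X : ℤ)) X).filter (fun k => ELS f (AA' a c) (p : ℕ) k ∧ ¬ LocN f (AA' a c) (p : ℕ) N1 k)) : ℝ) ≤ η' * X :=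
    fun p => dens f (by omega) (AA' a c) (p : ℕ) η' hη'0
  choose N1 X1 hN1 using hlev
  obtain ⟨N', hN'⟩ : ∃ N', N' = ∑ p ∈ T1, N1 p + ((2 * f.natDegree + 3) * N + 3) := ⟨_, rfl⟩
  obtain ⟨X2, h2⟩ := thm2 f hd (AA' a c) hA T1 hBT N' 1
  obtain ⟨X3, hX3⟩ := eventually_atTop.1 (evt_log_ge (2 / η))
  refine ⟨max (max X2 X3) (∑ p ∈ T1, X1 p), fun X hX => ?_⟩
  obtain ⟨Bad, hB1, hB2⟩ := h2 X ((le_trans (le_max_left _ _) (le_max_left _ _)).trans hX)
  have hL := hX3 X ((le_trans (le_max_right _ _) (le_max_left _ _)).trans hX)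
  have hX1 : ∀ p ∈ T1, X1 p ≤ X := fun p hp =>
    (single_le_sum (fun _ _ => Nat.zero_le _) hp).trans ((le_max_right _ _).trans hX)
  have hsub : (Icc (-(X : ℤ)) X).filter (fun k => ¬ (RealPt f a c k → PadicPts f a c k → WA f a c T N k)) ⊆
      Bad ∪ T1.biUnion (fun p => (Icc (-(X : ℤ)) X).filter
        (fun k => ELS f (AA' a c) (p : ℕ) k ∧ ¬ LocN f (AA' a c) (p : ℕ) (N1 p) k)) := by
    intro k hk
    rw [mem_filter, mem_Icc] at hk
    by_contra hcon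
    rw [mem_union, not_or] at hcon
    apply hk.2
    intro hr hp
    refine wa_of_glob f a c ha hc T T1 hTT N N' (by rw [hN']; omega) k ?_
      (fun t => hB2 k (abs_le.2 hk.1) hcon.1 (real_cond f a c ha hc k hr) t)
    intro p hpT1 _
    have h3 : LocN f (AA' a c) (p : ℕ) (N1 p) k := by
      by_contra h4
      apply hcon.2
      rw [mem_biUnion]
      exact ⟨p, hpT1, mem_filter.2 ⟨mem_Icc.2 hk.1, els_of_pt f a c ha hc k hp p, h4⟩⟩
    refine h3.mono ?_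
    rw [hN']
    have := single_le_sum (f := N1) (fun _ _ => Nat.zero_le _) hpT1
    omega
  have h5 : (#((Icc (-(X : ℤ)) X).filter (fun k => ¬ (RealPt f a c k → PadicPts f a c k → WA f a c T N k))) : ℝ) ≤
      (#Bad : ℝ) + ∑ p ∈ T1, (#((Icc (-(X : ℤ)) X).filter
        (fun k => ELS f (AA' a c) (p : ℕ) k ∧ ¬ LocN f (AA' a c) (p : ℕ) (N1 p) k)) : ℝ) := by
    have := (card_le_card hsub).trans ((card_union_le _ _).trans (Nat.add_le_add_left card_biUnion_le _))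
    exact_mod_cast this
  refine h5.trans ?_
  have h6 : ∑ p ∈ T1, (#((Icc (-(X : ℤ)) X).filter
      (fun k => ELS f (AA' a c) (p : ℕ) k ∧ ¬ LocN f (AA' a c) (p : ℕ) (N1 p) k)) : ℝ) ≤ ∑ p ∈ T1, η' * X :=
    sum_le_sum fun p hp => hN1 p X (hX1 p hp)
  rw [sum_const, nsmul_eq_mul] at h6
  have hX0 : (0 : ℝ) ≤ X := Nat.cast_nonneg _
  have h7 : (#T1 : ℝ) * (η' * X) ≤ η / 2 * X := by
    have h8 : (#T1 : ℝ) * η' ≤ η / 2 := by
      rw [hη', ← mul_div_assoc, div_le_div_iff₀ (by linarith) (by norm_num)]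
      nlinarith
    calc (#T1 : ℝ) * (η' * X) = (#T1 : ℝ) * η' * X := by ring
      _ ≤ _ := mul_le_mul_of_nonneg_right h8 hX0
  have h9 : (#Bad : ℝ) ≤ η / 2 * X := by
    refine hB1.trans ?_
    have hLpos : 0 < Real.log X := lt_of_lt_of_le (by positivity) hL
    rw [pow_one, div_le_iff₀ hLpos]
    rw [div_le_iff₀ hη] at hL
    nlinarith
  linarith

end Pool.Agent.TH204.HP
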