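import Pool.Agent.TH204.HP.H10

/-!
Odd degree: local points exist for all `k`.
-/

set_option autoImplicit false

namespace Pool.Agent.TH204.HP

open Finset Polynomial Filter Topology

lemma pos_value (f : ℤ[X]) (hd : 1 ≤ f.natDegree) (ho : Odd f.natDegree) (k : ℤ) : ∃ t : ℝ, 0 < aeval t f + (k : ℝ) := by
  have hf0 : f.leadingCoeff ≠ 0 := by
    rw [Ne, leadingCoeff_eq_zero]
    rintro rfl
    simp at hd
  have key : ∀ g : ℤ[X], 1 ≤ g.natDegree → 0 < g.leadingCoeff → ∃ x : ℝ, 0 < aeval x g + (k : ℝ) := by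
    intro g hg1 hg2
    have hinj : Function.Injective (Int.castRingHom ℝ) := Int.cast_injective
    have h := Polynomial.tendsto_atTop_of_leadingCoeff_nonneg (g.map (Int.castRingHom ℝ)) (by
      rw [degree_map_eq_of_injective hinj]
      exact natDegree_pos_iff_degree_pos.1 (by omega)) (by
      rw [leadingCoeff_map_of_injective hinj, eq_intCast]
      exact_mod_cast hg2.le)
    obtain ⟨R, hR⟩ := eventually_atTop.1 (h.eventually (eventually_gt_atTop (-(k : ℝ))))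
    refine ⟨R, ?_⟩
    have h1 := hR R le_rfl
    rw [eval_map] at h1
    have h2 : eval₂ (Int.castRingHom ℝ) R g = aeval R g := rfl
    rw [h2] at h1
    linarith
  rcases lt_or_gt_of_ne hf0 with hl | hl
  · obtain ⟨x, hx⟩ := key (f.comp (-X)) (by rw [comp_neg_natDegree]; exact hd) (by
      rw [comp_neg_lead, ho.neg_one_pow, mul_neg_one]
      linarith)
    refine ⟨-x, ?_⟩
    rw [← aeval_comp_neg, neg_neg]
    exact hx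
  · exact key f hd hl

lemma odd_pts {r : ℕ} (f : ℤ[X]) (hd : 1 ≤ f.natDegree) (ho : Odd f.natDegree) (a c : Fin r → ℤ)
    (hc : ∀ i, c i = 1) (k : ℤ) : RealPt f a c k ∧ PadicPts f a c k := by
  have hf0 : f.leadingCoeff ≠ 0 := by
    rw [Ne, leadingCoeff_eq_zero]
    rintro rfl
    simp at hd
  constructor
  · obtain ⟨t, ht⟩ := pos_value f hd ho k
    refine ⟨t, fun _ => √(aeval t f + (k : ℝ)), fun _ => 0, ht.ne', fun i => ?_⟩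
    rw [Real.sq_sqrt ht.le, hc i]
    push_cast
    ring
  · intro p
    have hlc' : ((f.leadingCoeff : ℤ) : ℚ_[(p : ℕ)]) ≠ 0 := by exact_mod_cast hf0
    have hln : 0 < ‖((f.leadingCoeff : ℤ) : ℚ_[(p : ℕ)])‖ := norm_pos_iff.2 hlc'
    have h4n : 0 < ‖(4 : ℚ_[(p : ℕ)])‖ := norm_pos_iff.2 (by norm_num)
    have hppos : (0 : ℝ) < ((p : ℕ) : ℝ) := p_pos (p := (p : ℕ))
    have hp1 : (1 : ℝ) < ((p : ℕ) : ℝ) := one_lt_p (p := (p : ℕ))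
    obtain ⟨N0, hN0⟩ := exists_pow_gt (p := (p : ℕ)) (‖(4 : ℚ_[(p : ℕ)])‖ * ‖((f.leadingCoeff : ℤ) : ℚ_[(p : ℕ)])‖)⁻¹
    have h0 : 1 < ((p : ℕ) : ℝ) ^ N0 * (‖(4 : ℚ_[(p : ℕ)])‖ * ‖((f.leadingCoeff : ℤ) : ℚ_[(p : ℕ)])‖) := by
      rw [inv_lt_iff_one_lt_mul₀ (by positivity)] at hN0
      exact hN0
    obtain ⟨N1, hN1⟩ := exists_pow_gt (p := (p : ℕ)) (((p : ℕ) : ℝ) ^ N0 / ‖((f.leadingCoeff : ℤ) : ℚ_[(p : ℕ)])‖)
    obtain ⟨w, hw⟩ : ∃ w : ℚ_[(p : ℕ)], w = (((p : ℕ) : ℚ_[(p : ℕ)]) ^ N1)⁻¹ := ⟨_, rfl⟩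
    have hpq : ((p : ℕ) : ℚ_[(p : ℕ)]) ≠ 0 := by exact_mod_cast p.2.ne_zero
    have hw0 : w ≠ 0 := by rw [hw]; exact inv_ne_zero (pow_ne_zero _ hpq)
    have hwn : ‖w‖ = ((p : ℕ) : ℝ) ^ N1 := by
      rw [hw, norm_inv, norm_pow, Padic.norm_p, inv_pow, inv_inv]
    obtain ⟨s, hs, hs2, -⟩ := far_sq f hd N0 h0 k (((f.leadingCoeff : ℤ) : ℚ_[(p : ℕ)]) * w ^ 2) (by
      rw [norm_mul, norm_pow, hwn]
      rw [div_lt_iff₀ hln] at hN1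
      have h1 : ((p : ℕ) : ℝ) ^ N1 ≤ (((p : ℕ) : ℝ) ^ N1) ^ 2 := le_self_pow₀ (one_le_pow₀ hp1.le) (by norm_num)
      calc ((p : ℕ) : ℝ) ^ N0 ≤ ((p : ℕ) : ℝ) ^ N1 * ‖((f.leadingCoeff : ℤ) : ℚ_[(p : ℕ)])‖ := hN1.le
        _ ≤ (((p : ℕ) : ℝ) ^ N1) ^ 2 * ‖((f.leadingCoeff : ℤ) : ℚ_[(p : ℕ)])‖ := mul_le_mul_of_nonneg_right h1 hln.le
        _ = _ := mul_comm _ _)
    obtain ⟨m, hm⟩ := ho
    have hsq : aeval (((f.leadingCoeff : ℤ) : ℚ_[(p : ℕ)]) * w ^ 2) f + (k : ℚ_[(p : ℕ)]) =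
        (((f.leadingCoeff : ℤ) : ℚ_[(p : ℕ)]) ^ (m + 1) * w ^ (2 * m + 1) * s) ^ 2 := by
      rw [hs2, hm]
      ring
    refine ⟨((f.leadingCoeff : ℤ) : ℚ_[(p : ℕ)]) * w ^ 2,
      fun _ => ((f.leadingCoeff : ℤ) : ℚ_[(p : ℕ)]) ^ (m + 1) * w ^ (2 * m + 1) * s, fun _ => 0, ?_, fun i => ?_⟩
    · rw [hsq]
      exact pow_ne_zero 2 (mul_ne_zero (mul_ne_zero (pow_ne_zero _ hlc') (pow_ne_zero _ hw0)) hs)
    · rw [hsq, hc i]
      push_cast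
      ring

end Pool.Agent.TH204.HP
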