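import Pool.Agent.TH204.HP.H11

/-!
Auxiliary lemmas for the surfaces with a fixed degenerate fibre: the integer `c`, parity, points at the auxiliary prime.
-/

set_option autoImplicit false

namespace Pool.Agent.TH204.HP

open Finset Polynomial Filter Topology
open Pool.Agent.W313.BMX (Splits splits_swap splits_comm splits_mul_sq)

/-- an integer in a given residue class with the given sign which is a product of primes of `T` and one large prime -/
lemma exists_c (T : Finset Nat.Primes) (E B M u0 : ℕ) (hM : M = ∏ p ∈ T, (p : ℕ) ^ E) (σ : ℤ) (hσ : σ = 1 ∨ σ = -1)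
    (hu : ∀ p ∈ T, ¬ (((p : ℕ) ^ E : ℕ) : ℤ) ∣ (u0 : ℤ)) :
    ∃ (c : ℤ) (l : Nat.Primes), B < (l : ℕ) ∧ c ≠ 0 ∧ 0 < σ * c ∧ (M : ℤ) ∣ c - u0 ∧
      ∀ p : Nat.Primes, ((p : ℕ) : ℤ) ∣ c → p ∈ T ∨ p = l := by
  have hM0 : M ≠ 0 := by rw [hM]; exact prod_ne_zero_iff.2 fun p _ => pow_ne_zero _ p.2.ne_zero
  obtain ⟨g, hg⟩ : ∃ g, g = Nat.gcd u0 M := ⟨_, rfl⟩
  have hgpos : 0 < g := by rw [hg]; exact Nat.gcd_pos_of_pos_right _ (Nat.pos_of_ne_zero hM0)
  have hgM : g ∣ M := by rw [hg]; exact Nat.gcd_dvd_right _ _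
  obtain ⟨u1, hu1⟩ : g ∣ u0 := by rw [hg]; exact Nat.gcd_dvd_left _ _
  -- `u1` is prime to `M`
  have hcop : Nat.Coprime u1 M := by
    rw [hM]
    apply Nat.Coprime.prod_right
    intro p hp
    apply Nat.Coprime.pow_right
    rw [Nat.coprime_comm, Nat.Prime.coprime_iff_not_dvd p.2]
    intro hdiv
    obtain ⟨m, hm, -⟩ := prod_split T E p hp
    have h1 := (gcd_facts (u0 : ℤ) M p E m p.2 (by rw [hM]; exact hm) hM0 (hu p hp)).2
    rw [Int.natAbs_natCast, ← hg] at h1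
    apply h1
    rw [hu1]
    push_cast
    rw [Int.mul_ediv_cancel_left _ (by exact_mod_cast hgpos.ne')]
    exact_mod_cast hdiv
  haveI : NeZero M := ⟨hM0⟩
  have hunit : IsUnit ((σ * (u1 : ℤ) : ℤ) : ZMod M) := by
    have h1 : IsUnit ((u1 : ℕ) : ZMod M) := (ZMod.isUnit_iff_coprime u1 M).2 hcop
    push_cast
    refine IsUnit.mul ?_ (by exact_mod_cast h1)
    rcases hσ with h | h <;> rw [h]
    · simp
    · simp
  obtain ⟨l, hl, hlp, hlM⟩ := Nat.forall_exists_prime_gt_and_eq_mod hunit B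
  refine ⟨σ * (g * l), ⟨l, hlp⟩, hl, ?_, ?_, ?_, ?_⟩
  · have h1 : (g : ℤ) ≠ 0 := by exact_mod_cast hgpos.ne'
    have h2 : (l : ℤ) ≠ 0 := by exact_mod_cast hlp.ne_zero
    have h3 : σ ≠ 0 := by rcases hσ with h | h <;> rw [h] <;> norm_num
    exact mul_ne_zero h3 (mul_ne_zero h1 h2)
  · have h1 : (0 : ℤ) < g := by exact_mod_cast hgpos
    have h2 : (0 : ℤ) < l := by exact_mod_cast hlp.pos
    have h3 : σ * σ = 1 := by rcases hσ with h | h <;> rw [h] <;> norm_num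
    rw [← mul_assoc, h3, one_mul]
    positivity
  · have h1 : (M : ℤ) ∣ (l : ℤ) - σ * u1 := by
      rw [← ZMod.intCast_zmod_eq_zero_iff_dvd]
      push_cast
      rw [hlM]
      push_cast
      ring
    have h3 : σ * σ = 1 := by rcases hσ with h | h <;> rw [h] <;> norm_num
    have e : σ * ((g : ℤ) * l) - (u0 : ℤ) = σ * g * ((l : ℤ) - σ * u1) := by
      rw [hu1]
      push_cast
      linear_combination (-(g : ℤ) * u1) * h3 + (g : ℤ) * u1 * h3 + (g : ℤ) * u1 * h3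
    rw [e]
    exact h1.mul_left _
  · intro p hp
    have hpp := Nat.prime_iff_prime_int.1 p.2
    rcases hpp.dvd_or_dvd hp with h | h
    · exfalso
      have h4 : ((p : ℕ) : ℤ) ∣ 1 := by
        rcases hσ with h5 | h5 <;> rw [h5] at h
        · exact h
        · exact (dvd_neg).1 h
      exact hpp.not_dvd_one h4
    · rcases hpp.dvd_or_dvd h with h1 | h1
      · left
        have h2 : (p : ℕ) ∣ g := by exact_mod_cast h1
        have h3 : (p : ℕ) ∣ ∏ q ∈ T, (q : ℕ) ^ E := by rw [← hM]; exact h2.trans hgM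
        exact mem_of_dvd_prod T E p h3
      · right
        have h2 : (p : ℕ) ∣ l := by exact_mod_cast h1
        exact Subtype.ext ((Nat.prime_dvd_prime_iff_eq p.2 hlp).1 h2)

open Classical in
/-- parity: the symbol at the auxiliary prime -/
lemma parity (a c : ℤ) (ha : a ≠ 0) (hc : c ≠ 0) (T : Finset Nat.Primes) (l : Nat.Primes) (hl : l ∉ T)
    (h2 : ∀ p : Nat.Primes, (p : ℕ) = 2 → p ∈ T)
    (hTa : ∀ p : Nat.Primes, ((p : ℕ) : ℤ) ∣ a → p ∈ T) (hTc : ∀ p : Nat.Primes, ((p : ℕ) : ℤ) ∣ c → p ∈ T ∨ p = l)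
    (t : (p : Nat.Primes) → ℚ_[(p : ℕ)]) (ht : ∀ p ∈ T, (Splits (a : ℚ_[(p : ℕ)]) (c : ℚ_[(p : ℕ)]) ↔ Splits (a : ℚ_[(p : ℕ)]) (t p)))
    (tr : ℝ) (htr : 0 < (c : ℝ) * tr)
    (hev : Even (#(T.filter (fun p : Nat.Primes => ¬ Splits (a : ℚ_[(p : ℕ)]) (t p))) + (if a < 0 ∧ tr < 0 then 1 else 0))) :
    Splits (a : ℚ_[(l : ℕ)]) (c : ℚ_[(l : ℕ)]) := by
  by_contra hno
  have he := Pool.Agent.W351.HB.PF.ev_all Pool.Agent.W215.HB.bilo_ Pool.Agent.W864.HBm.bilt_ a c ha hc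
  obtain ⟨R, hR⟩ : ∃ R : Finset (Option Nat.Primes), R = insert (some l)
    ((T.filter (fun p : Nat.Primes => ¬ Splits (a : ℚ_[(p : ℕ)]) (t p))).image some ∪ (if a < 0 ∧ tr < 0 then {none} else ∅)) := ⟨_, rfl⟩
  have hset : Pool.Agent.W313.BMX.ram (Pool.Agent.W313.BMX.diag a) c = (R : Set (Option Nat.Primes)) := by
    ext v
    rw [hR, mem_coe, mem_insert, mem_union, mem_image]
    cases v with
    | none =>
      rw [Pool.Agent.W351.HB.PF.mem_none]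
      have hreal : ¬ Splits (a : ℝ) (c : ℝ) ↔ (a < 0 ∧ tr < 0) := by
        constructor
        · intro h
          have h3 : ¬ (0 < (a : ℝ) ∨ 0 < (c : ℝ)) := fun h4 => h (splits_real _ _ h4)
          rw [not_or, not_lt, not_lt] at h3
          have ha' : (a : ℝ) < 0 := lt_of_le_of_ne h3.1 (by exact_mod_cast ha)
          have hc' : (c : ℝ) < 0 := lt_of_le_of_ne h3.2 (by exact_mod_cast hc)
          exact ⟨by exact_mod_cast ha', by nlinarith⟩
        · rintro ⟨h3, h4⟩ ⟨x, y, z, h5, h6⟩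
          have ha' : (a : ℝ) < 0 := by exact_mod_cast h3
          have hc' : (c : ℝ) < 0 := by nlinarith
          have h7 : z ^ 2 = 0 ∧ x ^ 2 = 0 ∧ y ^ 2 = 0 := by
            refine ⟨?_, ?_, ?_⟩ <;> nlinarith [sq_nonneg x, sq_nonneg y, sq_nonneg z]
          rw [pow_eq_zero_iff two_ne_zero, pow_eq_zero_iff two_ne_zero, pow_eq_zero_iff two_ne_zero] at h7
          rcases h5 with h5 | h5 | h5
          · exact h5 h7.2.1
          · exact h5 h7.2.2
          · exact h5 h7.1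
      rw [hreal]
      by_cases h3 : a < 0 ∧ tr < 0
      · simp [h3]
      · simp [h3]
    | some p =>
      rw [Pool.Agent.W351.HB.PF.mem_some]
      have h3 : (some p : Option Nat.Primes) ∉ (if a < 0 ∧ tr < 0 then ({none} : Finset (Option Nat.Primes)) else ∅) := by
        split_ifs <;> simp
      by_cases hpl : p = l
      · subst hpl
        exact ⟨fun _ => Or.inl rfl, fun _ => hno⟩
      · by_cases hpT : p ∈ T
        · rw [ht p hpT]
          constructor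
          · intro h4
            exact Or.inr (Or.inl ⟨p, mem_filter.2 ⟨hpT, h4⟩, rfl⟩)
          · rintro (h4 | ⟨q, hq, h4⟩ | h4)
            · exact absurd (Option.some.inj h4) hpl
            · have := Option.some.inj h4
              subst this
              exact (mem_filter.1 hq).2
            · exact absurd h4 h3
        · have h4 : Splits (a : ℚ_[(p : ℕ)]) (c : ℚ_[(p : ℕ)]) := by
            apply Pool.Agent.W335.BMX.odd2 (p : ℕ) (fun h => hpT (h2 p h))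
            · exact fun h => hpT (hTa p h)
            · intro h
              rcases hTc p h with h5 | h5
              · exact hpT h5
              · exact hpl h5
          constructor
          · intro h5
            exact absurd h4 h5
          · rintro (h5 | ⟨q, hq, h5⟩ | h5)
            · exact absurd (Option.some.inj h5) hpl
            · have := Option.some.inj h5
              subst this
              exact absurd (mem_filter.1 hq).1 hpT
            · exact absurd h5 h3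
  have hcard : (Pool.Agent.W313.BMX.ram (Pool.Agent.W313.BMX.diag a) c).ncard =
      #(T.filter (fun p : Nat.Primes => ¬ Splits (a : ℚ_[(p : ℕ)]) (t p))) + (if a < 0 ∧ tr < 0 then 1 else 0) + 1 := by
    rw [hset, Set.ncard_coe_finset, hR, card_insert_of_notMem, card_union_of_disjoint, card_image_of_injective _ (Option.some_injective _)]
    · congr 2
      split_ifs <;> simp
    · rw [disjoint_left]
      intro v hv
      rw [mem_image] at hv
      obtain ⟨q, -, rfl⟩ := hv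
      split_ifs <;> simp
    · rw [mem_union, not_or]
      constructor
      · rw [mem_image]
        rintro ⟨q, hq, h4⟩
        have := Option.some.inj h4
        subst this
        exact hl (mem_filter.1 hq).1
      · split_ifs <;> simp
  have h3 := he.2
  rw [hcard] at h3
  exact (Nat.not_even_iff_odd.2 (hev.add_one)) h3

/-- a point at the auxiliary prime -/
lemma aux_pt (f : ℤ[X]) (hd : 1 ≤ f.natDegree) (a b c : ℤ) (ha : a ≠ 0) (hb : b ≠ 0) (hc : c ≠ 0) (l : Nat.Primes)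
    (hl2 : (l : ℕ) ≠ 2) (hla : ¬ ((l : ℕ) : ℤ) ∣ a) (hlb : ¬ ((l : ℕ) : ℤ) ∣ b * f.leadingCoeff) :
    ∃ N1 : ℕ, ∀ k : ℤ, (Odd f.natDegree ∨ Splits (a : ℚ_[(l : ℕ)]) (c : ℚ_[(l : ℕ)])) → ∃ v : ℚ_[(l : ℕ)], ‖v‖ ≤ ((l : ℕ) : ℝ) ^ N1 ∧
      (((l : ℕ) : ℝ) ^ N1)⁻¹ ≤ ‖aeval v (f.comp (C c * X ^ 2)) + (k : ℚ_[(l : ℕ)])‖ ∧
      Splits (a : ℚ_[(l : ℕ)]) (((b * c : ℤ) : ℚ_[(l : ℕ)]) * (aeval v (f.comp (C c * X ^ 2)) + (k : ℚ_[(l : ℕ)]))) := by
  have hf0 : f.leadingCoeff ≠ 0 := by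
    rw [Ne, leadingCoeff_eq_zero]
    rintro rfl
    simp at hd
  obtain ⟨F, hF⟩ : ∃ F : ℤ[X], F = f.comp (C c * X ^ 2) := ⟨_, rfl⟩
  have hqd : (C c * X ^ 2 : ℤ[X]).natDegree = 2 := natDegree_C_mul_X_pow 2 c hc
  have hql : (C c * X ^ 2 : ℤ[X]).leadingCoeff = c := leadingCoeff_C_mul_X_pow c 2
  have hFd : F.natDegree = 2 * f.natDegree := by rw [hF, natDegree_comp, hqd, mul_comm]
  have hFl : F.leadingCoeff = f.leadingCoeff * c ^ f.natDegree := by
    rw [hF, leadingCoeff_comp (by rw [hqd]; norm_num), hql]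
  have hFl0 : F.leadingCoeff ≠ 0 := by rw [hFl]; exact mul_ne_zero hf0 (pow_ne_zero _ hc)
  have hlc' : ((F.leadingCoeff : ℤ) : ℚ_[(l : ℕ)]) ≠ 0 := by exact_mod_cast hFl0
  have hln : 0 < ‖((F.leadingCoeff : ℤ) : ℚ_[(l : ℕ)])‖ := norm_pos_iff.2 hlc'
  have h4n : 0 < ‖(4 : ℚ_[(l : ℕ)])‖ := norm_pos_iff.2 (by norm_num)
  have hppos : (0 : ℝ) < ((l : ℕ) : ℝ) := p_pos (p := (l : ℕ))
  have hp1 : (1 : ℝ) < ((l : ℕ) : ℝ) := one_lt_p (p := (l : ℕ))
  obtain ⟨N0, hN0⟩ := exists_pow_gt (p := (l : ℕ)) (‖(4 : ℚ_[(l : ℕ)])‖ * ‖((F.leadingCoeff : ℤ) : ℚ_[(l : ℕ)])‖)⁻¹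
  have h0 : 1 < ((l : ℕ) : ℝ) ^ N0 * (‖(4 : ℚ_[(l : ℕ)])‖ * ‖((F.leadingCoeff : ℤ) : ℚ_[(l : ℕ)])‖) := by
    rw [inv_lt_iff_one_lt_mul₀ (by positivity)] at hN0
    exact hN0
  refine ⟨N0, fun k hcase => ?_⟩
  obtain ⟨v, hv⟩ : ∃ v : ℚ_[(l : ℕ)], v = (((l : ℕ) : ℚ_[(l : ℕ)]) ^ N0)⁻¹ := ⟨_, rfl⟩
  have hpq : ((l : ℕ) : ℚ_[(l : ℕ)]) ≠ 0 := by exact_mod_cast l.2.ne_zero
  have hv0 : v ≠ 0 := by rw [hv]; exact inv_ne_zero (pow_ne_zero _ hpq)
  have hvn : ‖v‖ = ((l : ℕ) : ℝ) ^ N0 := by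
    rw [hv, norm_inv, norm_pow, Padic.norm_p, inv_pow, inv_inv]
  obtain ⟨s, hs, hs2, hs3⟩ := far_sq F (by omega) N0 h0 k v hvn.ge
  rw [← hF]
  refine ⟨v, hvn.le, ?_, ?_⟩
  · rw [hs3]
    have h1 : (((l : ℕ) : ℝ) ^ N0)⁻¹ ≤ ‖((F.leadingCoeff : ℤ) : ℚ_[(l : ℕ)])‖ := by
      rw [inv_le_iff_one_le_mul₀ (by positivity)]
      have h2 : ((l : ℕ) : ℝ) ^ N0 * (‖(4 : ℚ_[(l : ℕ)])‖ * ‖((F.leadingCoeff : ℤ) : ℚ_[(l : ℕ)])‖) ≤
          ((l : ℕ) : ℝ) ^ N0 * ‖((F.leadingCoeff : ℤ) : ℚ_[(l : ℕ)])‖ :=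
        mul_le_mul_of_nonneg_left (mul_le_of_le_one_left hln.le four_norm_le) (by positivity)
      rw [mul_comm]
      linarith
    have h3 : 1 ≤ ‖v‖ ^ F.natDegree := by rw [hvn]; exact one_le_pow₀ (one_le_pow₀ hp1.le)
    exact h1.trans (le_mul_of_one_le_right hln.le h3)
  · have hbl : Splits (a : ℚ_[(l : ℕ)]) (((b * f.leadingCoeff : ℤ)) : ℚ_[(l : ℕ)]) :=
      Pool.Agent.W335.BMX.odd2 (l : ℕ) hl2 a _ hla hlb
    have hcq : (c : ℚ_[(l : ℕ)]) ≠ 0 := by exact_mod_cast hc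
    rw [hs2, hFd, hFl]
    rcases Nat.even_or_odd f.natDegree with he | ho
    · obtain ⟨q, hq⟩ := he
      have hsc : Splits (a : ℚ_[(l : ℕ)]) (c : ℚ_[(l : ℕ)]) := by
        rcases hcase with h | h
        · exfalso
          rw [hq] at h
          exact (Nat.not_even_iff_odd.2 h) ⟨q, rfl⟩
        · exact h
      have h5 : Splits (a : ℚ_[(l : ℕ)]) ((((b * f.leadingCoeff) * c : ℤ)) : ℚ_[(l : ℕ)]) :=
        (Pool.Agent.W215.HB.bilo_ (l : ℕ) hl2 a (b * f.leadingCoeff) c ha (mul_ne_zero hb hf0) hc).2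
          ⟨fun _ => hsc, fun _ => hbl⟩
      have e : ((b * c : ℤ) : ℚ_[(l : ℕ)]) * (((f.leadingCoeff * c ^ f.natDegree : ℤ) : ℚ_[(l : ℕ)]) * v ^ (2 * f.natDegree) * s ^ 2) =
          ((((b * f.leadingCoeff) * c : ℤ)) : ℚ_[(l : ℕ)]) * ((c : ℚ_[(l : ℕ)]) ^ q * v ^ f.natDegree * s) ^ 2 := by
        push_cast
        rw [hq]
        ring
      rw [e]
      exact splits_swap ((splits_mul_sq (mul_ne_zero (mul_ne_zero (pow_ne_zero _ hcq) (pow_ne_zero _ hv0)) hs)).2 (splits_swap h5))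
    · obtain ⟨q, hq⟩ := ho
      have e : ((b * c : ℤ) : ℚ_[(l : ℕ)]) * (((f.leadingCoeff * c ^ f.natDegree : ℤ) : ℚ_[(l : ℕ)]) * v ^ (2 * f.natDegree) * s ^ 2) =
          (((b * f.leadingCoeff : ℤ)) : ℚ_[(l : ℕ)]) * ((c : ℚ_[(l : ℕ)]) ^ (q + 1) * v ^ f.natDegree * s) ^ 2 := by
        push_cast
        rw [hq]
        ring
      rw [e]
      exact splits_swap ((splits_mul_sq (mul_ne_zero (mul_ne_zero (pow_ne_zero _ hcq) (pow_ne_zero _ hv0)) hs)).2 (splits_swap hbl))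

end Pool.Agent.TH204.HP
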