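import Pool.Agent.TH204.HP.H15

/-!
The surfaces `y ^ 2 - a z ^ 2 = b t (f(t) + k)`.
-/

set_option autoImplicit false

namespace Pool.Agent.TH204.HP

open Finset Polynomial Filter Topology
open Pool.Agent.TH204.WR (rho evt_log_ge evt_log_pow)
open Pool.Agent.W313.BMX (Splits splits_swap splits_comm splits_mul_sq)

/-- The point `(t, y, z)` lies on the surface `y ^ 2 - a z ^ 2 = b t (f(t) + k)`, `t (f(t) + k) ≠ 0`. -/
def OnW (f : ℤ[X]) (a b k : ℤ) {F : Type} [Field F] (t y z : F) : Prop :=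
  t ≠ 0 ∧ aeval t f + (k : F) ≠ 0 ∧ y ^ 2 - (a : F) * z ^ 2 = (b : F) * (t * (aeval t f + (k : F)))

open Classical in
/-- Approximation of level `N` at the primes of `T` of the points orthogonal to `(a, t)`. -/
def WB (f : ℤ[X]) (a b : ℤ) (T : Finset Nat.Primes) (N : ℕ) (k : ℤ) : Prop :=
  ∀ (t y z : (p : Nat.Primes) → ℚ_[(p : ℕ)]) (tr yr zr : ℝ),
    (∀ p ∈ T, OnW f a b k (t p) (y p) (z p) ∧ ‖t p‖ ≤ ((p : ℕ) : ℝ) ^ N ∧ ‖y p‖ ≤ ((p : ℕ) : ℝ) ^ N ∧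
      ‖z p‖ ≤ ((p : ℕ) : ℝ) ^ N ∧ (((p : ℕ) : ℝ) ^ N)⁻¹ ≤ ‖t p‖ ∧
      (((p : ℕ) : ℝ) ^ N)⁻¹ ≤ ‖aeval (t p) f + (k : ℚ_[(p : ℕ)])‖) →
    OnW f a b k tr yr zr →
    (Odd f.natDegree ∨ Even (#(T.filter (fun p : Nat.Primes => ¬ Splits (a : ℚ_[(p : ℕ)]) (t p))) + (if a < 0 ∧ tr < 0 then 1 else 0))) →
    ∃ s Y Z : ℚ, OnW f a b k s Y Z ∧ 0 < (s : ℝ) * tr ∧
      ∀ p ∈ T, ‖(s : ℚ_[(p : ℕ)]) - t p‖ ≤ (((p : ℕ) : ℝ) ^ N)⁻¹ ∧
        ‖(Y : ℚ_[(p : ℕ)]) - y p‖ ≤ (((p : ℕ) : ℝ) ^ N)⁻¹ ∧ ‖(Z : ℚ_[(p : ℕ)]) - z p‖ ≤ (((p : ℕ) : ℝ) ^ N)⁻¹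

lemma comp_aeval_sq {F : Type} [Field F] (f : ℤ[X]) (c : ℤ) (v : F) :
    aeval v (f.comp (C c * X ^ 2)) = aeval ((c : F) * v ^ 2) f := by
  rw [aeval_comp]
  simp

lemma comp_sq_natDegree (f : ℤ[X]) (c : ℤ) (hc : c ≠ 0) : (f.comp (C c * X ^ 2)).natDegree = 2 * f.natDegree := by
  rw [natDegree_comp, natDegree_C_mul_X_pow 2 c hc, mul_comm]

lemma comp_sq_lead (f : ℤ[X]) (c : ℤ) (hc : c ≠ 0) : (f.comp (C c * X ^ 2)).leadingCoeff = f.leadingCoeff * c ^ f.natDegree := by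
  rw [leadingCoeff_comp (by rw [natDegree_C_mul_X_pow 2 c hc]; norm_num), leadingCoeff_C_mul_X_pow]

/-- the theorem for one residue class and one sign -/
lemma idx (f : ℤ[X]) (hd : 1 ≤ f.natDegree) (a b : ℤ) (ha : a ≠ 0) (hb : b ≠ 0) (T : Finset Nat.Primes)
    (hT : ∀ p : Nat.Primes, ((p : ℕ) ≤ 2 * f.natDegree ∨ ((p : ℕ) : ℤ) ∣ f.leadingCoeff ∨ ((p : ℕ) : ℤ) ∣ a ∨ ((p : ℕ) : ℤ) ∣ b) → p ∈ T)
    (N' E U u0 : ℕ) (σ : ℤ) (hσ : σ = 1 ∨ σ = -1) (hu : ∀ p ∈ T, ¬ (((p : ℕ) ^ E : ℕ) : ℤ) ∣ (u0 : ℤ)) :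
    ∃ (c : ℤ) (l : Nat.Primes) (N1 X1 : ℕ), N' ≤ N1 ∧ l ∉ T ∧ c ≠ 0 ∧ 0 < σ * c ∧ ((∏ p ∈ T, (p : ℕ) ^ E : ℕ) : ℤ) ∣ c - u0 ∧
      (∀ p : Nat.Primes, ((p : ℕ) : ℤ) ∣ c → p ∈ T ∨ p = l) ∧
      (∀ k : ℤ, (Odd f.natDegree ∨ Splits (a : ℚ_[(l : ℕ)]) (c : ℚ_[(l : ℕ)])) → ∃ v : ℚ_[(l : ℕ)], ‖v‖ ≤ ((l : ℕ) : ℝ) ^ N1 ∧
        (((l : ℕ) : ℝ) ^ N1)⁻¹ ≤ ‖aeval v (f.comp (C c * X ^ 2)) + (k : ℚ_[(l : ℕ)])‖ ∧
        Splits (a : ℚ_[(l : ℕ)]) (((b * c : ℤ) : ℚ_[(l : ℕ)]) * (aeval v (f.comp (C c * X ^ 2)) + (k : ℚ_[(l : ℕ)])))) ∧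
      ∀ X : ℕ, X1 ≤ X → ∃ Bad : Finset ℤ, (#Bad : ℝ) ≤ X / Real.log X ^ U ∧ ∀ k : ℤ, |k| ≤ X → k ∉ Bad →
        (∃ r : ℝ, aeval r (f.comp (C c * Polynomial.X ^ 2)) + (k : ℝ) ≠ 0 ∧ ∀ z ∈ ({(a, b * c)} : Finset (ℤ × ℤ)), z.1 < 0 →
          0 < (z.2 : ℝ) * (aeval r (f.comp (C c * Polynomial.X ^ 2)) + k)) →
        ∀ v : (p : Nat.Primes) → ℚ_[(p : ℕ)], Loc (f.comp (C c * Polynomial.X ^ 2)) {(a, b * c)} (insert l T) N1 k v →
          Glob (f.comp (C c * Polynomial.X ^ 2)) {(a, b * c)} (insert l T) N1 k v := by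
  classical
  have hf0 : f.leadingCoeff ≠ 0 := by
    rw [Ne, leadingCoeff_eq_zero]
    rintro rfl
    simp at hd
  obtain ⟨c, l, hl, hc, hσc, hMc, hcT⟩ := exists_c T E (∑ p ∈ T, (p : ℕ)) _ u0 rfl σ hσ hu
  have hlT : l ∉ T := by
    intro h
    have := single_le_sum (f := fun p : Nat.Primes => (p : ℕ)) (fun _ _ => Nat.zero_le _) h
    omega
  have hnot : ¬ ((l : ℕ) ≤ 2 * f.natDegree ∨ ((l : ℕ) : ℤ) ∣ f.leadingCoeff ∨ ((l : ℕ) : ℤ) ∣ a ∨ ((l : ℕ) : ℤ) ∣ b) :=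
    fun h => hlT (hT l h)
  rw [not_or, not_or, not_or] at hnot
  obtain ⟨hl1, hl2, hl3, hl4⟩ := hnot
  have hlne2 : (l : ℕ) ≠ 2 := by omega
  have hlbf : ¬ ((l : ℕ) : ℤ) ∣ b * f.leadingCoeff := by
    intro h
    rcases (Nat.prime_iff_prime_int.1 l.2).dvd_or_dvd h with h | h
    · exact hl4 h
    · exact hl2 h
  obtain ⟨N0, hN0⟩ := aux_pt f hd a b c ha hb hc l hlne2 hl3 hlbf
  have hBT : BigT (f.comp (C c * X ^ 2)) {(a, b * c)} (insert l T) := by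
    intro p hp
    rw [comp_sq_natDegree f c hc, comp_sq_lead f c hc] at hp
    have hpp := Nat.prime_iff_prime_int.1 p.2
    have hcc : ((p : ℕ) : ℤ) ∣ c → p ∈ insert l T := by
      intro h
      rw [mem_insert]
      exact (hcT p h).symm
    rcases hp with h | h | ⟨z, hz, h⟩
    · exact mem_insert_of_mem (hT p (Or.inl h))
    · rcases hpp.dvd_or_dvd h with h | h
      · exact mem_insert_of_mem (hT p (Or.inr (Or.inl h)))
      · exact hcc (hpp.dvd_of_dvd_pow h)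
    · rw [mem_singleton] at hz
      rw [hz] at h
      simp only at h
      rcases h with h | h
      · exact mem_insert_of_mem (hT p (Or.inr (Or.inr (Or.inl h))))
      · rcases hpp.dvd_or_dvd h with h | h
        · exact mem_insert_of_mem (hT p (Or.inr (Or.inr (Or.inr h))))
        · exact hcc h
  have hA : ∀ z ∈ ({(a, b * c)} : Finset (ℤ × ℤ)), z.1 ≠ 0 ∧ z.2 ≠ 0 := by
    intro z hz
    rw [mem_singleton] at hz
    rw [hz]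
    exact ⟨ha, mul_ne_zero hb hc⟩
  obtain ⟨X1, hX1⟩ := thm2 (f.comp (C c * X ^ 2)) (by rw [comp_sq_natDegree f c hc]; omega) {(a, b * c)} hA (insert l T) hBT (max N' N0) U
  refine ⟨c, l, max N' N0, X1, le_max_left _ _, hlT, hc, hσc, hMc, hcT, fun k hk => ?_, hX1⟩
  obtain ⟨v, h1, h2, h3⟩ := hN0 k hk
  have hppos : (0 : ℝ) < ((l : ℕ) : ℝ) := p_pos (p := (l : ℕ))
  have hp1 : (1 : ℝ) < ((l : ℕ) : ℝ) := one_lt_p (p := (l : ℕ))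
  refine ⟨v, h1.trans (pow_le_pow_right₀ hp1.le (le_max_right _ _)), le_trans ?_ h2, h3⟩
  exact inv_anti₀ (by positivity) (pow_le_pow_right₀ hp1.le (le_max_right _ _))

open Classical in
theorem thmB (f : ℤ[X]) (hd : 1 ≤ f.natDegree) (a b : ℤ) (ha : a ≠ 0) (hb : b ≠ 0) (T : Finset Nat.Primes)
    (hT : ∀ p : Nat.Primes, ((p : ℕ) ≤ 2 * f.natDegree ∨ ((p : ℕ) : ℤ) ∣ f.leadingCoeff ∨ ((p : ℕ) : ℤ) ∣ a ∨ ((p : ℕ) : ℤ) ∣ b) → p ∈ T)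
    (N U : ℕ) : ∃ X0 : ℕ, ∀ X : ℕ, X0 ≤ X →
      (#((Icc (-(X : ℤ)) X).filter (fun k => ¬ WB f a b T N k)) : ℝ) ≤ X / Real.log X ^ U := by
  obtain ⟨d, hdd⟩ : ∃ d, d = f.natDegree := ⟨_, rfl⟩
  obtain ⟨N4, hN4⟩ : ∃ N4, N4 = (2 * (d + 1) + 3) * (2 * N) + 3 := ⟨_, rfl⟩
  obtain ⟨N', hN'⟩ : ∃ N', N' = N4 + N + 1 := ⟨_, rfl⟩
  obtain ⟨E, hE⟩ : ∃ E, E = 3 * N + 3 := ⟨_, rfl⟩
  obtain ⟨D, hD⟩ : ∃ D, D = ∏ p ∈ T, (p : ℕ) ^ N := ⟨_, rfl⟩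
  obtain ⟨D2, hD2⟩ : ∃ D2, D2 = ∏ p ∈ T, (p : ℕ) ^ (2 * N) := ⟨_, rfl⟩
  obtain ⟨M, hM⟩ : ∃ M, M = ∏ p ∈ T, (p : ℕ) ^ E := ⟨_, rfl⟩
  have hDD : D2 = D ^ 2 := by
    rw [hD2, hD, ← prod_pow]
    apply prod_congr rfl
    intro p _
    rw [← pow_mul, mul_comm]
  have hD0 : D ≠ 0 := by rw [hD]; exact prod_ne_zero_iff.2 fun p _ => pow_ne_zero _ p.2.ne_zero
  obtain ⟨I, hI⟩ : ∃ I : Finset (ℕ × ℤ), I = range M ×ˢ ({1, -1} : Finset ℤ) := ⟨_, rfl⟩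
  have hIσ : ∀ i ∈ I, i.2 = 1 ∨ i.2 = -1 := by
    intro i hi
    rw [hI, mem_product, mem_insert, mem_singleton] at hi
    exact hi.2
  have hex : ∀ i : ℕ × ℤ, ∃ (c : ℤ) (l : Nat.Primes) (N1 X1 : ℕ), i ∈ I → (∀ p ∈ T, ¬ (((p : ℕ) ^ E : ℕ) : ℤ) ∣ (i.1 : ℤ)) →
      N' ≤ N1 ∧ l ∉ T ∧ c ≠ 0 ∧ 0 < i.2 * c ∧ ((∏ p ∈ T, (p : ℕ) ^ E : ℕ) : ℤ) ∣ c - i.1 ∧
      (∀ p : Nat.Primes, ((p : ℕ) : ℤ) ∣ c → p ∈ T ∨ p = l) ∧
      (∀ k : ℤ, (Odd f.natDegree ∨ Splits (a : ℚ_[(l : ℕ)]) (c : ℚ_[(l : ℕ)])) → ∃ v : ℚ_[(l : ℕ)], ‖v‖ ≤ ((l : ℕ) : ℝ) ^ N1 ∧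
        (((l : ℕ) : ℝ) ^ N1)⁻¹ ≤ ‖aeval v (f.comp (C c * X ^ 2)) + (k : ℚ_[(l : ℕ)])‖ ∧
        Splits (a : ℚ_[(l : ℕ)]) (((b * c : ℤ) : ℚ_[(l : ℕ)]) * (aeval v (f.comp (C c * X ^ 2)) + (k : ℚ_[(l : ℕ)])))) ∧
      ∀ X : ℕ, X1 ≤ X → ∃ Bad : Finset ℤ, (#Bad : ℝ) ≤ X / Real.log X ^ (U + 1) ∧ ∀ k : ℤ, |k| ≤ X → k ∉ Bad →
        (∃ r : ℝ, aeval r (f.comp (C c * Polynomial.X ^ 2)) + (k : ℝ) ≠ 0 ∧ ∀ z ∈ ({(a, b * c)} : Finset (ℤ × ℤ)), z.1 < 0 →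
          0 < (z.2 : ℝ) * (aeval r (f.comp (C c * Polynomial.X ^ 2)) + k)) →
        ∀ v : (p : Nat.Primes) → ℚ_[(p : ℕ)], Loc (f.comp (C c * Polynomial.X ^ 2)) {(a, b * c)} (insert l T) N1 k v →
          Glob (f.comp (C c * Polynomial.X ^ 2)) {(a, b * c)} (insert l T) N1 k v := by
    intro i
    by_cases hi : i ∈ I ∧ (∀ p ∈ T, ¬ (((p : ℕ) ^ E : ℕ) : ℤ) ∣ (i.1 : ℤ))
    · obtain ⟨c, l, N1, X1, h⟩ := idx f hd a b ha hb T hT N' E (U + 1) i.1 i.2 (hIσ i hi.1) hi.2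
      exact ⟨c, l, N1, X1, fun _ _ => h⟩
    · exact ⟨0, ⟨2, Nat.prime_two⟩, 0, 0, fun h1 h2 => absurd ⟨h1, h2⟩ hi⟩
  choose c l N1 X1 hmain using hex
  obtain ⟨cI, hcI⟩ : ∃ cI : ℕ, cI = #I := ⟨_, rfl⟩
  obtain ⟨X2, hX2⟩ := eventually_atTop.1 (evt_log_ge ((cI : ℝ) + 1))
  refine ⟨max (∑ i ∈ I, X1 i) X2, fun X hX => ?_⟩
  have hXa : ∀ i ∈ I, X1 i ≤ X := fun i hi =>
    (single_le_sum (fun _ _ => Nat.zero_le _) hi).trans ((le_max_left _ _).trans hX)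
  have hL := hX2 X ((le_max_right _ _).trans hX)
  obtain ⟨L, hLd⟩ : ∃ L, L = Real.log X := ⟨_, rfl⟩
  rw [← hLd] at hL
  have hL0 : 0 < L := by
    have : (0 : ℝ) ≤ cI := Nat.cast_nonneg _
    linarith
  have hbad : ∀ i : ℕ × ℤ, ∃ Bad : Finset ℤ, (#Bad : ℝ) ≤ X / Real.log X ^ (U + 1) ∧ (i ∈ I → (∀ p ∈ T, ¬ (((p : ℕ) ^ E : ℕ) : ℤ) ∣ (i.1 : ℤ)) →
      ∀ k : ℤ, |k| ≤ X → k ∉ Bad →
        (∃ r : ℝ, aeval r (f.comp (C (c i) * Polynomial.X ^ 2)) + (k : ℝ) ≠ 0 ∧ ∀ z ∈ ({(a, b * c i)} : Finset (ℤ × ℤ)), z.1 < 0 →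
          0 < (z.2 : ℝ) * (aeval r (f.comp (C (c i) * Polynomial.X ^ 2)) + k)) →
        ∀ v : (p : Nat.Primes) → ℚ_[(p : ℕ)], Loc (f.comp (C (c i) * Polynomial.X ^ 2)) {(a, b * c i)} (insert (l i) T) (N1 i) k v →
          Glob (f.comp (C (c i) * Polynomial.X ^ 2)) {(a, b * c i)} (insert (l i) T) (N1 i) k v) := by
    intro i
    by_cases hi : i ∈ I ∧ (∀ p ∈ T, ¬ (((p : ℕ) ^ E : ℕ) : ℤ) ∣ (i.1 : ℤ))
    · obtain ⟨-, -, -, -, -, -, -, h⟩ := hmain i hi.1 hi.2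
      obtain ⟨B, hB1, hB2⟩ := h X (hXa i hi.1)
      exact ⟨B, hB1, fun _ _ => hB2⟩
    · refine ⟨∅, ?_, fun h1 h2 => absurd ⟨h1, h2⟩ hi⟩
      rw [card_empty, Nat.cast_zero, ← hLd]
      positivity
  choose B hB1 hB2 using hbad
  have hsub : (Icc (-(X : ℤ)) X).filter (fun k => ¬ WB f a b T N k) ⊆ I.biUnion B := by
    intro k hk
    rw [mem_filter, mem_Icc] at hk
    by_contra hkB
    apply hk.2
    rw [mem_biUnion] at hkB
    push Not at hkB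
    intro t y z tr yr zr hloc hre hpar
    have hppos : ∀ p : Nat.Primes, (0 : ℝ) < ((p : ℕ) : ℝ) := fun p => p_pos (p := (p : ℕ))
    have hp1 : ∀ p : Nat.Primes, (1 : ℝ) < ((p : ℕ) : ℝ) := fun p => one_lt_p (p := (p : ℕ))
    -- the residue class
    obtain ⟨u0, hu0M, hu0⟩ := exists_u0 T (2 * N) E D2 M t (fun p hp => ((hloc p hp).2.1).trans
      (pow_le_pow_right₀ (hp1 p).le (by omega))) hD2 hM
    have hD2n : ∀ p ∈ T, ‖(D2 : ℚ_[(p : ℕ)])‖ = (((p : ℕ) : ℝ) ^ (2 * N))⁻¹ := by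
      intro p hp
      rw [hD2]
      exact norm_D T (2 * N) p hp
    have hwn : ∀ p ∈ T, (((p : ℕ) : ℝ) ^ (3 * N))⁻¹ ≤ ‖(D2 : ℚ_[(p : ℕ)]) * t p‖ := by
      intro p hp
      have := hppos p
      rw [norm_mul, hD2n p hp]
      calc (((p : ℕ) : ℝ) ^ (3 * N))⁻¹ = (((p : ℕ) : ℝ) ^ (2 * N))⁻¹ * (((p : ℕ) : ℝ) ^ N)⁻¹ := by
            rw [← mul_inv, ← pow_add]
            congr 2
            ring
        _ ≤ _ := mul_le_mul_of_nonneg_left (hloc p hp).2.2.2.2.1 (by positivity)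
    have hElt : ∀ p ∈ T, (((p : ℕ) : ℝ) ^ E)⁻¹ < ‖(4 : ℚ_[(p : ℕ)])‖ * ‖(D2 : ℚ_[(p : ℕ)]) * t p‖ := by
      intro p hp
      have := hppos p
      calc (((p : ℕ) : ℝ) ^ E)⁻¹ = (((p : ℕ) : ℝ) ^ 3)⁻¹ * (((p : ℕ) : ℝ) ^ (3 * N))⁻¹ := by
            rw [hE, pow_add, mul_inv, mul_comm]
        _ < ‖(4 : ℚ_[(p : ℕ)])‖ * (((p : ℕ) : ℝ) ^ (3 * N))⁻¹ :=
            mul_lt_mul_of_pos_right (norm_four_gt p) (by positivity)
        _ ≤ _ := mul_le_mul_of_nonneg_left (hwn p hp) (norm_nonneg _)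
    have hElt' : ∀ p ∈ T, (((p : ℕ) : ℝ) ^ E)⁻¹ < ‖(D2 : ℚ_[(p : ℕ)]) * t p‖ := fun p hp =>
      (hElt p hp).trans_le (mul_le_of_le_one_left (norm_nonneg _) four_norm_le)
    have hu : ∀ p ∈ T, ¬ (((p : ℕ) ^ E : ℕ) : ℤ) ∣ (u0 : ℤ) := by
      intro p hp hdiv
      have h1 := (Padic.norm_int_le_pow_iff_dvd (p := (p : ℕ)) (u0 : ℤ) E).2 (by exact_mod_cast hdiv)
      rw [inv_zpow] at h1
      have h2 := hu0 0 p hp
      rw [mul_zero, add_zero] at h2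
      have h3 := norm_eq_of_near _ _ (h2.trans_lt (hElt' p hp))
      rw [h3] at h1
      exact absurd h1 (not_le.2 (hElt' p hp))
    -- the sign
    obtain ⟨htr0, hfr0, hyzr⟩ := hre
    obtain ⟨σ, hσ, hσt⟩ : ∃ σ : ℤ, (σ = 1 ∨ σ = -1) ∧ 0 < (σ : ℝ) * tr := by
      rcases lt_or_gt_of_ne htr0 with h | h
      · exact ⟨-1, Or.inr rfl, by push_cast; linarith⟩
      · exact ⟨1, Or.inl rfl, by push_cast; linarith⟩
    have hiI : (u0, σ) ∈ I := by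
      rw [hI, mem_product, mem_insert, mem_singleton]
      exact ⟨mem_range.2 hu0M, hσ⟩
    obtain ⟨hN1, hlT, hc0, hσc, hMc, hcT, haux, -⟩ := hmain (u0, σ) hiI hu
    have hB := hB2 (u0, σ) hiI hu k (abs_le.2 hk.1) (hkB (u0, σ) hiI)
    obtain ⟨c', hc'⟩ : ∃ c', c' = c (u0, σ) := ⟨_, rfl⟩
    obtain ⟨l', hl'⟩ : ∃ l', l' = l (u0, σ) := ⟨_, rfl⟩
    obtain ⟨N1', hN1'⟩ : ∃ N1', N1' = N1 (u0, σ) := ⟨_, rfl⟩
    rw [← hc'] at hc0 hσc hMc hcT haux hB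
    rw [← hl'] at hlT hcT haux hB
    rw [← hN1'] at hN1 haux hB
    simp only at hσc hMc
    have hctr : 0 < (c' : ℝ) * tr := by
      have h1 : (0 : ℝ) < (σ : ℝ) * c' := by exact_mod_cast hσc
      have h2 : (σ : ℝ) * σ = 1 := by rcases hσ with h | h <;> rw [h] <;> norm_num
      have h3 := mul_pos h1 hσt
      have e : (σ : ℝ) * c' * (σ * tr) = (σ * σ) * (c' * tr) := by ring
      rw [e, h2, one_mul] at h3
      exact h3
    -- `c` is close to `D ^ 2 t_p`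
    have hcw : ∀ p ∈ T, ‖(c' : ℚ_[(p : ℕ)]) - (D2 : ℚ_[(p : ℕ)]) * t p‖ ≤ (((p : ℕ) : ℝ) ^ E)⁻¹ := by
      intro p hp
      obtain ⟨w, hw⟩ := hMc
      rw [← hM] at hw
      have h1 := hu0 w p hp
      have e : (c' : ℤ) = (u0 : ℤ) + (M : ℤ) * w := by linarith
      rw [e]
      exact h1
    have hcs : ∀ p : Nat.Primes, ∃ s : ℚ_[(p : ℕ)], p ∈ T → s ≠ 0 ∧ (c' : ℚ_[(p : ℕ)]) = (D2 : ℚ_[(p : ℕ)]) * t p * s ^ 2 ∧ ‖s‖ = 1 := by
      intro p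
      by_cases hp : p ∈ T
      · have hw0 : (D2 : ℚ_[(p : ℕ)]) * t p ≠ 0 := by
          have := hppos p
          have h1 := hwn p hp
          intro h
          rw [h, norm_zero] at h1
          have : (0 : ℝ) < (((p : ℕ) : ℝ) ^ (3 * N))⁻¹ := by positivity
          linarith
        obtain ⟨s, hs, hs2⟩ := sq_near _ _ hw0 ((hcw p hp).trans_lt (hElt p hp))
        refine ⟨s, fun _ => ⟨hs, hs2, ?_⟩⟩
        have h3 := norm_eq_of_near _ _ ((hcw p hp).trans_lt (hElt' p hp))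
        rw [hs2, norm_mul, norm_pow] at h3
        have h4 : ‖s‖ ^ 2 = 1 := by
          have h5 : ‖(D2 : ℚ_[(p : ℕ)]) * t p‖ * ‖s‖ ^ 2 = ‖(D2 : ℚ_[(p : ℕ)]) * t p‖ * 1 := by rw [h3, mul_one]
          exact mul_left_cancel₀ (norm_ne_zero_iff.2 hw0) h5
        exact (pow_eq_one_iff_of_nonneg (norm_nonneg s) two_ne_zero).1 h4
      · exact ⟨0, fun h => absurd h hp⟩
    choose s hs using hcs
    have hDF : ∀ p : Nat.Primes, (D : ℚ_[(p : ℕ)]) ≠ 0 := fun p => by exact_mod_cast hD0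
    have hDn : ∀ p ∈ T, ‖(D : ℚ_[(p : ℕ)])‖ = (((p : ℕ) : ℝ) ^ N)⁻¹ := by
      intro p hp
      rw [hD]
      exact norm_D T N p hp
    -- `t_p = c v_p ^ 2`
    have htv : ∀ p ∈ T, (c' : ℚ_[(p : ℕ)]) * (((D : ℚ_[(p : ℕ)]) * s p)⁻¹) ^ 2 = t p := by
      intro p hp
      obtain ⟨h1, h2, -⟩ := hs p hp
      rw [h2, hDD]
      have := hDF p
      push_cast
      field_simp
    have hvn : ∀ p ∈ T, ‖((D : ℚ_[(p : ℕ)]) * s p)⁻¹‖ = ((p : ℕ) : ℝ) ^ N := by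
      intro p hp
      rw [norm_inv, norm_mul, (hs p hp).2.2, mul_one, hDn p hp, inv_inv]
    -- the symbols
    have hsym : ∀ p ∈ T, (Splits (a : ℚ_[(p : ℕ)]) (c' : ℚ_[(p : ℕ)]) ↔ Splits (a : ℚ_[(p : ℕ)]) (t p)) := by
      intro p hp
      obtain ⟨h1, h2, -⟩ := hs p hp
      have e : (c' : ℚ_[(p : ℕ)]) = t p * ((D : ℚ_[(p : ℕ)]) * s p) ^ 2 := by
        rw [h2, hDD]
        push_cast
        ring
      rw [e, splits_comm, splits_mul_sq (mul_ne_zero (hDF p) h1), splits_comm]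
    have h2T : ∀ p : Nat.Primes, (p : ℕ) = 2 → p ∈ T := fun p hp => hT p (Or.inl (by omega))
    have hcase : Odd f.natDegree ∨ Splits (a : ℚ_[(l' : ℕ)]) (c' : ℚ_[(l' : ℕ)]) := by
      rcases hpar with h | h
      · exact Or.inl h
      · exact Or.inr (parity a c' ha hc0 T l' hlT h2T (fun p hp => hT p (Or.inr (Or.inr (Or.inl hp)))) hcT t hsym tr hctr h)
    obtain ⟨vl, hvl1, hvl2, hvl3⟩ := haux k hcase
    -- the family
    have hfam : ∀ p : Nat.Primes, ∃ v : ℚ_[(p : ℕ)], (p ∈ T → v = ((D : ℚ_[(p : ℕ)]) * s p)⁻¹) ∧ (p ∈ insert l' T →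
        ‖v‖ ≤ ((p : ℕ) : ℝ) ^ N1' ∧ (((p : ℕ) : ℝ) ^ N1')⁻¹ ≤ ‖aeval v (f.comp (C c' * Polynomial.X ^ 2)) + (k : ℚ_[(p : ℕ)])‖ ∧
        ∀ z ∈ ({(a, b * c')} : Finset (ℤ × ℤ)), Splits (z.1 : ℚ_[(p : ℕ)]) (z.2 * (aeval v (f.comp (C c' * Polynomial.X ^ 2)) + k))) := by
      intro p
      by_cases hp : p ∈ T
      · refine ⟨((D : ℚ_[(p : ℕ)]) * s p)⁻¹, fun _ => rfl, fun _ => ⟨?_, ?_, ?_⟩⟩
        · rw [hvn p hp]
          exact pow_le_pow_right₀ (hp1 p).le (by omega)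
        · rw [comp_aeval_sq, htv p hp]
          have := hppos p
          refine le_trans ?_ (hloc p hp).2.2.2.2.2
          exact inv_anti₀ (by positivity) (pow_le_pow_right₀ (hp1 p).le (by omega))
        · intro w hw
          rw [mem_singleton] at hw
          rw [hw]
          simp only
          rw [comp_aeval_sq, htv p hp]
          obtain ⟨h1, h2, h3⟩ := (hloc p hp).1
          have h4 : Splits (a : ℚ_[(p : ℕ)]) ((b : ℚ_[(p : ℕ)]) * (t p * (aeval (t p) f + (k : ℚ_[(p : ℕ)])))) := by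
            rw [← conic_iff _ _ (by exact_mod_cast ha) (mul_ne_zero (by exact_mod_cast hb) (mul_ne_zero h1 h2))]
            exact ⟨y p, z p, h3⟩
          have hs0 := (hs p hp).1
          have e : (b : ℚ_[(p : ℕ)]) * (t p * (aeval (t p) f + (k : ℚ_[(p : ℕ)]))) =
              (((b * c' : ℤ) : ℚ_[(p : ℕ)]) * (aeval (t p) f + (k : ℚ_[(p : ℕ)]))) * (((D : ℚ_[(p : ℕ)]) * s p)⁻¹) ^ 2 := by
            have h5 := htv p hp
            push_cast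
            linear_combination (-(b : ℚ_[(p : ℕ)]) * (aeval (t p) f + (k : ℚ_[(p : ℕ)]))) * h5
          rw [e] at h4
          exact splits_swap ((splits_mul_sq (inv_ne_zero (mul_ne_zero (hDF p) hs0))).1 (splits_swap h4))
      · by_cases hp2 : p = l'
        · subst hp2
          refine ⟨vl, fun h => absurd h hp, fun _ => ⟨hvl1, hvl2, ?_⟩⟩
          intro w hw
          rw [mem_singleton] at hw
          rw [hw]
          exact hvl3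
        · refine ⟨0, fun h => absurd h hp, fun h => ?_⟩
          rw [mem_insert] at h
          rcases h with h | h
          · exact absurd h hp2
          · exact absurd h hp
    choose v hv1 hv2 using hfam
    -- the real place
    have hreal : ∃ r : ℝ, aeval r (f.comp (C c' * Polynomial.X ^ 2)) + (k : ℝ) ≠ 0 ∧ ∀ z ∈ ({(a, b * c')} : Finset (ℤ × ℤ)), z.1 < 0 →
          0 < (z.2 : ℝ) * (aeval r (f.comp (C c' * Polynomial.X ^ 2)) + k) := by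
      have hcr : (c' : ℝ) ≠ 0 := by exact_mod_cast hc0
      have hq : 0 ≤ tr / c' := by
        have : tr / c' = (c' * tr) / (c' : ℝ) ^ 2 := by field_simp
        rw [this]
        positivity
      have hr : (c' : ℝ) * (√(tr / c')) ^ 2 = tr := by
        rw [Real.sq_sqrt hq]
        field_simp
      refine ⟨√(tr / c'), ?_, fun w hw hw1 => ?_⟩
      · rw [comp_aeval_sq, hr]
        exact hfr0
      · rw [mem_singleton] at hw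
        rw [hw] at hw1 ⊢
        simp only at hw1 ⊢
        rw [comp_aeval_sq, hr]
        have h1 : (b : ℝ) * (tr * (aeval tr f + (k : ℝ))) ≠ 0 := mul_ne_zero (by exact_mod_cast hb) (mul_ne_zero htr0 hfr0)
        have h2 : 0 ≤ (b : ℝ) * (tr * (aeval tr f + (k : ℝ))) := by
          rw [← hyzr]
          have h5 : (a : ℝ) < 0 := by exact_mod_cast hw1
          nlinarith [sq_nonneg yr, sq_nonneg zr]
        have h3 : 0 < (b : ℝ) * (tr * (aeval tr f + (k : ℝ))) := lt_of_le_of_ne h2 (Ne.symm h1)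
        have h4 := mul_pos h3 hctr
        have e : (b : ℝ) * (tr * (aeval tr f + (k : ℝ))) * (c' * tr) = (((b * c' : ℤ) : ℝ) * (aeval tr f + (k : ℝ))) * tr ^ 2 := by
          push_cast
          ring
        rw [e] at h4
        exact (mul_pos_iff_of_pos_right (by positivity)).1 h4
    obtain ⟨ν, hν1, hν2, hν3⟩ := hB hreal v (fun p hp => hv2 p hp)
    -- the rational point
    obtain ⟨S, hS⟩ : ∃ S : ℚ, S = (c' : ℚ) * ν ^ 2 := ⟨_, rfl⟩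
    rw [comp_aeval_sq, ← hS] at hν2
    have hν3' := hν3 (a, b * c') (mem_singleton_self _)
    simp only at hν3'
    rw [comp_aeval_sq, ← hS] at hν3'
    have hνp : ∀ p ∈ T, ‖(ν : ℚ_[(p : ℕ)]) - ((D : ℚ_[(p : ℕ)]) * s p)⁻¹‖ ≤ (((p : ℕ) : ℝ) ^ N')⁻¹ := by
      intro p hp
      have h1 := hν1 p (mem_insert_of_mem hp)
      rw [hv1 p hp] at h1
      have := hppos p
      exact h1.trans (inv_anti₀ (by positivity) (pow_le_pow_right₀ (hp1 p).le hN1))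
    have hν0 : ν ≠ 0 := by
      rintro rfl
      obtain ⟨p2, hp2⟩ : ∃ p2 : Nat.Primes, (p2 : ℕ) = 2 := ⟨⟨2, Nat.prime_two⟩, rfl⟩
      have hp2T := h2T p2 hp2
      have h1 := hνp p2 hp2T
      rw [Rat.cast_zero, zero_sub, norm_neg, hvn p2 hp2T] at h1
      have h2 : (1 : ℝ) ≤ ((p2 : ℕ) : ℝ) ^ N := one_le_pow₀ (hp1 p2).le
      have h3 : (((p2 : ℕ) : ℝ) ^ N')⁻¹ < 1 := by
        apply inv_lt_one_of_one_lt₀
        exact one_lt_pow₀ (hp1 p2) (by omega)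
      linarith
    have hcQ : (c' : ℚ) ≠ 0 := by exact_mod_cast hc0
    have hS0 : S ≠ 0 := by rw [hS]; exact mul_ne_zero hcQ (pow_ne_zero 2 hν0)
    have hSt : ∀ p ∈ T, ‖(S : ℚ_[(p : ℕ)]) - t p‖ ≤ (((p : ℕ) : ℝ) ^ N4)⁻¹ := by
      intro p hp
      have hpos := hppos p
      have e : (S : ℚ_[(p : ℕ)]) - t p = (c' : ℚ_[(p : ℕ)]) * (((ν : ℚ_[(p : ℕ)]) - ((D : ℚ_[(p : ℕ)]) * s p)⁻¹) *
          ((ν : ℚ_[(p : ℕ)]) - ((D : ℚ_[(p : ℕ)]) * s p)⁻¹ + 2 * ((D : ℚ_[(p : ℕ)]) * s p)⁻¹)) := by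
        have h5 := htv p hp
        rw [hS]
        push_cast
        linear_combination h5
      have h1 : ‖(ν : ℚ_[(p : ℕ)]) - ((D : ℚ_[(p : ℕ)]) * s p)⁻¹ + 2 * ((D : ℚ_[(p : ℕ)]) * s p)⁻¹‖ ≤ ((p : ℕ) : ℝ) ^ N := by
        refine (Padic.nonarchimedean _ _).trans (max_le ?_ ?_)
        · refine (hνp p hp).trans ((inv_le_one_of_one_le₀ (one_le_pow₀ (hp1 p).le)).trans (one_le_pow₀ (hp1 p).le))
        · rw [norm_mul, hvn p hp]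
          exact mul_le_of_le_one_left (by positivity) two_norm_le
      rw [e, norm_mul, norm_mul]
      calc ‖(c' : ℚ_[(p : ℕ)])‖ * (‖(ν : ℚ_[(p : ℕ)]) - ((D : ℚ_[(p : ℕ)]) * s p)⁻¹‖ *
            ‖(ν : ℚ_[(p : ℕ)]) - ((D : ℚ_[(p : ℕ)]) * s p)⁻¹ + 2 * ((D : ℚ_[(p : ℕ)]) * s p)⁻¹‖)
          ≤ 1 * ((((p : ℕ) : ℝ) ^ N')⁻¹ * ((p : ℕ) : ℝ) ^ N) :=
            mul_le_mul (Padic.norm_int_le_one _) (mul_le_mul (hνp p hp) h1 (norm_nonneg _) (by positivity))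
              (by positivity) (by norm_num)
        _ ≤ (((p : ℕ) : ℝ) ^ N4)⁻¹ := by
            rw [one_mul, hN', pow_add, pow_add, mul_inv, mul_inv]
            have h6 : (((p : ℕ) : ℝ) ^ 1)⁻¹ ≤ 1 := inv_le_one_of_one_le₀ (one_le_pow₀ (hp1 p).le)
            calc (((p : ℕ) : ℝ) ^ N4)⁻¹ * (((p : ℕ) : ℝ) ^ N)⁻¹ * (((p : ℕ) : ℝ) ^ 1)⁻¹ * ((p : ℕ) : ℝ) ^ N
                = (((p : ℕ) : ℝ) ^ N4)⁻¹ * (((p : ℕ) : ℝ) ^ 1)⁻¹ := by field_simp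
              _ ≤ (((p : ℕ) : ℝ) ^ N4)⁻¹ := mul_le_of_le_one_right (by positivity) h6
    -- the polynomial `t (f(t) + k)`
    obtain ⟨h, hh⟩ : ∃ h : ℤ[X], h = Polynomial.X * (f + C k) := ⟨_, rfl⟩
    have hhd : h.natDegree ≤ d + 1 := by
      rw [hh, add_comm d 1]
      refine natDegree_mul_le.trans (add_le_add natDegree_X_le ?_)
      rw [natDegree_add_C, hdd]
    have hhv : ∀ (F : Type) [Field F] (w : F), aeval w h = w * (aeval w f + (k : F)) := by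
      intro F _ w
      rw [hh, map_mul, aeval_X, map_add, aeval_C, algebraMap_int_eq, eq_intCast]
    have hSplit : Splits (a : ℚ) ((b : ℚ) * (S * (aeval S f + (k : ℚ)))) := by
      have e : (b : ℚ) * (S * (aeval S f + (k : ℚ))) = (((b * c' : ℤ) : ℚ) * (aeval S f + (k : ℚ))) * ν ^ 2 := by
        have h5 := hS
        push_cast
        linear_combination ((b : ℚ) * (aeval S f + (k : ℚ))) * h5
      rw [e]
      exact splits_swap ((splits_mul_sq hν0).2 (splits_swap hν3'))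
    obtain ⟨Y, Z, hY, hYZ⟩ := glue 1 (fun _ => a) (fun _ => b) (fun _ => ha) (fun _ => hb) T (2 * N) (S * (aeval S f + (k : ℚ)))
      (mul_ne_zero hS0 hν2) (fun _ => hSplit) (fun p => t p * (aeval (t p) f + (k : ℚ_[(p : ℕ)]))) (by
        intro p hp
        have := hppos p
        rw [norm_mul]
        calc (((p : ℕ) : ℝ) ^ (2 * N))⁻¹ = (((p : ℕ) : ℝ) ^ N)⁻¹ * (((p : ℕ) : ℝ) ^ N)⁻¹ := by
              rw [← mul_inv, ← pow_add]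
              congr 2
              ring
          _ ≤ _ := mul_le_mul (hloc p hp).2.2.2.2.1 (hloc p hp).2.2.2.2.2 (by positivity) (norm_nonneg _))
      (fun p _ => y p) (fun p _ => z p)
      (fun p hp _ => ((hloc p hp).2.2.1).trans (pow_le_pow_right₀ (hp1 p).le (by omega)))
      (fun p hp _ => ((hloc p hp).2.2.2.1).trans (pow_le_pow_right₀ (hp1 p).le (by omega)))
      (fun p hp _ => (hloc p hp).1.2.2) (by
        intro p hp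
        have hpos := hppos p
        have h4 : ‖(S : ℚ_[(p : ℕ)])‖ ≤ ((p : ℕ) : ℝ) ^ (2 * N) := by
          have e : (S : ℚ_[(p : ℕ)]) = ((S : ℚ_[(p : ℕ)]) - t p) + t p := by ring
          rw [e]
          refine (Padic.nonarchimedean _ _).trans (max_le ?_ (((hloc p hp).2.1).trans (pow_le_pow_right₀ (hp1 p).le (by omega))))
          exact (hSt p hp).trans (le_trans (inv_le_one_of_one_le₀ (one_le_pow₀ (hp1 p).le)) (one_le_pow₀ (hp1 p).le))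
        have h5 := lip2 h T (2 * N) p hp (S : ℚ_[(p : ℕ)]) (t p) h4 (((hloc p hp).2.1).trans (pow_le_pow_right₀ (hp1 p).le (by omega))) (by
          refine (hSt p hp).trans (inv_anti₀ (by positivity) (pow_le_pow_right₀ (hp1 p).le ?_))
          rw [hN4]
          have : (2 * h.natDegree + 3) * (2 * N) ≤ (2 * (d + 1) + 3) * (2 * N) := Nat.mul_le_mul_right _ (by omega)
          omega)
        rw [hhv, hhv] at h5
        have e : ((S * (aeval S f + (k : ℚ)) : ℚ) : ℚ_[(p : ℕ)]) = (S : ℚ_[(p : ℕ)]) * (aeval (S : ℚ_[(p : ℕ)]) f + (k : ℚ_[(p : ℕ)])) := by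
          have e2 : ((aeval S f : ℚ) : ℚ_[(p : ℕ)]) = aeval (S : ℚ_[(p : ℕ)]) f := by
            have := aeval_algebraMap_apply ℚ_[(p : ℕ)] S f
            simp only [eq_ratCast] at this
            exact this.symm
          push_cast
          rw [e2]
        rw [e]
        exact h5)
    refine ⟨S, Y 0, Z 0, ⟨hS0, hν2, hY 0⟩, ?_, fun p hp => ?_⟩
    · rw [hS]
      push_cast
      have h1 : (0 : ℝ) < (ν : ℝ) ^ 2 := by
        have : (ν : ℝ) ≠ 0 := by exact_mod_cast hν0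
        positivity
      have h2 := mul_pos hctr h1
      linarith
    · have hpos := hppos p
      have h7 : (((p : ℕ) : ℝ) ^ (2 * N))⁻¹ ≤ (((p : ℕ) : ℝ) ^ N)⁻¹ :=
        inv_anti₀ (by positivity) (pow_le_pow_right₀ (hp1 p).le (by omega))
      refine ⟨(hSt p hp).trans (inv_anti₀ (by positivity) (pow_le_pow_right₀ (hp1 p).le ?_)),
        ((hYZ p hp 0).1).trans h7, ((hYZ p hp 0).2).trans h7⟩
      rw [hN4]
      nlinarith
  have hcard : (#((Icc (-(X : ℤ)) X).filter (fun k => ¬ WB f a b T N k)) : ℝ) ≤ ∑ i ∈ I, (#(B i) : ℝ) := by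
    have := (card_le_card hsub).trans card_biUnion_le
    exact_mod_cast this
  refine hcard.trans ?_
  rw [← hLd] at hB1 ⊢
  calc ∑ i ∈ I, (#(B i) : ℝ) ≤ ∑ i ∈ I, (X : ℝ) / L ^ (U + 1) := sum_le_sum fun i _ => hB1 i
    _ = (cI : ℝ) * (X / L ^ (U + 1)) := by rw [sum_const, nsmul_eq_mul, hcI]
    _ ≤ L * (X / L ^ (U + 1)) := by
        apply mul_le_mul_of_nonneg_right _ (by positivity)
        linarith
    _ = X / L ^ U := by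
        rw [pow_succ]
        field_simp

end Pool.Agent.TH204.HP
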