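import Pool.Agent.TH204.HP.H16

/-!
The surfaces `y ^ 2 - a z ^ 2 = b t (f(t) + k)`: local points with the given invariant.
-/

set_option autoImplicit false

namespace Pool.Agent.TH204.HP

open Finset Polynomial Filter Topology
open Pool.Agent.TH204.WR (rho evt_log_ge evt_log_pow)
open Pool.Agent.W313.BMX (Splits splits_swap splits_comm splits_mul_sq)

/-- a local point of bounded height, not too near to the degenerate fibres -/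
def LocC (f : ℤ[X]) (a b k : ℤ) (N : ℕ) (p : Nat.Primes) (t y z : ℚ_[(p : ℕ)]) : Prop :=
  OnW f a b k t y z ∧ ‖t‖ ≤ ((p : ℕ) : ℝ) ^ N ∧ ‖y‖ ≤ ((p : ℕ) : ℝ) ^ N ∧ ‖z‖ ≤ ((p : ℕ) : ℝ) ^ N ∧
    (((p : ℕ) : ℝ) ^ N)⁻¹ ≤ ‖t‖ ∧ (((p : ℕ) : ℝ) ^ N)⁻¹ ≤ ‖aeval t f + (k : ℚ_[(p : ℕ)])‖

lemma LocC.mono {f : ℤ[X]} {a b k : ℤ} {N N' : ℕ} {p : Nat.Primes} {t y z : ℚ_[(p : ℕ)]} (h : LocC f a b k N p t y z)
    (hN : N ≤ N') : LocC f a b k N' p t y z := by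
  obtain ⟨h1, h2, h3, h4, h5, h6⟩ := h
  have hp1 : (1 : ℝ) < ((p : ℕ) : ℝ) := one_lt_p (p := (p : ℕ))
  have hp0 : (0 : ℝ) < ((p : ℕ) : ℝ) := p_pos (p := (p : ℕ))
  have h7 : ((p : ℕ) : ℝ) ^ N ≤ ((p : ℕ) : ℝ) ^ N' := pow_le_pow_right₀ hp1.le hN
  have h8 : (((p : ℕ) : ℝ) ^ N')⁻¹ ≤ (((p : ℕ) : ℝ) ^ N)⁻¹ := inv_anti₀ (by positivity) h7
  exact ⟨h1, h2.trans h7, h3.trans h7, h4.trans h7, h8.trans h5, h8.trans h6⟩

/-- approximation without a condition on the invariants -/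
def WC (f : ℤ[X]) (a b : ℤ) (T : Finset Nat.Primes) (N : ℕ) (k : ℤ) : Prop :=
  ∀ (t y z : (p : Nat.Primes) → ℚ_[(p : ℕ)]) (tr yr zr : ℝ),
    (∀ p ∈ T, LocC f a b k N p (t p) (y p) (z p)) → OnW f a b k tr yr zr →
    ∃ s Y Z : ℚ, OnW f a b k s Y Z ∧ 0 < (s : ℝ) * tr ∧
      ∀ p ∈ T, ‖(s : ℚ_[(p : ℕ)]) - t p‖ ≤ (((p : ℕ) : ℝ) ^ N)⁻¹ ∧
        ‖(Y : ℚ_[(p : ℕ)]) - y p‖ ≤ (((p : ℕ) : ℝ) ^ N)⁻¹ ∧ ‖(Z : ℚ_[(p : ℕ)]) - z p‖ ≤ (((p : ℕ) : ℝ) ^ N)⁻¹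

lemma splits_sq {F : Type} [Field F] (a s : F) : Splits a (s ^ 2) :=
  ⟨0, 1, s, Or.inr (Or.inl one_ne_zero), by ring⟩

lemma int_norm_gt (p : Nat.Primes) (c : ℤ) (n : ℕ) (h : ¬ (((p : ℕ) : ℤ)) ^ n ∣ c) :
    (((p : ℕ) : ℝ) ^ n)⁻¹ < ‖(c : ℚ_[(p : ℕ)])‖ := by
  by_contra hcon
  apply h
  have h1 : ‖(c : ℚ_[(p : ℕ)])‖ ≤ ((p : ℕ) : ℝ) ^ (-(n : ℤ)) := by
    rw [inv_zpow]
    exact not_lt.1 hcon
  exact_mod_cast (Padic.norm_int_le_pow_iff_dvd (p := (p : ℕ)) c n).1 h1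

lemma unit_norm (p : Nat.Primes) (c : ℤ) (h : ¬ (((p : ℕ) : ℤ)) ∣ c) : ‖(c : ℚ_[(p : ℕ)])‖ = 1 := by
  have h1 := Padic.norm_int_le_one (p := (p : ℕ)) c
  have h2 : ¬ ‖(c : ℚ_[(p : ℕ)])‖ < 1 := by
    rw [Padic.norm_intCast_lt_one_iff]
    exact h
  exact le_antisymm h1 (not_lt.1 h2)

/-- the norm form of an inert prime is anisotropic -/
lemma aniso (r : Nat.Primes) (hr2 : (r : ℕ) ≠ 2) (a : ℤ) (hra : ¬ ((r : ℕ) : ℤ) ∣ a) (hleg : legendreSym (r : ℕ) a = -1)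
    (y z : ℚ_[(r : ℕ)]) (h : ‖y ^ 2 - (a : ℚ_[(r : ℕ)]) * z ^ 2‖ ≤ 1) : ‖y‖ ≤ 1 ∧ ‖z‖ ≤ 1 := by
  have han := unit_norm r a hra
  have hz : ‖z‖ ≤ 1 := by
    by_contra hcon
    rw [not_le] at hcon
    have hz0 : z ≠ 0 := by
      rintro rfl
      rw [norm_zero] at hcon
      linarith
    obtain ⟨w, hw⟩ : ∃ w, w = y ^ 2 - (a : ℚ_[(r : ℕ)]) * z ^ 2 := ⟨_, rfl⟩
    rw [← hw] at h
    have hwz : ‖w / z ^ 2‖ < 1 := by
      rw [norm_div, norm_pow]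
      rw [div_lt_one (by positivity)]
      nlinarith
    have e : (a : ℚ_[(r : ℕ)]) - (y / z) ^ 2 = -(w / z ^ 2) := by
      rw [hw]
      field_simp
      ring
    have hlt : ‖(a : ℚ_[(r : ℕ)]) - (y / z) ^ 2‖ < 1 := by
      rw [e, norm_neg]
      exact hwz
    have hyz : ‖(y / z) ^ 2‖ = 1 := by
      have h1 : ‖(y / z) ^ 2 - (a : ℚ_[(r : ℕ)])‖ < ‖(a : ℚ_[(r : ℕ)])‖ := by
        rw [norm_sub_rev, han]
        exact hlt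
      rw [norm_eq_of_near _ _ h1, han]
    have h4 : ‖(4 : ℚ_[(r : ℕ)])‖ = 1 := by
      have h5 := unit_norm r 4 (by
        intro h6
        have h7 : (r : ℕ) ∣ 2 ^ 2 := by exact_mod_cast h6
        exact hr2 ((Nat.prime_dvd_prime_iff_eq r.2 Nat.prime_two).1 (r.2.dvd_of_dvd_pow h7)))
      exact_mod_cast h5
    have hne : (y / z) ^ 2 ≠ 0 := by
      intro h6
      rw [h6, norm_zero] at hyz
      exact zero_ne_one hyz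
    have hs : Splits ((((r : ℕ) : ℤ) * 1 : ℤ) : ℚ_[(r : ℕ)]) (a : ℚ_[(r : ℕ)]) := by
      refine splits_near _ _ _ hne ?_ (splits_sq _ (y / z))
      rw [h4, hyz, one_mul]
      exact hlt
    have h8 := (Pool.Agent.W335.BMX.odd3 (r : ℕ) hr2 1 a (by
      intro h9
      exact (Nat.prime_iff_prime_int.1 r.2).not_dvd_one h9) hra).1 hs
    rw [hleg] at h8
    norm_num at h8
  refine ⟨?_, hz⟩
  by_contra hcon
  rw [not_le] at hcon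
  have h1 : ‖y ^ 2‖ ≤ 1 := by
    have e : y ^ 2 = (y ^ 2 - (a : ℚ_[(r : ℕ)]) * z ^ 2) + (a : ℚ_[(r : ℕ)]) * z ^ 2 := by ring
    rw [e]
    refine (Padic.nonarchimedean _ _).trans (max_le h ?_)
    rw [norm_mul, han, one_mul, norm_pow]
    exact pow_le_one₀ (norm_nonneg _) hz
  rw [norm_pow] at h1
  nlinarith

lemma eval_shift (f : ℤ[X]) (t : ℤ) : ∃ g : ℤ, f.eval t = f.eval 0 + t * g := by
  obtain ⟨g, hg⟩ := f.sub_dvd_eval_sub t 0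
  rw [sub_zero] at hg
  exact ⟨g, by linarith⟩

/-- a point with nontrivial symbol at an inert prime -/
lemma pt_inert (f : ℤ[X]) (a b k : ℤ) (ha : a ≠ 0) (hb : b ≠ 0) (r : Nat.Primes) (hr2 : (r : ℕ) ≠ 2) (hra : ¬ ((r : ℕ) : ℤ) ∣ a) (hrb : ¬ ((r : ℕ) : ℤ) ∣ b)
    (hleg : legendreSym (r : ℕ) a = -1) (h1 : ((r : ℕ) : ℤ) ∣ f.eval 0 + k) (h2 : ¬ ((r : ℕ) : ℤ) ^ 2 ∣ f.eval 0 + k) :
    ∃ t y z : ℚ_[(r : ℕ)], LocC f a b k 3 r t y z ∧ ¬ Splits (a : ℚ_[(r : ℕ)]) t := by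
  have hrp := Nat.prime_iff_prime_int.1 r.2
  have hr0 : (((r : ℕ) : ℤ)) ≠ 0 := hrp.ne_zero
  have hrq : ((r : ℕ) : ℚ_[(r : ℕ)]) ≠ 0 := by exact_mod_cast r.2.ne_zero
  have hp1 : (1 : ℝ) < ((r : ℕ) : ℝ) := one_lt_p (p := (r : ℕ))
  have hp0 : (0 : ℝ) < ((r : ℕ) : ℝ) := p_pos (p := (r : ℕ))
  obtain ⟨c1, hc1⟩ := h1
  obtain ⟨g, hg⟩ := eval_shift f (((r : ℕ) : ℤ) ^ 3)
  obtain ⟨m, hm⟩ : ∃ m, m = c1 + ((r : ℕ) : ℤ) ^ 2 * g := ⟨_, rfl⟩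
  have hval : f.eval (((r : ℕ) : ℤ) ^ 3) + k = ((r : ℕ) : ℤ) * m := by
    rw [hg, hm]
    linear_combination hc1
  have hrm : ¬ ((r : ℕ) : ℤ) ∣ m := by
    intro h3
    apply h2
    rw [hm] at h3
    have h4 : ((r : ℕ) : ℤ) ∣ c1 := (dvd_add_left (Dvd.dvd.mul_right (dvd_pow_self _ two_ne_zero) g)).1 h3
    rw [hc1, sq]
    exact mul_dvd_mul_left _ h4
  obtain ⟨t, ht⟩ : ∃ t : ℚ_[(r : ℕ)], t = ((((r : ℕ) : ℤ) ^ 3 : ℤ) : ℚ_[(r : ℕ)]) := ⟨_, rfl⟩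
  have ht' : t = ((r : ℕ) : ℚ_[(r : ℕ)]) ^ 3 := by rw [ht]; push_cast; rfl
  have ht0 : t ≠ 0 := by rw [ht']; exact pow_ne_zero _ hrq
  have hft : aeval t f + (k : ℚ_[(r : ℕ)]) = ((((r : ℕ) : ℤ) * m : ℤ) : ℚ_[(r : ℕ)]) := by
    rw [ht, aeval_int, ← hval]
    push_cast
    ring
  have hm0 : m ≠ 0 := by rintro rfl; exact hrm (dvd_zero _)
  have hft0 : aeval t f + (k : ℚ_[(r : ℕ)]) ≠ 0 := by
    rw [hft]
    exact_mod_cast mul_ne_zero hr0 hm0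
  have hbm : ¬ ((r : ℕ) : ℤ) ∣ b * m := by
    intro h3
    rcases hrp.dvd_or_dvd h3 with h3 | h3
    · exact hrb h3
    · exact hrm h3
  have hval2 : (b : ℚ_[(r : ℕ)]) * (t * (aeval t f + (k : ℚ_[(r : ℕ)]))) = ((b * m : ℤ) : ℚ_[(r : ℕ)]) * (((r : ℕ) : ℚ_[(r : ℕ)]) ^ 2) ^ 2 := by
    rw [hft, ht']
    push_cast
    ring
  have hS : Splits (a : ℚ_[(r : ℕ)]) ((b : ℚ_[(r : ℕ)]) * (t * (aeval t f + (k : ℚ_[(r : ℕ)])))) := by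
    rw [hval2]
    exact splits_swap ((splits_mul_sq (pow_ne_zero _ hrq)).2 (splits_swap (Pool.Agent.W335.BMX.odd2 (r : ℕ) hr2 a _ hra hbm)))
  rw [← conic_iff _ _ (by exact_mod_cast ha) (mul_ne_zero (by exact_mod_cast hb) (mul_ne_zero ht0 hft0))] at hS
  obtain ⟨y, z, hyz⟩ := hS
  have htn : ‖t‖ = (((r : ℕ) : ℝ) ^ 3)⁻¹ := by
    rw [ht', norm_pow, Padic.norm_p, inv_pow]
  have hfn : ‖aeval t f + (k : ℚ_[(r : ℕ)])‖ = (((r : ℕ) : ℝ))⁻¹ := by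
    rw [hft]
    push_cast
    rw [norm_mul, Padic.norm_p, unit_norm r m hrm, mul_one]
  have hle : ‖y ^ 2 - (a : ℚ_[(r : ℕ)]) * z ^ 2‖ ≤ 1 := by
    rw [hyz, norm_mul, norm_mul, htn, hfn]
    have h3 := Padic.norm_int_le_one (p := (r : ℕ)) b
    have h4 : (((r : ℕ) : ℝ) ^ 3)⁻¹ ≤ 1 := inv_le_one_of_one_le₀ (one_le_pow₀ hp1.le)
    have h5 : (((r : ℕ) : ℝ))⁻¹ ≤ 1 := inv_le_one_of_one_le₀ hp1.le
    exact mul_le_one₀ h3 (by positivity) (mul_le_one₀ h4 (by positivity) h5)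
  obtain ⟨hy, hz⟩ := aniso r hr2 a hra hleg y z hle
  have h31 : (1 : ℝ) ≤ ((r : ℕ) : ℝ) ^ 3 := one_le_pow₀ hp1.le
  refine ⟨t, y, z, ⟨⟨ht0, hft0, hyz⟩, ?_, hy.trans h31, hz.trans h31, htn.ge, ?_⟩, ?_⟩
  · rw [htn]
    exact (inv_le_one_of_one_le₀ h31).trans h31
  · rw [hfn]
    exact inv_anti₀ hp0 (le_self_pow₀ hp1.le (by norm_num))
  · intro h3
    have e : t = ((((r : ℕ) : ℤ) * 1 : ℤ) : ℚ_[(r : ℕ)]) * (((r : ℕ) : ℚ_[(r : ℕ)])) ^ 2 := by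
      rw [ht']
      push_cast
      ring
    rw [e] at h3
    have h4 := (splits_mul_sq hrq).1 (splits_swap h3)
    have h8 := (Pool.Agent.W335.BMX.odd3 (r : ℕ) hr2 1 a (by
      intro h9
      exact hrp.not_dvd_one h9) hra).1 h4
    rw [hleg] at h8
    norm_num at h8

/-- a point at an arbitrary prime -/
lemma pt_triv (f : ℤ[X]) (a b k : ℤ) (hb : b ≠ 0) (p : Nat.Primes) (M n : ℕ) (hbn : ¬ ((p : ℕ) : ℤ) ^ n ∣ b)
    (h : ¬ ((p : ℕ) : ℤ) ^ M ∣ f.eval 0 + k) :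
    ∃ t y z : ℚ_[(p : ℕ)], LocC f a b k (n + M + 4) p t y z := by
  have hpp := Nat.prime_iff_prime_int.1 p.2
  have hpq : ((p : ℕ) : ℚ_[(p : ℕ)]) ≠ 0 := by exact_mod_cast p.2.ne_zero
  have hp1 : (1 : ℝ) < ((p : ℕ) : ℝ) := one_lt_p (p := (p : ℕ))
  have hp0 : (0 : ℝ) < ((p : ℕ) : ℝ) := p_pos (p := (p : ℕ))
  obtain ⟨c0, hc0⟩ : ∃ c0, c0 = f.eval 0 + k := ⟨_, rfl⟩
  rw [← hc0] at h
  have hc00 : c0 ≠ 0 := by rintro rfl; exact h (dvd_zero _)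
  obtain ⟨τ, hτ⟩ : ∃ τ : ℤ, τ = b * c0 * ((p : ℕ) : ℤ) ^ 4 := ⟨_, rfl⟩
  obtain ⟨g, hg⟩ := eval_shift f τ
  have hval : f.eval τ + k = c0 * (1 + b * ((p : ℕ) : ℤ) ^ 4 * g) := by
    rw [hg, hτ]
    linear_combination -hc0
  obtain ⟨e, he⟩ : ∃ e : ℤ, e = b * ((p : ℕ) : ℤ) ^ 4 * g := ⟨_, rfl⟩
  rw [← he] at hval
  have hen : ‖(e : ℚ_[(p : ℕ)])‖ < ‖(4 : ℚ_[(p : ℕ)])‖ := by
    refine lt_of_le_of_lt ?_ (norm_four_gt (p : ℕ))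
    rw [he]
    push_cast
    rw [norm_mul, norm_mul, norm_pow, Padic.norm_p, inv_pow]
    have h3 := Padic.norm_int_le_one (p := (p : ℕ)) b
    have h4 := Padic.norm_int_le_one (p := (p : ℕ)) g
    have h5 : (((p : ℕ) : ℝ) ^ 4)⁻¹ ≤ (((p : ℕ) : ℝ) ^ 3)⁻¹ := inv_anti₀ (by positivity) (pow_le_pow_right₀ hp1.le (by norm_num))
    calc ‖(b : ℚ_[(p : ℕ)])‖ * (((p : ℕ) : ℝ) ^ 4)⁻¹ * ‖(g : ℚ_[(p : ℕ)])‖ ≤ 1 * (((p : ℕ) : ℝ) ^ 4)⁻¹ * 1 :=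
          mul_le_mul (mul_le_mul_of_nonneg_right h3 (by positivity)) h4 (norm_nonneg _) (by positivity)
      _ ≤ _ := by rw [one_mul, mul_one]; exact h5
  obtain ⟨s, hs, hs2⟩ := sq_near (p := (p : ℕ)) (1 + (e : ℚ_[(p : ℕ)])) 1 one_ne_zero (by
    rw [add_sub_cancel_left, norm_one, mul_one]
    exact hen)
  rw [one_mul] at hs2
  have h1e : ‖1 + (e : ℚ_[(p : ℕ)])‖ = 1 := by
    have h6 := norm_eq_of_near (p := (p : ℕ)) (1 + (e : ℚ_[(p : ℕ)])) 1 (by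
      rw [add_sub_cancel_left, norm_one]
      exact hen.trans_le four_norm_le)
    rw [h6, norm_one]
  have hsn : ‖s‖ = 1 := by
    rw [hs2, norm_pow] at h1e
    exact (pow_eq_one_iff_of_nonneg (norm_nonneg s) two_ne_zero).1 h1e
  obtain ⟨t, ht⟩ : ∃ t : ℚ_[(p : ℕ)], t = (τ : ℚ_[(p : ℕ)]) := ⟨_, rfl⟩
  have ht' : t = (b : ℚ_[(p : ℕ)]) * c0 * ((p : ℕ) : ℚ_[(p : ℕ)]) ^ 4 := by
    rw [ht, hτ]
    push_cast
    rfl
  have hbq : (b : ℚ_[(p : ℕ)]) ≠ 0 := by exact_mod_cast hb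
  have hcq : (c0 : ℚ_[(p : ℕ)]) ≠ 0 := by exact_mod_cast hc00
  have ht0 : t ≠ 0 := by rw [ht']; exact mul_ne_zero (mul_ne_zero hbq hcq) (pow_ne_zero _ hpq)
  have hft : aeval t f + (k : ℚ_[(p : ℕ)]) = (c0 : ℚ_[(p : ℕ)]) * s ^ 2 := by
    have h7 : aeval t f + (k : ℚ_[(p : ℕ)]) = ((f.eval τ + k : ℤ) : ℚ_[(p : ℕ)]) := by
      rw [ht, aeval_int]
      push_cast
      ring
    rw [h7, hval, ← hs2]
    push_cast
    ring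
  have hft0 : aeval t f + (k : ℚ_[(p : ℕ)]) ≠ 0 := by
    rw [hft]
    exact mul_ne_zero hcq (pow_ne_zero 2 hs)
  have hbg := int_norm_gt p b n hbn
  have hcg := int_norm_gt p c0 M h
  have hc1 := Padic.norm_int_le_one (p := (p : ℕ)) c0
  have hb1 := Padic.norm_int_le_one (p := (p : ℕ)) b
  have h41 : (1 : ℝ) ≤ ((p : ℕ) : ℝ) ^ (n + M + 4) := one_le_pow₀ hp1.le
  refine ⟨t, (b : ℚ_[(p : ℕ)]) * c0 * ((p : ℕ) : ℚ_[(p : ℕ)]) ^ 2 * s, 0, ⟨⟨ht0, hft0, ?_⟩, ?_, ?_, ?_, ?_, ?_⟩⟩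
  · rw [hft, ht']
    ring
  · refine le_trans ?_ h41
    rw [ht]
    exact Padic.norm_int_le_one _
  · refine le_trans ?_ h41
    rw [norm_mul, norm_mul, norm_mul, hsn, mul_one, norm_pow, Padic.norm_p]
    have h8 : (((p : ℕ) : ℝ)⁻¹) ^ 2 ≤ 1 := pow_le_one₀ (by positivity) (inv_le_one_of_one_le₀ hp1.le)
    exact mul_le_one₀ (mul_le_one₀ hb1 (norm_nonneg _) hc1) (by positivity) h8
  · rw [norm_zero]
    positivity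
  · rw [ht', norm_mul, norm_mul, norm_pow, Padic.norm_p, inv_pow]
    calc (((p : ℕ) : ℝ) ^ (n + M + 4))⁻¹ = (((p : ℕ) : ℝ) ^ n)⁻¹ * (((p : ℕ) : ℝ) ^ M)⁻¹ * (((p : ℕ) : ℝ) ^ 4)⁻¹ := by
          rw [pow_add, pow_add, mul_inv, mul_inv]
      _ ≤ _ := mul_le_mul_of_nonneg_right (mul_le_mul hbg.le hcg.le (by positivity) (norm_nonneg _)) (by positivity)
  · rw [hft, norm_mul, norm_pow, hsn, one_pow, mul_one]
    refine le_trans ?_ hcg.le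
    exact inv_anti₀ (by positivity) (pow_le_pow_right₀ hp1.le (by omega))

open Classical in
/-- from the approximation with the condition to the one without -/
lemma wc_of (f : ℤ[X]) (a b k : ℤ) (T T' : Finset Nat.Primes) (hTT : T ⊆ T') (N N' : ℕ) (hN : N ≤ N')
    (hW : WB f a b T' N' k) (hpts : ∀ p ∈ T', ∃ t y z : ℚ_[(p : ℕ)], LocC f a b k N' p t y z)
    (hflip : IsSquare a ∨ ∃ r : Nat.Primes, r ∉ T' ∧ WB f a b (insert r T') N' k ∧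
      ∃ t y z : ℚ_[(r : ℕ)], LocC f a b k N' r t y z ∧ ¬ Splits (a : ℚ_[(r : ℕ)]) t) : WC f a b T N k := by
  intro t y z tr yr zr hloc hre
  have hppos : ∀ p : Nat.Primes, (0 : ℝ) < ((p : ℕ) : ℝ) := fun p => p_pos (p := (p : ℕ))
  have hp1 : ∀ p : Nat.Primes, (1 : ℝ) < ((p : ℕ) : ℝ) := fun p => one_lt_p (p := (p : ℕ))
  -- the extended family
  have hext : ∀ p : Nat.Primes, ∃ w : ℚ_[(p : ℕ)] × ℚ_[(p : ℕ)] × ℚ_[(p : ℕ)], (p ∈ T → w = (t p, y p, z p)) ∧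
      (p ∈ T' → LocC f a b k N' p w.1 w.2.1 w.2.2) := by
    intro p
    by_cases hp : p ∈ T
    · exact ⟨(t p, y p, z p), fun _ => rfl, fun _ => (hloc p hp).mono hN⟩
    · by_cases hp' : p ∈ T'
      · obtain ⟨t1, y1, z1, h1⟩ := hpts p hp'
        exact ⟨(t1, y1, z1), fun h => absurd h hp, fun _ => h1⟩
      · exact ⟨0, fun h => absurd h hp, fun h => absurd h hp'⟩
  choose w hw1 hw2 using hext
  have fin : ∀ s Y Z : ℚ, OnW f a b k s Y Z → 0 < (s : ℝ) * tr →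
      (∀ p ∈ T', ‖(s : ℚ_[(p : ℕ)]) - (w p).1‖ ≤ (((p : ℕ) : ℝ) ^ N')⁻¹ ∧
        ‖(Y : ℚ_[(p : ℕ)]) - (w p).2.1‖ ≤ (((p : ℕ) : ℝ) ^ N')⁻¹ ∧ ‖(Z : ℚ_[(p : ℕ)]) - (w p).2.2‖ ≤ (((p : ℕ) : ℝ) ^ N')⁻¹) →
      ∃ s Y Z : ℚ, OnW f a b k s Y Z ∧ 0 < (s : ℝ) * tr ∧
        ∀ p ∈ T, ‖(s : ℚ_[(p : ℕ)]) - t p‖ ≤ (((p : ℕ) : ℝ) ^ N)⁻¹ ∧
          ‖(Y : ℚ_[(p : ℕ)]) - y p‖ ≤ (((p : ℕ) : ℝ) ^ N)⁻¹ ∧ ‖(Z : ℚ_[(p : ℕ)]) - z p‖ ≤ (((p : ℕ) : ℝ) ^ N)⁻¹ := by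
    intro s Y Z h1 h2 h3
    refine ⟨s, Y, Z, h1, h2, fun p hp => ?_⟩
    have h4 := h3 p (hTT hp)
    rw [hw1 p hp] at h4
    have := hppos p
    have h5 : (((p : ℕ) : ℝ) ^ N')⁻¹ ≤ (((p : ℕ) : ℝ) ^ N)⁻¹ := inv_anti₀ (by positivity) (pow_le_pow_right₀ (hp1 p).le hN)
    exact ⟨h4.1.trans h5, h4.2.1.trans h5, h4.2.2.trans h5⟩
  by_cases hev : Even (#(T'.filter (fun p : Nat.Primes => ¬ Splits (a : ℚ_[(p : ℕ)]) (w p).1)) + (if a < 0 ∧ tr < 0 then 1 else 0))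
  · obtain ⟨s, Y, Z, h1, h2, h3⟩ := hW (fun p => (w p).1) (fun p => (w p).2.1) (fun p => (w p).2.2) tr yr zr
      (fun p hp => hw2 p hp) hre (Or.inr hev)
    exact fin s Y Z h1 h2 h3
  · rcases hflip with ⟨a', ha'⟩ | ⟨r, hrT, hWr, t1, y1, z1, hl1, hns⟩
    · exfalso
      apply hev
      have h1 : T'.filter (fun p : Nat.Primes => ¬ Splits (a : ℚ_[(p : ℕ)]) (w p).1) = ∅ := by
        rw [filter_eq_empty_iff]
        intro p _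
        rw [not_not]
        have e : (a : ℚ_[(p : ℕ)]) = (a' : ℚ_[(p : ℕ)]) ^ 2 := by rw [ha']; push_cast; ring
        rw [e]
        exact splits_swap (splits_sq _ _)
      have h2 : ¬ (a < 0 ∧ tr < 0) := by
        rintro ⟨h2, -⟩
        nlinarith [mul_self_nonneg a']
      rw [h1, if_neg h2]
      simp
    · obtain ⟨w', hw'⟩ : ∃ w' : (p : Nat.Primes) → ℚ_[(p : ℕ)] × ℚ_[(p : ℕ)] × ℚ_[(p : ℕ)], w' = Function.update w r (t1, y1, z1) := ⟨_, rfl⟩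
      have hwr : w' r = (t1, y1, z1) := by rw [hw', Function.update_self]
      have hwo : ∀ p ∈ T', w' p = w p := by
        intro p hp
        rw [hw', Function.update_of_ne]
        rintro rfl
        exact hrT hp
      have hcard : #((insert r T').filter (fun p : Nat.Primes => ¬ Splits (a : ℚ_[(p : ℕ)]) (w' p).1)) =
          #(T'.filter (fun p : Nat.Primes => ¬ Splits (a : ℚ_[(p : ℕ)]) (w p).1)) + 1 := by
        rw [filter_insert, hwr, if_pos hns, card_insert_of_notMem]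
        · congr 2
          apply filter_congr
          intro p hp
          rw [hwo p hp]
        · intro h5
          exact hrT (mem_filter.1 h5).1
      have hev2 : Even (#((insert r T').filter (fun p : Nat.Primes => ¬ Splits (a : ℚ_[(p : ℕ)]) (w' p).1)) + (if a < 0 ∧ tr < 0 then 1 else 0)) := by
        rw [hcard, add_right_comm]
        exact (Nat.not_even_iff_odd.1 hev).add_one
      obtain ⟨s, Y, Z, h1, h2, h3⟩ := hWr (fun p => (w' p).1) (fun p => (w' p).2.1) (fun p => (w' p).2.2) tr yr zr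
        (fun p hp => by
          rw [mem_insert] at hp
          rcases hp with rfl | hp
          · rw [hwr]
            exact hl1
          · rw [hwo p hp]
            exact hw2 p hp) hre (Or.inr hev2)
      refine fin s Y Z h1 h2 (fun p hp => ?_)
      have h4 := h3 p (mem_insert_of_mem hp)
      rw [hwo p hp] at h4
      exact h4

end Pool.Agent.TH204.HP
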