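import Pool.Agent.TH204.HP.H17
import Pool.Agent.H771R2.Dens
import Pool.Agent.Helper919.NonRes

/-!
Weak approximation for 100% of the surfaces `y ^ 2 - a z ^ 2 = b t (f(t) + k)`.
-/

set_option autoImplicit false

namespace Pool.Agent.TH204.HP

open Finset Polynomial Filter Topology
open Pool.Agent.TH204.WR (rho evt_log_ge evt_log_pow)
open Pool.Agent.W313.BMX (Splits splits_swap splits_comm splits_mul_sq)
open Pool.Agent.H771R2.Dens (cnt Per Big big_ap exists_exp_small per_exact)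

/-- a residue class of inert primes -/
lemma inert_res (a : ℤ) (ha : ¬ IsSquare a) : ∃ (m : ℕ) (_ : NeZero m) (u : ZMod m), IsUnit u ∧
    ∀ p : Nat.Primes, ((p : ℕ) : ZMod m) = u → (p : ℕ) ≠ 2 ∧ legendreSym (p : ℕ) a = -1 := by
  obtain ⟨d, hd, hJ⟩ := Pool.Agent.Helper919.exists_jacobi_neg_one a ha
  have ha0 : a ≠ 0 := by rintro rfl; exact ha ⟨0, by simp⟩
  have haa : a.natAbs ≠ 0 := Int.natAbs_ne_zero.2 ha0
  haveI : NeZero (4 * a.natAbs) := ⟨by omega⟩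
  refine ⟨4 * a.natAbs, inferInstance, (d : ZMod (4 * a.natAbs)), ?_, ?_⟩
  · rw [ZMod.isUnit_iff_coprime]
    apply Nat.Coprime.mul_right
    · have h1 : Nat.Coprime d 2 := Nat.coprime_two_right.2 hd
      exact Nat.Coprime.pow_right 2 h1
    · haveI : NeZero d := ⟨by rintro rfl; exact absurd hd (by decide)⟩
      have h1 : ¬ jacobiSym a d = 0 := by rw [hJ]; norm_num
      rw [jacobiSym.eq_zero_iff_not_coprime, not_not] at h1
      rw [Nat.coprime_comm]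
      exact h1
  · intro p hp
    rw [ZMod.natCast_eq_natCast_iff'] at hp
    have hpo : Odd (p : ℕ) := by
      rw [Nat.odd_iff]
      have h1 : (p : ℕ) % (4 * a.natAbs) % 2 = d % (4 * a.natAbs) % 2 := by rw [hp]
      rw [Nat.mod_mod_of_dvd _ (Dvd.dvd.mul_right (by norm_num) _), Nat.mod_mod_of_dvd _ (Dvd.dvd.mul_right (by norm_num) _)] at h1
      rw [h1]
      exact Nat.odd_iff.1 hd
    refine ⟨?_, ?_⟩
    · intro h1
      rw [h1] at hpo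
      exact absurd hpo (by decide)
    · rw [jacobiSym.legendreSym.to_jacobiSym, jacobiSym.mod_right a hpo, hp, ← jacobiSym.mod_right a hd, hJ]

/-- inert primes: almost all integers are exactly divisible by one of them -/
lemma inert_set (a : ℤ) (ha : ¬ IsSquare a) (K : ℕ) (δ : ℝ) (hδ : 0 < δ) : ∃ F : Finset Nat.Primes,
    (∀ r ∈ F, K < (r : ℕ) ∧ (r : ℕ) ≠ 2 ∧ legendreSym (r : ℕ) a = -1) ∧
    Per (fun n => ∀ r ∈ F, ¬ ((r : ℕ) ∣ n ∧ ¬ (r : ℕ) ^ 2 ∣ n)) (∏ r ∈ F, (r : ℕ) ^ 2) δ := by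
  classical
  obtain ⟨m, hm, u, hu, hinert⟩ := inert_res a ha
  obtain ⟨F0, hF0, hexp⟩ := exists_exp_small ((big_ap hu).large K) hδ
  refine ⟨F0.subtype Nat.Prime, ?_, ?_⟩
  · intro r hr
    obtain ⟨-, h1, h2⟩ := hF0 r (Finset.mem_subtype.1 hr)
    exact ⟨h2, hinert r h1⟩
  · have h1 := Per.forall (F0.subtype Nat.Prime) (fun (r : Nat.Primes) n => ¬ ((r : ℕ) ∣ n ∧ ¬ (r : ℕ) ^ 2 ∣ n))
      (fun r => (r : ℕ) ^ 2) (fun r => Real.exp (-(1 / (2 * (((r : ℕ)) : ℝ)))))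
      (fun r _ => per_exact r.2) (fun r _ => (Real.exp_pos _).le)
      (fun r _ r' _ h => ((Nat.coprime_primes r.2 r'.2).2 (fun h3 => h (Subtype.ext h3))).pow 2 2)
    obtain ⟨h2, h3, h4⟩ := h1
    refine ⟨h2, h3, h4.trans (mul_le_mul_of_nonneg_right ?_ (Nat.cast_nonneg _))⟩
    refine le_trans (le_of_eq ?_) hexp
    rw [← Real.exp_sum, sum_neg_distrib]
    congr 1
    rw [neg_div, sum_div]
    congr 1
    have h5 : ∑ r ∈ F0.subtype Nat.Prime, 1 / (2 * (((r : ℕ)) : ℝ)) = ∑ r ∈ F0.filter Nat.Prime, 1 / (2 * (r : ℝ)) :=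
      sum_subtype_eq_sum_filter (fun r : ℕ => 1 / (2 * (r : ℝ)))
    rw [h5, filter_true_of_mem (fun r hr => (hF0 r hr).1)]
    refine sum_congr rfl fun r _ => ?_
    rw [one_div, one_div, mul_inv, mul_comm, div_eq_mul_inv]

open Classical in
lemma count_exact (F : Finset Nat.Primes) (c : ℤ) (δ : ℝ) (R : ℕ) (hR : R = ∏ r ∈ F, (r : ℕ) ^ 2) (hδ : 0 ≤ δ)
    (h : Per (fun n => ∀ r ∈ F, ¬ ((r : ℕ) ∣ n ∧ ¬ (r : ℕ) ^ 2 ∣ n)) R δ) (X : ℕ) :
    (#((Icc (-(X : ℤ)) X).filter (fun k => ∀ r ∈ F, ¬ (((r : ℕ) : ℤ) ∣ c + k ∧ ¬ ((r : ℕ) : ℤ) ^ 2 ∣ c + k))) : ℝ) ≤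
      δ * (2 * X + 1 + R) + R := by
  have hR0 : 0 < R := h.1
  have hRz : (0 : ℤ) < R := by exact_mod_cast hR0
  obtain ⟨A, hA⟩ : ∃ A : ℕ, A = ((c - X) % (R : ℤ)).toNat := ⟨_, rfl⟩
  have hA1 : (A : ℤ) = (c - X) % (R : ℤ) := by
    rw [hA, Int.toNat_of_nonneg (Int.emod_nonneg _ hRz.ne')]
  have hAR : A < R := by
    have := Int.emod_lt_of_pos (c - X) hRz
    rw [← hA1] at this
    exact_mod_cast this
  have hAd : (R : ℤ) ∣ (c - X) - A := by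
    rw [hA1]
    exact Int.dvd_self_sub_emod
  have h1 : #((Icc (-(X : ℤ)) X).filter (fun k => ∀ r ∈ F, ¬ (((r : ℕ) : ℤ) ∣ c + k ∧ ¬ ((r : ℕ) : ℤ) ^ 2 ∣ c + k))) ≤
      cnt (fun n => ∀ r ∈ F, ¬ ((r : ℕ) ∣ n ∧ ¬ (r : ℕ) ^ 2 ∣ n)) (2 * X + 1 + R) := by
    unfold cnt
    apply card_le_card_of_injOn (fun k : ℤ => (k + X + A).toNat)
    · intro k hk
      rw [mem_coe, mem_filter, mem_Icc] at hk
      obtain ⟨⟨hk1, hk2⟩, hk3⟩ := hk
      have hn : (((k + X + A).toNat : ℕ) : ℤ) = k + X + A := Int.toNat_of_nonneg (by linarith)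
      apply mem_coe.2
      apply (@Finset.mem_filter _ _ (_) _ _).2
      refine ⟨mem_range.2 ?_, fun r hr => ?_⟩
      · zify
        rw [hn]
        have : (A : ℤ) < R := by exact_mod_cast hAR
        linarith
      · have h2 := hk3 r hr
        have hr2 : (((r : ℕ) : ℤ)) ^ 2 ∣ (R : ℤ) := by
          rw [hR]
          exact_mod_cast dvd_prod_of_mem (fun r : Nat.Primes => (r : ℕ) ^ 2) hr
        have h3 : (((r : ℕ) : ℤ)) ^ 2 ∣ (c + k) - (((k + X + A).toNat : ℕ) : ℤ) := by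
          rw [hn]
          have e : (c + k) - (k + X + A) = (c - X) - A := by ring
          rw [e]
          exact hr2.trans hAd
        have h4 : (((r : ℕ) : ℤ)) ∣ (c + k) - (((k + X + A).toNat : ℕ) : ℤ) := (dvd_pow_self _ two_ne_zero).trans h3
        simp only
        rw [← Int.natCast_dvd_natCast, ← Int.natCast_dvd_natCast, Nat.cast_pow]
        rw [← dvd_iff_dvd_of_dvd_sub h4, ← dvd_iff_dvd_of_dvd_sub h3]
        exact h2
    · intro k hk k' hk' he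
      rw [mem_coe, mem_filter, mem_Icc] at hk hk'
      simp only at he
      have hn : (((k + X + A).toNat : ℕ) : ℤ) = k + X + A := Int.toNat_of_nonneg (by linarith [hk.1.1])
      have hn' : (((k' + X + A).toNat : ℕ) : ℤ) = k' + X + A := Int.toNat_of_nonneg (by linarith [hk'.1.1])
      rw [he, hn'] at hn
      linarith
  have h2 := h.count (2 * X + 1 + R)
  have h3 : (#((Icc (-(X : ℤ)) X).filter (fun k => ∀ r ∈ F, ¬ (((r : ℕ) : ℤ) ∣ c + k ∧ ¬ ((r : ℕ) : ℤ) ^ 2 ∣ c + k))) : ℝ) ≤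
      (cnt (fun n => ∀ r ∈ F, ¬ ((r : ℕ) ∣ n ∧ ¬ (r : ℕ) ^ 2 ∣ n)) (2 * X + 1 + R) : ℝ) := by exact_mod_cast h1
  refine h3.trans (h2.trans (le_of_eq ?_))
  push_cast
  ring

open Classical in
lemma count_pow (T : Finset Nat.Primes) (c : ℤ) (M X : ℕ) :
    (#((Icc (-(X : ℤ)) X).filter (fun k => ∃ p ∈ T, ((p : ℕ) : ℤ) ^ M ∣ c + k)) : ℝ) ≤ (#T : ℝ) * (2 * X / 2 ^ M + 1) := by
  have h1 : (Icc (-(X : ℤ)) X).filter (fun k => ∃ p ∈ T, ((p : ℕ) : ℤ) ^ M ∣ c + k) ⊆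
      T.biUnion (fun p => (Icc (-(X : ℤ)) X).filter (fun k => ((p : ℕ) : ℤ) ^ M ∣ c + k)) := by
    intro k hk
    rw [mem_filter] at hk
    obtain ⟨hk1, p, hp, hk2⟩ := hk
    exact mem_biUnion.2 ⟨p, hp, mem_filter.2 ⟨hk1, hk2⟩⟩
  have h2 : ∀ p ∈ T, (#((Icc (-(X : ℤ)) X).filter (fun k => ((p : ℕ) : ℤ) ^ M ∣ c + k)) : ℝ) ≤ 2 * X / 2 ^ M + 1 := by
    intro p _
    have h3 := card_class ((p : ℕ) ^ M) (pow_pos p.2.pos _) X ((Icc (-(X : ℤ)) X).filter (fun k => ((p : ℕ) : ℤ) ^ M ∣ c + k))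
      (fun k hk => abs_le.2 (mem_Icc.1 (mem_filter.1 hk).1)) (fun k hk k' hk' => by
        have e : k - k' = (c + k) - (c + k') := by ring
        rw [e]
        push_cast
        exact dvd_sub (mem_filter.1 hk).2 (mem_filter.1 hk').2)
    have h4 : (#((Icc (-(X : ℤ)) X).filter (fun k => ((p : ℕ) : ℤ) ^ M ∣ c + k)) : ℝ) ≤ ((2 * X / (p : ℕ) ^ M + 1 : ℕ) : ℝ) := by
      exact_mod_cast h3
    refine h4.trans ?_
    push_cast
    have h5 := Nat.cast_div_le (α := ℝ) (m := 2 * X) (n := (p : ℕ) ^ M)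
    push_cast at h5
    have h6 : (2 : ℝ) * X / ((p : ℕ) : ℝ) ^ M ≤ 2 * X / 2 ^ M := by
      apply div_le_div_of_nonneg_left (by positivity) (by positivity)
      exact pow_le_pow_left₀ (by norm_num) (by exact_mod_cast p.2.two_le) _
    linarith
  have h3 : (#((Icc (-(X : ℤ)) X).filter (fun k => ∃ p ∈ T, ((p : ℕ) : ℤ) ^ M ∣ c + k)) : ℝ) ≤
      ∑ p ∈ T, (#((Icc (-(X : ℤ)) X).filter (fun k => ((p : ℕ) : ℤ) ^ M ∣ c + k)) : ℝ) := by
    exact_mod_cast (card_le_card h1).trans card_biUnion_le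
  refine h3.trans ((sum_le_sum h2).trans (le_of_eq ?_))
  rw [sum_const, nsmul_eq_mul]

end Pool.Agent.TH204.HP
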