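import Pool.Agent.TH204.HP.H18

/-!
Weak approximation for 100% of the surfaces `y ^ 2 - a z ^ 2 = b t (f(t) + k)`: the main theorem.
-/

set_option autoImplicit false

namespace Pool.Agent.TH204.HP

open Finset Polynomial Filter Topology
open Pool.Agent.TH204.WR (rho evt_log_ge evt_log_pow)
open Pool.Agent.W313.BMX (Splits splits_swap splits_comm splits_mul_sq)
open Pool.Agent.H771R2.Dens (cnt Per Big big_ap exists_exp_small per_exact)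

lemma primes_le (B : ℕ) : ∃ T : Finset Nat.Primes, ∀ p : Nat.Primes, (p : ℕ) ≤ B → p ∈ T := by
  have hfin : {p : Nat.Primes | (p : ℕ) ≤ B}.Finite := (Set.finite_Iic B).preimage (Subtype.val_injective.injOn)
  refine ⟨hfin.toFinset, fun p hp => ?_⟩
  rw [Set.Finite.mem_toFinset]
  exact hp

lemma le_natAbs (p : Nat.Primes) (x : ℤ) (hx : x ≠ 0) (h : ((p : ℕ) : ℤ) ∣ x) : (p : ℕ) ≤ x.natAbs :=
  Nat.le_of_dvd (Int.natAbs_pos.2 hx) (Int.natCast_dvd.1 h)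

open Classical in
/-- the pointwise statement -/
lemma good_k (f : ℤ[X]) (a b : ℤ) (ha : a ≠ 0) (hb : b ≠ 0) (T T' : Finset Nat.Primes) (hTT : T ⊆ T') (N M N' : ℕ)
    (hN : N ≤ N') (hN3 : 3 ≤ N') (hNM : b.natAbs + M + 4 ≤ N') (F : Finset Nat.Primes)
    (hF : ∀ r ∈ F, r ∉ T' ∧ (r : ℕ) ≠ 2 ∧ ¬ ((r : ℕ) : ℤ) ∣ a ∧ ¬ ((r : ℕ) : ℤ) ∣ b ∧ legendreSym (r : ℕ) a = -1) (k : ℤ)
    (h0 : WB f a b T' N' k) (h1 : ∀ r ∈ F, WB f a b (insert r T') N' k)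
    (h2 : ∀ p ∈ T', ¬ ((p : ℕ) : ℤ) ^ M ∣ f.eval 0 + k)
    (h3 : IsSquare a ∨ ∃ r ∈ F, ((r : ℕ) : ℤ) ∣ f.eval 0 + k ∧ ¬ ((r : ℕ) : ℤ) ^ 2 ∣ f.eval 0 + k) : WC f a b T N k := by
  apply wc_of f a b k T T' hTT N N' hN h0
  · intro p hp
    have hbn : ¬ ((p : ℕ) : ℤ) ^ b.natAbs ∣ b := by
      intro h
      have h4 : (p : ℕ) ^ b.natAbs ∣ b.natAbs := by
        have := Int.natAbs_dvd_natAbs.2 h
        rw [Int.natAbs_pow, Int.natAbs_natCast] at this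
        exact this
      have h5 := Nat.le_of_dvd (Int.natAbs_pos.2 hb) h4
      have h6 : b.natAbs < (p : ℕ) ^ b.natAbs := Nat.lt_pow_self p.2.one_lt
      omega
    obtain ⟨t, y, z, h⟩ := pt_triv f a b k hb p M b.natAbs hbn (h2 p hp)
    exact ⟨t, y, z, h.mono hNM⟩
  · rcases h3 with h3 | ⟨r, hr, h4, h5⟩
    · exact Or.inl h3
    · obtain ⟨h6, h7, h8, h9, h10⟩ := hF r hr
      obtain ⟨t, y, z, h, hs⟩ := pt_inert f a b k ha hb r h7 h8 h9 h10 h4 h5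
      exact Or.inr ⟨r, h6, h1 r hr, t, y, z, h.mono hN3, hs⟩

open Classical in
theorem thmC (f : ℤ[X]) (hd : 1 ≤ f.natDegree) (a b : ℤ) (ha : a ≠ 0) (hb : b ≠ 0) (T : Finset Nat.Primes) (N : ℕ)
    (ε : ℝ) (hε : 0 < ε) : ∃ X0 : ℕ, ∀ X : ℕ, X0 ≤ X →
      (#((Icc (-(X : ℤ)) X).filter (fun k => ¬ WC f a b T N k)) : ℝ) ≤ ε * X := by
  have hf0 : f.leadingCoeff ≠ 0 := by
    rw [Ne, leadingCoeff_eq_zero]
    rintro rfl
    simp at hd
  obtain ⟨B, hB⟩ : ∃ B, B = 2 * f.natDegree + f.leadingCoeff.natAbs + a.natAbs + b.natAbs := ⟨_, rfl⟩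
  obtain ⟨T1, hT1⟩ := primes_le B
  obtain ⟨T', hT'⟩ : ∃ T', T' = T ∪ T1 := ⟨_, rfl⟩
  have hTT : T ⊆ T' := by rw [hT']; exact subset_union_left
  have hB1 : ∀ p : Nat.Primes, (p : ℕ) ≤ B → p ∈ T' := fun p hp => by
    rw [hT']
    exact mem_union_right _ (hT1 p hp)
  have hbig : ∀ p : Nat.Primes, ((p : ℕ) ≤ 2 * f.natDegree ∨ ((p : ℕ) : ℤ) ∣ f.leadingCoeff ∨ ((p : ℕ) : ℤ) ∣ a ∨ ((p : ℕ) : ℤ) ∣ b) → p ∈ T' := by
    intro p hp
    apply hB1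
    rcases hp with h | h | h | h
    · omega
    · have := le_natAbs p _ hf0 h
      omega
    · have := le_natAbs p _ ha h
      omega
    · have := le_natAbs p _ hb h
      omega
  -- the precision
  obtain ⟨M, hM⟩ := pow_unbounded_of_one_lt (16 * (#T' : ℝ) / ε) (by norm_num : (1 : ℝ) < 2)
  obtain ⟨N', hN'⟩ : ∃ N', N' = N + 3 + (b.natAbs + M + 4) := ⟨_, rfl⟩
  -- the inert primes
  have hFex : ∃ F : Finset Nat.Primes, (∀ r ∈ F, r ∉ T' ∧ (r : ℕ) ≠ 2 ∧ ¬ ((r : ℕ) : ℤ) ∣ a ∧ ¬ ((r : ℕ) : ℤ) ∣ b ∧ legendreSym (r : ℕ) a = -1) ∧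
      (IsSquare a ∨ Per (fun n => ∀ r ∈ F, ¬ ((r : ℕ) ∣ n ∧ ¬ (r : ℕ) ^ 2 ∣ n)) (∏ r ∈ F, (r : ℕ) ^ 2) (ε / 16)) := by
    by_cases hs : IsSquare a
    · exact ⟨∅, fun r hr => absurd hr (notMem_empty _), Or.inl hs⟩
    · obtain ⟨F, hF1, hF2⟩ := inert_set a hs (B + ∑ p ∈ T', (p : ℕ)) (ε / 16) (by positivity)
      refine ⟨F, fun r hr => ?_, Or.inr hF2⟩
      obtain ⟨h1, h2, h3⟩ := hF1 r hr
      refine ⟨fun h => ?_, h2, fun h => ?_, fun h => ?_, h3⟩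
      · have := single_le_sum (f := fun p : Nat.Primes => (p : ℕ)) (fun _ _ => Nat.zero_le _) h
        omega
      · have := le_natAbs r _ ha h
        omega
      · have := le_natAbs r _ hb h
        omega
  obtain ⟨F, hF, hPer⟩ := hFex
  obtain ⟨X1, hX1⟩ := thmB f hd a b ha hb T' hbig N' 1
  have hXr : ∀ r : Nat.Primes, ∃ Xr : ℕ, ∀ X : ℕ, Xr ≤ X →
      (#((Icc (-(X : ℤ)) X).filter (fun k => ¬ WB f a b (insert r T') N' k)) : ℝ) ≤ X / Real.log X ^ 1 := fun r =>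
    thmB f hd a b ha hb (insert r T') (fun p hp => mem_insert_of_mem (hbig p hp)) N' 1
  choose Xr hXr using hXr
  obtain ⟨R, hR⟩ : ∃ R, R = ∏ r ∈ F, (r : ℕ) ^ 2 := ⟨_, rfl⟩
  rw [← hR] at hPer
  obtain ⟨X2, hX2⟩ := eventually_atTop.1 (evt_log_ge (4 * (1 + (#F : ℝ)) / ε))
  obtain ⟨X3, hX3⟩ := exists_nat_gt ((8 * (#T' : ℝ) + 8 * ((ε / 16) * (1 + R) + R)) / ε)
  refine ⟨max (max X1 X2) (max X3 (∑ r ∈ F, Xr r)), fun X hX => ?_⟩
  have hXa : X1 ≤ X := (le_max_left _ _).trans ((le_max_left _ _).trans hX)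
  have hXb : X2 ≤ X := (le_max_right _ _).trans ((le_max_left _ _).trans hX)
  have hXc : X3 ≤ X := (le_max_left _ _).trans ((le_max_right _ _).trans hX)
  have hXd : ∀ r ∈ F, Xr r ≤ X := fun r hr =>
    (single_le_sum (fun _ _ => Nat.zero_le _) hr).trans ((le_max_right _ _).trans ((le_max_right _ _).trans hX))
  have hX0 : (0 : ℝ) ≤ X := Nat.cast_nonneg _
  obtain ⟨L, hL⟩ : ∃ L, L = Real.log X := ⟨_, rfl⟩
  have hL1 := hX2 X hXb
  rw [← hL] at hL1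
  have hL0 : 0 < L := lt_of_lt_of_le (by positivity) hL1
  have hX3' : (8 * (#T' : ℝ) + 8 * ((ε / 16) * (1 + R) + R)) ≤ ε * X := by
    have h1 : ((8 * (#T' : ℝ) + 8 * ((ε / 16) * (1 + R) + R)) / ε) ≤ X := hX3.le.trans (by exact_mod_cast hXc)
    rw [div_le_iff₀ hε] at h1
    linarith
  -- the exceptional set
  obtain ⟨E0, hE0⟩ : ∃ E0, E0 = (Icc (-(X : ℤ)) X).filter (fun k => ¬ WB f a b T' N' k) := ⟨_, rfl⟩
  obtain ⟨Er, hEr⟩ : ∃ Er : Nat.Primes → Finset ℤ, Er = fun r => (Icc (-(X : ℤ)) X).filter (fun k => ¬ WB f a b (insert r T') N' k) := ⟨_, rfl⟩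
  obtain ⟨D, hD⟩ : ∃ D, D = (Icc (-(X : ℤ)) X).filter (fun k => ∃ p ∈ T', ((p : ℕ) : ℤ) ^ M ∣ f.eval 0 + k) := ⟨_, rfl⟩
  obtain ⟨G, hG⟩ : ∃ G, G = (Icc (-(X : ℤ)) X).filter (fun k => ¬ IsSquare a ∧ ∀ r ∈ F, ¬ (((r : ℕ) : ℤ) ∣ f.eval 0 + k ∧ ¬ ((r : ℕ) : ℤ) ^ 2 ∣ f.eval 0 + k)) := ⟨_, rfl⟩
  have hsub : (Icc (-(X : ℤ)) X).filter (fun k => ¬ WC f a b T N k) ⊆ ((E0 ∪ F.biUnion Er) ∪ D) ∪ G := by
    intro k hk
    rw [mem_filter] at hk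
    by_contra hcon
    rw [mem_union, mem_union, mem_union, mem_biUnion] at hcon
    push Not at hcon
    obtain ⟨⟨⟨h1, h2⟩, h3⟩, h4⟩ := hcon
    apply hk.2
    apply good_k f a b ha hb T T' hTT N M N' (by omega) (by omega) (by omega) F hF k
    · by_contra h5
      exact h1 (by rw [hE0]; exact mem_filter.2 ⟨hk.1, h5⟩)
    · intro r hr
      by_contra h5
      exact h2 r hr (by rw [hEr]; exact mem_filter.2 ⟨hk.1, h5⟩)
    · intro p hp h5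
      exact h3 (by rw [hD]; exact mem_filter.2 ⟨hk.1, p, hp, h5⟩)
    · by_contra h5
      rw [not_or] at h5
      apply h4
      rw [hG]
      refine mem_filter.2 ⟨hk.1, h5.1, fun r hr h6 => h5.2 ⟨r, hr, h6⟩⟩
  have hc1 : (#((Icc (-(X : ℤ)) X).filter (fun k => ¬ WC f a b T N k)) : ℝ) ≤ (#E0 : ℝ) + ∑ r ∈ F, (#(Er r) : ℝ) + #D + #G := by
    have h1 := (card_le_card hsub).trans (card_union_le _ _)
    have h2 := card_union_le (E0 ∪ F.biUnion Er) D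
    have h3 := card_union_le E0 (F.biUnion Er)
    have h4 : #(F.biUnion Er) ≤ ∑ r ∈ F, #(Er r) := card_biUnion_le
    have h5 : #((Icc (-(X : ℤ)) X).filter (fun k => ¬ WC f a b T N k)) ≤ #E0 + ∑ r ∈ F, #(Er r) + #D + #G := by omega
    exact_mod_cast h5
  have hc2 : (#E0 : ℝ) ≤ X / L := by
    have := hX1 X hXa
    rw [pow_one, ← hL, ← hE0] at this
    exact this
  have hc3 : ∀ r ∈ F, (#(Er r) : ℝ) ≤ X / L := by
    intro r hr
    have := hXr r X (hXd r hr)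
    rw [pow_one, ← hL] at this
    rw [hEr]
    exact this
  have hc4 : (#E0 : ℝ) + ∑ r ∈ F, (#(Er r) : ℝ) ≤ ε / 4 * X := by
    have h1 : ∑ r ∈ F, (#(Er r) : ℝ) ≤ (#F : ℝ) * (X / L) := by
      refine (sum_le_sum hc3).trans (le_of_eq ?_)
      rw [sum_const, nsmul_eq_mul]
    have h2 : (1 + (#F : ℝ)) * (X / L) ≤ ε / 4 * X := by
      rw [← mul_div_assoc, div_le_iff₀ hL0]
      rw [div_le_iff₀ hε] at hL1
      nlinarith
    linarith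
  have hc5 : (#D : ℝ) ≤ ε / 4 * X := by
    have h1 := count_pow T' (f.eval 0) M X
    rw [← hD] at h1
    refine h1.trans ?_
    have h2 : (#T' : ℝ) * (2 * X / 2 ^ M) ≤ ε / 8 * X := by
      rw [div_lt_iff₀ hε] at hM
      have h3 : (0 : ℝ) < 2 ^ M := by positivity
      rw [← mul_div_assoc, div_le_iff₀ h3]
      nlinarith
    have h3 : 0 ≤ (ε / 16) * (1 + (R : ℝ)) + R := by positivity
    linarith
  have hc6 : (#G : ℝ) ≤ ε / 4 * X := by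
    rcases hPer with hs | hs
    · have h1 : G = ∅ := by
        rw [hG, filter_eq_empty_iff]
        intro k _ h
        exact h.1 hs
      rw [h1, card_empty, Nat.cast_zero]
      positivity
    · have h1 := count_exact F (f.eval 0) (ε / 16) R hR (by positivity) hs X
      have h2 : (#G : ℝ) ≤ (#((Icc (-(X : ℤ)) X).filter (fun k => ∀ r ∈ F, ¬ (((r : ℕ) : ℤ) ∣ f.eval 0 + k ∧ ¬ ((r : ℕ) : ℤ) ^ 2 ∣ f.eval 0 + k))) : ℝ) := by
        rw [hG]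
        exact_mod_cast card_le_card (fun k hk => by
          rw [mem_filter] at hk ⊢
          exact ⟨hk.1, hk.2.2⟩)
      refine h2.trans (h1.trans ?_)
      have h3 : (0 : ℝ) ≤ #T' := Nat.cast_nonneg _
      linarith
  linarith

end Pool.Agent.TH204.HP
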