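import Pool.Agent.W313.BMX.Alg

/-!
Squares and the splitting of quaternion algebras over the `p`-adic numbers: continuity.
-/

set_option autoImplicit false

namespace Pool.Agent.TH204.HP

open Polynomial
open Pool.Agent.W313.BMX (Splits splits_swap splits_comm splits_mul_sq)

/-- the equation of a conic and the splitting of the quaternion algebra -/
lemma conic_iff {F : Type} [Field F] [CharZero F] (a b : F) (ha : a ≠ 0) (hb : b ≠ 0) :
    (∃ y z : F, y ^ 2 - a * z ^ 2 = b) ↔ Splits a b := by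
  constructor
  · rintro ⟨y, z, h⟩
    exact ⟨z, 1, y, Or.inr (Or.inl one_ne_zero), by linear_combination h⟩
  · rintro ⟨x, y, z, h0, h⟩
    by_cases hy : y = 0
    · subst hy
      have hx : x ≠ 0 := by
        rintro rfl
        have : z = 0 := by
          have : z ^ 2 = 0 := by rw [h]; ring
          exact pow_eq_zero_iff (two_ne_zero) |>.1 this
        simp_all
      have hz : z ≠ 0 := by
        rintro rfl
        have : a * x ^ 2 = 0 := by linear_combination -h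
        rcases mul_eq_zero.1 this with h1 | h1
        · exact ha h1
        · exact hx (pow_eq_zero_iff (two_ne_zero) |>.1 h1)
      have haz : a = z ^ 2 / x ^ 2 := by
        rw [eq_div_iff (pow_ne_zero 2 hx)]
        linear_combination -h
      refine ⟨(b + 1) / 2, (b - 1) * x / (2 * z), ?_⟩
      rw [haz]
      field_simp
      ring
    · refine ⟨z / y, x / y, ?_⟩
      field_simp
      linear_combination h

section padic

variable {p : ℕ} [hp : Fact p.Prime]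

/-- a number near `1` is a square -/
lemma sq_near_one (e : ℤ_[p]) (he : ‖e‖ < ‖(2 : ℤ_[p])‖ ^ 2) : ∃ z : ℤ_[p], z ^ 2 = 1 + e := by
  have h := hensels_lemma (p := p) (R := ℤ_[p]) (F := X ^ 2 - C (1 + e)) (a := 1) (by
    simp only [map_sub, map_pow, aeval_X, aeval_C, derivative_sub, derivative_X_pow, derivative_C, sub_zero,
      map_mul, map_natCast, Algebra.algebraMap_self, RingHom.id_apply]
    norm_num
    exact he)
  obtain ⟨z, hz, -⟩ := h
  refine ⟨z, ?_⟩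
  simp only [map_sub, map_pow, aeval_X, aeval_C, Algebra.algebraMap_self, RingHom.id_apply] at hz
  linear_combination hz

lemma two_norm_le : ‖(2 : ℚ_[p])‖ ≤ 1 := by
  have := Padic.norm_int_le_one (p := p) 2
  exact_mod_cast this

lemma four_norm : ‖(4 : ℚ_[p])‖ = ‖(2 : ℚ_[p])‖ ^ 2 := by
  rw [← norm_pow]; norm_num

lemma four_norm_le : ‖(4 : ℚ_[p])‖ ≤ 1 := by
  rw [four_norm]
  exact pow_le_one₀ (norm_nonneg _) two_norm_le

/-- numbers near `y` differ from `y` by a square factor -/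
lemma sq_near (x y : ℚ_[p]) (hy : y ≠ 0) (h : ‖x - y‖ < ‖(4 : ℚ_[p])‖ * ‖y‖) : ∃ s : ℚ_[p], s ≠ 0 ∧ x = y * s ^ 2 := by
  obtain ⟨e, he⟩ : ∃ e, e = (x - y) / y := ⟨_, rfl⟩
  have hyn : 0 < ‖y‖ := norm_pos_iff.2 hy
  have he1 : ‖e‖ < ‖(4 : ℚ_[p])‖ := by
    rw [he, norm_div, div_lt_iff₀ hyn]
    exact h
  have he2 : ‖e‖ < 1 := he1.trans_le four_norm_le
  obtain ⟨e', he'⟩ : ∃ e' : ℤ_[p], (e' : ℚ_[p]) = e := ⟨⟨e, he2.le⟩, rfl⟩
  have he3 : ‖e'‖ < ‖(2 : ℤ_[p])‖ ^ 2 := by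
    have h2 : ‖(2 : ℤ_[p])‖ = ‖(2 : ℚ_[p])‖ := by
      rw [PadicInt.norm_def]
      rfl
    rw [h2, ← four_norm, PadicInt.norm_def, he']
    exact he1
  obtain ⟨z, hz⟩ := sq_near_one _ he3
  have hz' : (z : ℚ_[p]) ^ 2 = 1 + e := by
    have := congrArg (fun w : ℤ_[p] => (w : ℚ_[p])) hz
    simpa [he'] using this
  refine ⟨z, ?_, ?_⟩
  · intro h0
    rw [h0] at hz'
    have h1 : e = -1 := by linear_combination -hz'
    rw [h1, norm_neg, norm_one] at he2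
    exact lt_irrefl _ he2
  · rw [hz', he]
    field_simp
    ring

lemma splits_near (a x y : ℚ_[p]) (hy : y ≠ 0) (h : ‖x - y‖ < ‖(4 : ℚ_[p])‖ * ‖y‖) (hs : Splits a y) : Splits a x := by
  obtain ⟨s, hs0, hs1⟩ := sq_near x y hy h
  rw [hs1]
  exact splits_swap ((splits_mul_sq hs0).2 (splits_swap hs))

lemma norm_eq_of_near (x y : ℚ_[p]) (h : ‖x - y‖ < ‖y‖) : ‖x‖ = ‖y‖ := by
  have e : x = (x - y) + y := by ring
  rw [e]
  exact Padic.add_eq_max_of_ne h.ne |>.trans (max_eq_right h.le)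

/-- integer polynomials do not increase distances on the `p`-adic integers -/
lemma lip (f : ℤ[X]) (x y : ℚ_[p]) (hx : ‖x‖ ≤ 1) (hy : ‖y‖ ≤ 1) : ‖aeval x f - aeval y f‖ ≤ ‖x - y‖ := by
  obtain ⟨x', hx'⟩ : ∃ x' : ℤ_[p], (x' : ℚ_[p]) = x := ⟨⟨x, hx⟩, rfl⟩
  obtain ⟨y', hy'⟩ : ∃ y' : ℤ_[p], (y' : ℚ_[p]) = y := ⟨⟨y, hy⟩, rfl⟩
  have h1 : ∀ w : ℤ_[p], aeval (w : ℚ_[p]) f = ((aeval w f : ℤ_[p]) : ℚ_[p]) := by
    intro w
    exact aeval_algebraMap_apply ℚ_[p] w f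
  have h2 : x' - y' ∣ aeval x' f - aeval y' f := by
    have := sub_dvd_eval_sub x' y' (f.map (Int.castRingHom ℤ_[p]))
    rwa [eval_map, eval_map] at this
  obtain ⟨c, hc⟩ := h2
  rw [← hx', ← hy', h1, h1]
  have h3 : ((aeval x' f : ℤ_[p]) : ℚ_[p]) - ((aeval y' f : ℤ_[p]) : ℚ_[p]) = ((x' - y' : ℤ_[p]) : ℚ_[p]) * (c : ℚ_[p]) := by
    rw [← PadicInt.coe_sub, hc, PadicInt.coe_mul]
  rw [h3, norm_mul, PadicInt.coe_sub]
  exact mul_le_of_le_one_right (norm_nonneg _) c.2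

/-- approximation by natural numbers -/
lemma nat_near (x : ℚ_[p]) (hx : ‖x‖ ≤ 1) (E : ℕ) : ∃ r : ℕ, ‖x - r‖ ≤ (p : ℝ) ^ (-E : ℤ) := by
  obtain ⟨x', hx'⟩ : ∃ x' : ℤ_[p], (x' : ℚ_[p]) = x := ⟨⟨x, hx⟩, rfl⟩
  refine ⟨x'.appr E, ?_⟩
  have h := (PadicInt.norm_le_pow_iff_mem_span_pow _ E).2 (PadicInt.appr_spec E x')
  rw [PadicInt.norm_def] at h
  simpa [hx'] using h

end padic

end Pool.Agent.TH204.HP
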