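import Pool.Agent.TH204.QF.Q2
import Pool.Agent.TH204.HP.H2

/-!
Auxiliary polynomials, the Chinese remainder theorem.
-/

set_option autoImplicit false

namespace Pool.Agent.TH204.HP

open Finset Polynomial
open Pool.Agent.TH204.WR (rho)
open Pool.Agent.TH204.QF (rho_lt)

/-- the scaled polynomial -/
noncomputable def GG (f : ℤ[X]) (D : ℕ) : ℤ[X] := C ((D : ℤ) ^ f.natDegree) * scaleRoots f (D : ℤ)

lemma GG_aeval {F : Type} [Field F] [CharZero F] (f : ℤ[X]) (D : ℕ) (hD : D ≠ 0) (t : F) :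
    aeval ((D : F) * t) (GG f D) = (D : F) ^ (2 * f.natDegree) * aeval t f := by
  have h := scaleRoots_eval₂_mul (p := f) (algebraMap ℤ F) t (D : ℤ)
  unfold GG
  rw [map_mul, aeval_C]
  have e : aeval ((D : F) * t) (scaleRoots f (D : ℤ)) = eval₂ (algebraMap ℤ F) (algebraMap ℤ F (D : ℤ) * t) (scaleRoots f (D : ℤ)) := by
    rw [aeval_def]
    simp
  rw [e, h, aeval_def]
  simp only [algebraMap_int_eq, eq_intCast, Int.cast_pow, Int.cast_natCast]
  ring

lemma GG_natDegree (f : ℤ[X]) (D : ℕ) (hD : D ≠ 0) : (GG f D).natDegree = f.natDegree := by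
  unfold GG
  rw [natDegree_C_mul (pow_ne_zero _ (by exact_mod_cast hD)), natDegree_scaleRoots]

lemma GG_lead (f : ℤ[X]) (D : ℕ) : (GG f D).leadingCoeff = (D : ℤ) ^ f.natDegree * f.leadingCoeff := by
  unfold GG
  rw [leadingCoeff_mul, leadingCoeff_C, leadingCoeff_scaleRoots]

/-- the polynomial on a residue class -/
lemma exists_F (G : ℤ[X]) (hG : 1 ≤ G.natDegree) (M : ℕ) (hM : M ≠ 0) (u0 : ℤ) (c0 : ℕ) (hc : c0 ∣ M) :
    ∃ F : ℤ[X], F.natDegree = G.natDegree ∧ (c0 : ℤ) * F.leadingCoeff = G.leadingCoeff * (M : ℤ) ^ G.natDegree ∧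
      (∀ x : ℤ, (c0 : ℤ) * F.eval x = G.eval (u0 + M * x) - G.eval u0) ∧
      (∀ (x : ℤ) (p : ℕ), c0 * p ∣ M → (p : ℤ) ∣ F.eval x) := by
  obtain ⟨m, hm⟩ := hc
  have hM0 : (M : ℤ) ≠ 0 := by exact_mod_cast hM
  have hc0 : (c0 : ℤ) ≠ 0 := by
    intro h
    apply hM
    have : c0 = 0 := by exact_mod_cast h
    rw [hm, this, zero_mul]
  have h1 : C (M : ℤ) * X ∣ G.comp (C u0 + C (M : ℤ) * X) - C (G.eval u0) := by
    have h := sub_dvd_eval_sub (C u0 + C (M : ℤ) * X) (C u0) (G.map (C : ℤ →+* ℤ[X]))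
    rw [eval_map, eval_map] at h
    have e1 : (C u0 + C (M : ℤ) * X) - C u0 = C (M : ℤ) * X := by ring
    have e2 : eval₂ (C : ℤ →+* ℤ[X]) (C u0) G = C (G.eval u0) := by
      rw [eval₂_at_apply]
    rw [e1, e2] at h
    exact h
  obtain ⟨R, hR⟩ := h1
  have hlin : (C u0 + C (M : ℤ) * X).natDegree = 1 := by
    rw [add_comm]
    exact natDegree_linear hM0
  have hlinl : (C u0 + C (M : ℤ) * X).leadingCoeff = (M : ℤ) := by
    rw [add_comm]
    exact leadingCoeff_linear hM0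
  have hP : C (c0 : ℤ) * (C (m : ℤ) * (X * R)) = G.comp (C u0 + C (M : ℤ) * X) - C (G.eval u0) := by
    rw [hR, hm]
    push_cast
    rw [C_mul]
    ring
  have hdeg : (G.comp (C u0 + C (M : ℤ) * X)).natDegree = G.natDegree := by
    rw [natDegree_comp, hlin, mul_one]
  have hlead : (G.comp (C u0 + C (M : ℤ) * X)).leadingCoeff = G.leadingCoeff * (M : ℤ) ^ G.natDegree := by
    rw [leadingCoeff_comp (by rw [hlin]; norm_num), hlinl]
  have hdF : (C (m : ℤ) * (X * R)).natDegree = G.natDegree := by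
    have h := congrArg natDegree hP
    rw [natDegree_C_mul hc0, natDegree_sub_C, hdeg] at h
    exact h
  refine ⟨C (m : ℤ) * (X * R), hdF, ?_, ?_, ?_⟩
  · have h := congrArg (fun P : ℤ[X] => P.coeff G.natDegree) hP
    simp only [coeff_C_mul, coeff_sub] at h
    rw [coeff_C_of_ne_zero (by omega), sub_zero] at h
    have e1 : (G.comp (C u0 + C (M : ℤ) * X)).coeff G.natDegree = G.leadingCoeff * (M : ℤ) ^ G.natDegree := by
      rw [← hlead, leadingCoeff, hdeg]
    rw [e1] at h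
    rw [leadingCoeff, hdF, coeff_C_mul]
    exact h
  · intro x
    have h := congrArg (fun P : ℤ[X] => P.eval x) hP
    simp only [eval_mul, eval_C, eval_X, eval_sub, eval_comp, eval_add] at h
    simp only [eval_mul, eval_C, eval_X]
    exact h
  · intro x p hp
    have h1 : p ∣ m := by
      rw [hm] at hp
      have : c0 ≠ 0 := by
        intro h
        apply hc0
        exact_mod_cast h
      exact Nat.dvd_of_mul_dvd_mul_left (Nat.pos_of_ne_zero this) hp
    simp only [eval_mul, eval_C, eval_X]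
    exact Dvd.dvd.mul_right (by exact_mod_cast h1) _

/-- no local obstruction at a prime larger than the degree -/
lemma rho_lt_deg (F : ℤ[X]) (t : ℤ) (p : ℕ) (hp : p.Prime) (h1 : F.natDegree < p) (h2 : ¬ (p : ℤ) ∣ F.leadingCoeff)
    (h3 : 1 ≤ F.natDegree) : rho F t p < p := by
  haveI : Fact p.Prime := ⟨hp⟩
  apply rho_lt F t p hp
  by_contra hcon
  push Not at hcon
  have hmap : ((F + C t).map (Int.castRingHom (ZMod p))) = 0 := by
    apply eq_zero_of_natDegree_lt_card_of_eval_eq_zero' _ Finset.univ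
    · intro i _
      have h4 := hcon (i.val : ℤ)
      rw [← ZMod.intCast_zmod_eq_zero_iff_dvd] at h4
      rw [Polynomial.map_add, eval_add, Polynomial.map_C, eval_C]
      have h5 : (F.map (Int.castRingHom (ZMod p))).eval i = ((F.eval (i.val : ℤ) : ℤ) : ZMod p) := by
        have h6 := eval_intCast_map (Int.castRingHom (ZMod p)) F (i.val : ℤ)
        rw [Int.cast_natCast, ZMod.natCast_zmod_val] at h6
        rw [h6]
        simp
      rw [h5]
      push_cast at h4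
      exact h4
    · rw [Finset.card_univ, ZMod.card]
      refine lt_of_le_of_lt natDegree_map_le ?_
      rw [natDegree_add_C]
      exact h1
  have h7 : ((F + C t).map (Int.castRingHom (ZMod p))).coeff F.natDegree = 0 := by rw [hmap, coeff_zero]
  rw [coeff_map, coeff_add, coeff_C_of_ne_zero (by omega), add_zero, eq_intCast, ZMod.intCast_zmod_eq_zero_iff_dvd] at h7
  exact h2 h7

/-- the Chinese remainder theorem -/
lemma crt (T : Finset Nat.Primes) (E : ℕ) (r : Nat.Primes → ℕ) :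
    ∃ u : ℕ, u < ∏ p ∈ T, (p : ℕ) ^ E ∧ ∀ p ∈ T, (((p : ℕ) ^ E : ℕ) : ℤ) ∣ (u : ℤ) - r p := by
  obtain ⟨k, hk⟩ := Nat.chineseRemainderOfFinset r (fun p : Nat.Primes => (p : ℕ) ^ E) T
    (fun p _ => pow_ne_zero _ p.2.ne_zero) (by
      intro p _ q _ hpq
      exact Nat.Coprime.pow _ _ ((Nat.coprime_primes p.2 q.2).2 (fun h => hpq (Subtype.ext h))))
  have hM : 0 < ∏ p ∈ T, (p : ℕ) ^ E := prod_pos fun p _ => pow_pos p.2.pos _
  refine ⟨k % ∏ p ∈ T, (p : ℕ) ^ E, Nat.mod_lt _ hM, fun p hp => ?_⟩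
  have h1 : k % (∏ p ∈ T, (p : ℕ) ^ E) ≡ r p [MOD (p : ℕ) ^ E] := by
    refine Nat.ModEq.trans ?_ (hk p hp)
    exact (Nat.mod_modEq _ _).of_dvd (dvd_prod_of_mem (fun p : Nat.Primes => (p : ℕ) ^ E) hp)
  have h2 := (Nat.modEq_iff_dvd.1 h1.symm)
  exact h2

lemma prod_split (T : Finset Nat.Primes) (E : ℕ) (p : Nat.Primes) (hp : p ∈ T) :
    ∃ m : ℕ, ∏ q ∈ T, (q : ℕ) ^ E = (p : ℕ) ^ E * m ∧ Nat.Coprime p m := by
  classical
  refine ⟨∏ q ∈ T.erase p, (q : ℕ) ^ E, (mul_prod_erase T (fun q : Nat.Primes => (q : ℕ) ^ E) hp).symm, ?_⟩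
  apply Nat.Coprime.prod_right
  intro q hq
  rw [mem_erase] at hq
  exact Nat.Coprime.pow_right _ ((Nat.coprime_primes p.2 q.2).2 (fun h => hq.1 (Subtype.ext h.symm)))

lemma mem_of_dvd_prod (T : Finset Nat.Primes) (E : ℕ) (p : Nat.Primes) (h : (p : ℕ) ∣ ∏ q ∈ T, (q : ℕ) ^ E) : p ∈ T := by
  obtain ⟨q, hq, h1⟩ := (Prime.dvd_finset_prod_iff p.2.prime _).1 h
  have h2 := (Nat.prime_dvd_prime_iff_eq p.2 q.2).1 (p.2.dvd_of_dvd_pow h1)
  have : p = q := Subtype.ext h2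
  rw [this]
  exact hq

/-- the greatest common divisor -/
lemma gcd_facts (v : ℤ) (M : ℕ) (p E m : ℕ) (hp : p.Prime) (hM : M = p ^ E * m) (hM0 : M ≠ 0) (hv : ¬ ((p ^ E : ℕ) : ℤ) ∣ v) :
    Nat.gcd v.natAbs M * p ∣ M ∧ ¬ (p : ℤ) ∣ v / (Nat.gcd v.natAbs M : ℕ) := by
  obtain ⟨g, hg⟩ : ∃ g, g = Nat.gcd v.natAbs M := ⟨_, rfl⟩
  rw [← hg]
  have hgpos : 0 < g := by rw [hg]; exact Nat.gcd_pos_of_pos_right _ (Nat.pos_of_ne_zero hM0)
  obtain ⟨b, hb⟩ : g ∣ M := by rw [hg]; exact Nat.gcd_dvd_right _ _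
  obtain ⟨a, ha⟩ : g ∣ v.natAbs := by rw [hg]; exact Nat.gcd_dvd_left _ _
  have hcop : Nat.Coprime a b := by
    have h := hg
    rw [ha, hb, Nat.gcd_mul_left] at h
    exact Nat.eq_of_mul_eq_mul_left hgpos (by rw [mul_one]; exact h.symm)
  have hpb : p ∣ b := by
    by_contra hcon
    have h1 : p ^ E ∣ g := by
      have h2 : p ^ E ∣ g * b := by rw [← hb, hM]; exact dvd_mul_right _ _
      exact (Nat.Coprime.pow_left E ((Nat.Prime.coprime_iff_not_dvd hp).2 hcon)).dvd_of_dvd_mul_right h2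
    apply hv
    have h3 : p ^ E ∣ v.natAbs := by rw [ha]; exact h1.mul_right _
    exact Int.natCast_dvd.2 h3
  constructor
  · rw [hb]
    exact Nat.mul_dvd_mul_left _ hpb
  · intro h
    have hva : (v / (g : ℤ)).natAbs = a := by
      rw [Int.natAbs_ediv_of_dvd (Int.natCast_dvd.2 ⟨a, ha⟩), ha, Int.natAbs_natCast]
      exact Nat.mul_div_cancel_left _ hgpos
    have h1 : p ∣ a := by
      rw [← hva]
      exact Int.natCast_dvd.1 h
    have := Nat.eq_one_of_dvd_coprimes hcop h1 hpb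
    exact hp.one_lt.ne' this

end Pool.Agent.TH204.HP
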