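import Pool.Agent.TH204.HP.H3
import Pool.Agent.W174.HB.HM
import Pool.Agent.W351.HB.PF
import Pool.Agent.W335.BMX.Odd
import Pool.Agent.W215.HB.Bilo
import Pool.Agent.W864.HB.Bilt

/-!
The core: a prime value gives a rational point.
-/

set_option autoImplicit false

namespace Pool.Agent.TH204.HP

open Finset Polynomial
open Pool.Agent.W313.BMX (Splits splits_swap splits_comm splits_mul_sq)

instance fPrime (p : Nat.Primes) : Fact (p : ℕ).Prime := ⟨p.2⟩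

lemma aeval_int {F : Type} [Field F] (G : ℤ[X]) (u : ℤ) : aeval (u : F) G = ((G.eval u : ℤ) : F) := by
  have h := aeval_algebraMap_apply F u G
  simp only [algebraMap_int_eq, eq_intCast] at h
  rw [h]
  rfl

/-- the product formula without the condition -/
lemma pf1 : Pool.Agent.W313.HB.S_PF := Pool.Agent.W351.HB.PF.pf_ Pool.Agent.W215.HB.bilo_ Pool.Agent.W864.HBm.bilt_

lemma norm_D (T : Finset Nat.Primes) (N : ℕ) (p : Nat.Primes) (hp : p ∈ T) :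
    ‖((∏ q ∈ T, (q : ℕ) ^ N : ℕ) : ℚ_[(p : ℕ)])‖ = (((p : ℕ) : ℝ) ^ N)⁻¹ := by
  obtain ⟨m, hm, hcop⟩ := prod_split T N p hp
  rw [hm]
  push_cast
  rw [norm_mul, norm_pow, Padic.norm_p, inv_pow]
  have : ‖(m : ℚ_[(p : ℕ)])‖ = 1 := Padic.norm_natCast_eq_one_iff.2 hcop
  rw [this, mul_one]

lemma norm_four_gt (p : ℕ) [hp : Fact p.Prime] : ((p : ℝ) ^ 3)⁻¹ < ‖(4 : ℚ_[p])‖ := by
  have h := Padic.norm_int_le_pow_iff_dvd (p := p) 4 3
  have h2 : ¬ ((p ^ 3 : ℤ) ∣ 4) := by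
    intro h3
    have h4 : (p ^ 3 : ℤ) ≤ 4 := Int.le_of_dvd (by norm_num) h3
    have h5 : (2 : ℤ) ≤ p := by exact_mod_cast hp.out.two_le
    nlinarith [pow_le_pow_left₀ (by norm_num) h5 3]
  rw [← h, not_le] at h2
  have e : (p : ℝ) ^ (-((3 : ℕ) : ℤ)) = ((p : ℝ) ^ 3)⁻¹ := by rw [zpow_neg]; norm_cast
  rw [e] at h2
  exact_mod_cast h2

lemma splits_real (a w : ℝ) (h : 0 < a ∨ 0 < w) : Splits a w := by
  rcases h with h | h
  · exact ⟨1, 0, Real.sqrt a, Or.inl one_ne_zero, by rw [Real.sq_sqrt h.le]; ring⟩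
  · exact ⟨0, 1, Real.sqrt w, Or.inr (Or.inl one_ne_zero), by rw [Real.sq_sqrt h.le]; ring⟩

lemma core1 (f : ℤ[X]) (hd : 1 ≤ f.natDegree) (T : Finset Nat.Primes) (N E : ℕ) (hE : (2 * f.natDegree + 1) * N + 3 ≤ E)
    (A : Finset (ℤ × ℤ)) (hA : ∀ z ∈ A, z.1 ≠ 0 ∧ z.2 ≠ 0) (h2T : ∀ p : Nat.Primes, (p : ℕ) = 2 → p ∈ T)
    (hT : ∀ p : Nat.Primes, (∃ z ∈ A, ((p : ℕ) : ℤ) ∣ z.1 ∨ ((p : ℕ) : ℤ) ∣ z.2) → p ∈ T)
    (k : ℤ) (t : (p : Nat.Primes) → ℚ_[(p : ℕ)])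
    (ht2 : ∀ p ∈ T, (((p : ℕ) : ℝ) ^ N)⁻¹ ≤ ‖aeval (t p) f + (k : ℚ_[(p : ℕ)])‖)
    (ht1 : ∀ p ∈ T, ‖t p‖ ≤ ((p : ℕ) : ℝ) ^ N)
    (ht3 : ∀ p ∈ T, ∀ z ∈ A, Splits (z.1 : ℚ_[(p : ℕ)]) (z.2 * (aeval (t p) f + k)))
    (u : ℤ) (D : ℕ) (hD : D = ∏ p ∈ T, (p : ℕ) ^ N)
    (hu : ∀ p ∈ T, ‖(u : ℚ_[(p : ℕ)]) - D * t p‖ ≤ (((p : ℕ) : ℝ) ^ E)⁻¹)
    (c0 q : ℕ) (hq : q.Prime) (hc0 : ∀ p : Nat.Primes, (p : ℕ) ∣ c0 → p ∈ T) (hc00 : c0 ≠ 0)
    (hv : (GG f D).eval u + (D : ℤ) ^ (2 * f.natDegree) * k = (c0 : ℤ) * q)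
    (hreal : ∀ z ∈ A, z.1 < 0 → 0 < z.2) :
    ∃ s : ℚ, (∀ p ∈ T, ‖((s : ℚ) : ℚ_[(p : ℕ)]) - t p‖ ≤ (((p : ℕ) : ℝ) ^ N)⁻¹) ∧ aeval s f + (k : ℚ) ≠ 0 ∧
      ∀ z ∈ A, Splits (z.1 : ℚ) (z.2 * (aeval s f + k)) := by
  have hD0 : D ≠ 0 := by rw [hD]; exact prod_ne_zero_iff.2 fun p _ => pow_ne_zero _ p.2.ne_zero
  obtain ⟨d, hdd⟩ : ∃ d, d = f.natDegree := ⟨_, rfl⟩
  rw [← hdd] at hE hv hd
  -- the value
  have hval : ∀ (F : Type) [Field F] [CharZero F], (D : F) ^ (2 * d) * (aeval ((u : F) / D) f + k) = ((c0 : ℤ) * q : ℤ) := by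
    intro F _ _
    have hDF : (D : F) ≠ 0 := by exact_mod_cast hD0
    have h1 := GG_aeval f D hD0 ((u : F) / D)
    rw [mul_div_cancel₀ _ hDF, aeval_int, ← hdd] at h1
    rw [← hv]
    push_cast
    rw [h1]
    ring
  have hne : ((c0 : ℤ) * q : ℤ) ≠ 0 := by
    have h1 : (c0 : ℤ) ≠ 0 := by exact_mod_cast hc00
    have h2 : (q : ℤ) ≠ 0 := by exact_mod_cast hq.ne_zero
    exact mul_ne_zero h1 h2
  have hDn : ∀ p ∈ T, ‖(D : ℚ_[(p : ℕ)])‖ = (((p : ℕ) : ℝ) ^ N)⁻¹ := by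
    intro p hp
    rw [hD]
    exact norm_D T N p hp
  have hpos : ∀ p : Nat.Primes, (0 : ℝ) < ((p : ℕ) : ℝ) := fun p => by exact_mod_cast p.2.pos
  have hone : ∀ p : Nat.Primes, (1 : ℝ) ≤ ((p : ℕ) : ℝ) := fun p => by exact_mod_cast p.2.one_lt.le
  refine ⟨(u : ℚ) / D, ?_, ?_, ?_⟩
  · intro p hp
    have hDF : (D : ℚ_[(p : ℕ)]) ≠ 0 := by exact_mod_cast hD0
    have e : (((u : ℚ) / D : ℚ) : ℚ_[(p : ℕ)]) - t p = ((u : ℚ_[(p : ℕ)]) - D * t p) / D := by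
      push_cast
      field_simp
    rw [e, norm_div, hDn p hp, div_inv_eq_mul]
    calc ‖(u : ℚ_[(p : ℕ)]) - D * t p‖ * ((p : ℕ) : ℝ) ^ N ≤ (((p : ℕ) : ℝ) ^ E)⁻¹ * ((p : ℕ) : ℝ) ^ N :=
          mul_le_mul_of_nonneg_right (hu p hp) (by have := hpos p; positivity)
      _ ≤ (((p : ℕ) : ℝ) ^ (2 * N))⁻¹ * ((p : ℕ) : ℝ) ^ N := by
          apply mul_le_mul_of_nonneg_right _ (by have := hpos p; positivity)
          apply inv_anti₀ (by have := hpos p; positivity)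
          apply pow_le_pow_right₀ (hone p)
          nlinarith
      _ = (((p : ℕ) : ℝ) ^ N)⁻¹ := by
          have := (hpos p).ne'
          rw [pow_mul', pow_two]
          field_simp
  · intro h0
    have h1 := hval ℚ
    rw [h0, mul_zero] at h1
    exact hne (by exact_mod_cast h1.symm)
  · intro z hz
    obtain ⟨w, hw⟩ : ∃ w : ℤ, w = z.2 * ((c0 : ℤ) * q) := ⟨_, rfl⟩
    have hw0 : w ≠ 0 := by rw [hw]; exact mul_ne_zero (hA z hz).2 hne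
    have hwr : Splits ((z.1 : ℤ) : ℝ) ((w : ℤ) : ℝ) := by
      apply splits_real
      rcases lt_or_gt_of_ne (hA z hz).1 with h | h
      · right
        have h1 := hreal z hz h
        have h2 : 0 < w := by
          rw [hw]
          have : 0 < (c0 : ℤ) * q := by
            have h3 : 0 < c0 := Nat.pos_of_ne_zero hc00
            have h4 := hq.pos
            positivity
          positivity
        exact_mod_cast h2
      · left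
        exact_mod_cast h
    -- the primes in `T`
    have hpT : ∀ p ∈ T, Splits (z.1 : ℚ_[((p : Nat.Primes) : ℕ)]) ((w : ℤ) : ℚ_[(p : ℕ)]) := by
      intro p hp
      obtain ⟨y, hy⟩ : ∃ y : ℚ_[(p : ℕ)], y = (D : ℚ_[(p : ℕ)]) ^ (2 * d) * (aeval (t p) f + k) := ⟨_, rfl⟩
      have hfk := ht2 p hp
      have hppos := hpos p
      have hfk0 : aeval (t p) f + (k : ℚ_[(p : ℕ)]) ≠ 0 := by
        intro h0
        rw [h0, norm_zero] at hfk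
        have : (0 : ℝ) < (((p : ℕ) : ℝ) ^ N)⁻¹ := by positivity
        linarith
      have hDF : (D : ℚ_[(p : ℕ)]) ≠ 0 := by exact_mod_cast hD0
      have hy0 : y ≠ 0 := by rw [hy]; exact mul_ne_zero (pow_ne_zero _ hDF) hfk0
      have hyn : (((p : ℕ) : ℝ) ^ ((2 * d + 1) * N))⁻¹ ≤ ‖y‖ := by
        rw [hy, norm_mul, norm_pow, hDn p hp]
        calc (((p : ℕ) : ℝ) ^ ((2 * d + 1) * N))⁻¹ = ((((p : ℕ) : ℝ) ^ N)⁻¹) ^ (2 * d) * (((p : ℕ) : ℝ) ^ N)⁻¹ := by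
              rw [inv_pow, ← mul_inv, ← pow_mul, ← pow_add]
              congr 2
              ring
          _ ≤ _ := mul_le_mul_of_nonneg_left hfk (by positivity)
      have hyx : ‖(((c0 : ℤ) * q : ℤ) : ℚ_[(p : ℕ)]) - y‖ ≤ (((p : ℕ) : ℝ) ^ E)⁻¹ := by
        have h1 : (((c0 : ℤ) * q : ℤ) : ℚ_[(p : ℕ)]) = aeval ((u : ℤ) : ℚ_[(p : ℕ)]) (GG f D) + (D : ℚ_[(p : ℕ)]) ^ (2 * d) * k := by
          rw [aeval_int, ← hv]
          push_cast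
          ring
        have h2 : y = aeval ((D : ℚ_[(p : ℕ)]) * t p) (GG f D) + (D : ℚ_[(p : ℕ)]) ^ (2 * d) * k := by
          rw [hy, GG_aeval f D hD0, ← hdd]
          ring
        rw [h1, h2, add_sub_add_right_eq_sub]
        refine (lip _ _ _ (Padic.norm_int_le_one u) ?_).trans (hu p hp)
        rw [norm_mul, hDn p hp]
        calc (((p : ℕ) : ℝ) ^ N)⁻¹ * ‖t p‖ ≤ (((p : ℕ) : ℝ) ^ N)⁻¹ * ((p : ℕ) : ℝ) ^ N :=
              mul_le_mul_of_nonneg_left (ht1 p hp) (by positivity)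
          _ = 1 := inv_mul_cancel₀ (by positivity)
      have hlt : ‖(((c0 : ℤ) * q : ℤ) : ℚ_[(p : ℕ)]) - y‖ < ‖(4 : ℚ_[(p : ℕ)])‖ * ‖y‖ := by
        refine hyx.trans_lt ?_
        calc (((p : ℕ) : ℝ) ^ E)⁻¹ ≤ (((p : ℕ) : ℝ) ^ ((2 * d + 1) * N + 3))⁻¹ := by
              apply inv_anti₀ (by positivity)
              exact pow_le_pow_right₀ (hone p) hE
          _ = (((p : ℕ) : ℝ) ^ 3)⁻¹ * (((p : ℕ) : ℝ) ^ ((2 * d + 1) * N))⁻¹ := by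
              rw [pow_add, mul_inv, mul_comm]
          _ < ‖(4 : ℚ_[(p : ℕ)])‖ * (((p : ℕ) : ℝ) ^ ((2 * d + 1) * N))⁻¹ :=
              mul_lt_mul_of_pos_right (norm_four_gt p) (by positivity)
          _ ≤ ‖(4 : ℚ_[(p : ℕ)])‖ * ‖y‖ := mul_le_mul_of_nonneg_left hyn (norm_nonneg _)
      have hz2 : ((z.2 : ℤ) : ℚ_[(p : ℕ)]) ≠ 0 := by exact_mod_cast (hA z hz).2
      have h3 := splits_near (z.1 : ℚ_[(p : ℕ)]) (((z.2 : ℤ) : ℚ_[(p : ℕ)]) * (((c0 : ℤ) * q : ℤ) : ℚ_[(p : ℕ)]))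
        (((z.2 : ℤ) : ℚ_[(p : ℕ)]) * y) (mul_ne_zero hz2 hy0) (by
          rw [← mul_sub, norm_mul, norm_mul]
          have := norm_pos_iff.2 hz2
          calc ‖((z.2 : ℤ) : ℚ_[(p : ℕ)])‖ * ‖(((c0 : ℤ) * q : ℤ) : ℚ_[(p : ℕ)]) - y‖ <
              ‖((z.2 : ℤ) : ℚ_[(p : ℕ)])‖ * (‖(4 : ℚ_[(p : ℕ)])‖ * ‖y‖) := mul_lt_mul_of_pos_left hlt this
            _ = _ := by ring) (by
          have h4 := ht3 p hp z hz
          have e : ((z.2 : ℤ) : ℚ_[(p : ℕ)]) * y = (((z.2 : ℤ) : ℚ_[(p : ℕ)]) * (aeval (t p) f + k)) * ((D : ℚ_[(p : ℕ)]) ^ d) ^ 2 := by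
            rw [hy]
            ring
          rw [e]
          exact splits_swap ((splits_mul_sq (pow_ne_zero _ hDF)).2 (splits_swap h4)))
      rw [hw]
      push_cast
      push_cast at h3
      exact h3
    -- the other primes
    have hpq : ∀ (p : ℕ) [Fact p.Prime], p ≠ q → Splits ((z.1 : ℤ) : ℚ_[p]) ((w : ℤ) : ℚ_[p]) := by
      intro p hp hpq
      by_cases hpT' : (⟨p, hp.out⟩ : Nat.Primes) ∈ T
      · exact hpT ⟨p, hp.out⟩ hpT'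
      · have hp2 : p ≠ 2 := fun h => hpT' (h2T ⟨p, hp.out⟩ h)
        apply Pool.Agent.W335.BMX.odd2 p hp2
        · intro h
          exact hpT' (hT ⟨p, hp.out⟩ ⟨z, hz, Or.inl h⟩)
        · intro h
          rw [hw] at h
          have hpp := Nat.prime_iff_prime_int.1 hp.out
          rcases hpp.dvd_or_dvd h with h1 | h1
          · exact hpT' (hT ⟨p, hp.out⟩ ⟨z, hz, Or.inr h1⟩)
          · rcases hpp.dvd_or_dvd h1 with h2 | h2
            · exact hpT' (hc0 ⟨p, hp.out⟩ (by exact_mod_cast h2))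
            · have h3 : p ∣ q := by exact_mod_cast h2
              exact hpq ((Nat.prime_dvd_prime_iff_eq hp.out hq).1 h3)
    haveI : Fact q.Prime := ⟨hq⟩
    have hqq := pf1 z.1 w (hA z hz).1 hw0 q hwr hpq
    have hall : ∀ (p : ℕ) [Fact p.Prime], Splits ((z.1 : ℤ) : ℚ_[p]) ((w : ℤ) : ℚ_[p]) := by
      intro p hp
      by_cases h : p = q
      · subst h
        exact hqq
      · exact hpq p h
    have hQ := Pool.Agent.W174.HB.hm_ z.1 w (hA z hz).1 hw0 hwr hall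
    have hDF : (D : ℚ) ≠ 0 := by exact_mod_cast hD0
    have e : ((w : ℤ) : ℚ) = ((z.2 : ℚ) * (aeval ((u : ℚ) / D) f + k)) * ((D : ℚ) ^ d) ^ 2 := by
      have h1 := hval ℚ
      rw [hw]
      push_cast
      push_cast at h1
      rw [← h1]
      ring
    rw [e] at hQ
    exact splits_swap ((splits_mul_sq (pow_ne_zero _ hDF)).1 (splits_swap hQ))

end Pool.Agent.TH204.HP
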