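import Pool.Agent.TH204.HP.H1
import Pool.Agent.TH204.HP.H4

/-!
The theorem for a positive leading coefficient or large `k`.
-/

set_option autoImplicit false

namespace Pool.Agent.TH204.HP

open Finset Polynomial Filter
open Pool.Agent.TH204.WR (rho evt_log_ge evt_log_pow)
open Pool.Agent.TH204.QF (rho_lt)
open Pool.Agent.W313.BMX (Splits splits_swap splits_comm splits_mul_sq)

/-- the finite set of primes contains the primes which matter -/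
def BigT (f : ℤ[X]) (A : Finset (ℤ × ℤ)) (T : Finset Nat.Primes) : Prop :=
  ∀ p : Nat.Primes, (p : ℕ) ≤ f.natDegree ∨ ((p : ℕ) : ℤ) ∣ f.leadingCoeff ∨ (∃ z ∈ A, ((p : ℕ) : ℤ) ∣ z.1 ∨ ((p : ℕ) : ℤ) ∣ z.2) → p ∈ T

/-- the local conditions of level `N` -/
def Loc (f : ℤ[X]) (A : Finset (ℤ × ℤ)) (T : Finset Nat.Primes) (N : ℕ) (k : ℤ) (t : (p : Nat.Primes) → ℚ_[(p : ℕ)]) : Prop :=
  ∀ p ∈ T, ‖t p‖ ≤ ((p : ℕ) : ℝ) ^ N ∧ (((p : ℕ) : ℝ) ^ N)⁻¹ ≤ ‖aeval (t p) f + (k : ℚ_[(p : ℕ)])‖ ∧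
    ∀ z ∈ A, Splits (z.1 : ℚ_[(p : ℕ)]) (z.2 * (aeval (t p) f + k))

/-- the rational point -/
def Glob (f : ℤ[X]) (A : Finset (ℤ × ℤ)) (T : Finset Nat.Primes) (N : ℕ) (k : ℤ) (t : (p : Nat.Primes) → ℚ_[(p : ℕ)]) : Prop :=
  ∃ s : ℚ, (∀ p ∈ T, ‖((s : ℚ) : ℚ_[(p : ℕ)]) - t p‖ ≤ (((p : ℕ) : ℝ) ^ N)⁻¹) ∧ aeval s f + (k : ℚ) ≠ 0 ∧
      ∀ z ∈ A, Splits (z.1 : ℚ) (z.2 * (aeval s f + k))

lemma inv_zpow (p E : ℕ) : (p : ℝ) ^ (-(E : ℤ)) = ((p : ℝ) ^ E)⁻¹ := by rw [zpow_neg]; norm_cast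

/-- the value at a nearby integer -/
lemma val_near (f : ℤ[X]) (T : Finset Nat.Primes) (N E : ℕ) (hE : (2 * f.natDegree + 1) * N + 3 ≤ E)
    (k : ℤ) (t : (p : Nat.Primes) → ℚ_[(p : ℕ)]) (p : Nat.Primes) (hp : p ∈ T)
    (ht2 : (((p : ℕ) : ℝ) ^ N)⁻¹ ≤ ‖aeval (t p) f + (k : ℚ_[(p : ℕ)])‖)
    (ht1 : ‖t p‖ ≤ ((p : ℕ) : ℝ) ^ N) (u : ℤ) (D : ℕ) (hD : D = ∏ p ∈ T, (p : ℕ) ^ N)
    (hu : ‖(u : ℚ_[(p : ℕ)]) - D * t p‖ ≤ (((p : ℕ) : ℝ) ^ E)⁻¹) :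
    ¬ (((p : ℕ) ^ E : ℕ) : ℤ) ∣ (GG f D).eval u + (D : ℤ) ^ (2 * f.natDegree) * k := by
  have hD0 : D ≠ 0 := by rw [hD]; exact prod_ne_zero_iff.2 fun p _ => pow_ne_zero _ p.2.ne_zero
  obtain ⟨d, hdd⟩ : ∃ d, d = f.natDegree := ⟨_, rfl⟩
  rw [← hdd] at hE ⊢
  have hDn : ‖(D : ℚ_[(p : ℕ)])‖ = (((p : ℕ) : ℝ) ^ N)⁻¹ := by
    rw [hD]
    exact norm_D T N p hp
  have hpos : (0 : ℝ) < ((p : ℕ) : ℝ) := by exact_mod_cast p.2.pos
  have hone : (1 : ℝ) < ((p : ℕ) : ℝ) := by exact_mod_cast p.2.one_lt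
  obtain ⟨y, hy⟩ : ∃ y : ℚ_[(p : ℕ)], y = (D : ℚ_[(p : ℕ)]) ^ (2 * d) * (aeval (t p) f + k) := ⟨_, rfl⟩
  obtain ⟨v, hv⟩ : ∃ v : ℤ, v = (GG f D).eval u + (D : ℤ) ^ (2 * d) * k := ⟨_, rfl⟩
  have hyn : (((p : ℕ) : ℝ) ^ ((2 * d + 1) * N))⁻¹ ≤ ‖y‖ := by
    rw [hy, norm_mul, norm_pow, hDn]
    calc (((p : ℕ) : ℝ) ^ ((2 * d + 1) * N))⁻¹ = ((((p : ℕ) : ℝ) ^ N)⁻¹) ^ (2 * d) * (((p : ℕ) : ℝ) ^ N)⁻¹ := by
          rw [inv_pow, ← mul_inv, ← pow_mul, ← pow_add]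
          congr 2
          ring
      _ ≤ _ := mul_le_mul_of_nonneg_left ht2 (by positivity)
  have hyx : ‖((v : ℤ) : ℚ_[(p : ℕ)]) - y‖ ≤ (((p : ℕ) : ℝ) ^ E)⁻¹ := by
    have h1 : ((v : ℤ) : ℚ_[(p : ℕ)]) = aeval ((u : ℤ) : ℚ_[(p : ℕ)]) (GG f D) + (D : ℚ_[(p : ℕ)]) ^ (2 * d) * k := by
      rw [aeval_int, hv]
      push_cast
      ring
    have h2 : y = aeval ((D : ℚ_[(p : ℕ)]) * t p) (GG f D) + (D : ℚ_[(p : ℕ)]) ^ (2 * d) * k := by
      rw [hy, GG_aeval f D hD0, ← hdd]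
      ring
    rw [h1, h2, add_sub_add_right_eq_sub]
    refine (lip _ _ _ (Padic.norm_int_le_one u) ?_).trans hu
    rw [norm_mul, hDn]
    calc (((p : ℕ) : ℝ) ^ N)⁻¹ * ‖t p‖ ≤ (((p : ℕ) : ℝ) ^ N)⁻¹ * ((p : ℕ) : ℝ) ^ N :=
          mul_le_mul_of_nonneg_left ht1 (by positivity)
      _ = 1 := inv_mul_cancel₀ (by positivity)
  have hlt : (((p : ℕ) : ℝ) ^ E)⁻¹ < ‖y‖ := by
    refine lt_of_lt_of_le ?_ hyn
    apply inv_strictAnti₀ (by positivity)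
    exact pow_lt_pow_right₀ hone (by omega)
  rw [← hv]
  intro hdiv
  have h1 := (Padic.norm_int_le_pow_iff_dvd (p := (p : ℕ)) v E).2 (by exact_mod_cast hdiv)
  rw [inv_zpow] at h1
  have h2 := norm_eq_of_near _ y (hyx.trans_lt hlt)
  rw [h2] at h1
  exact absurd h1 (not_le.2 hlt)

/-- the choice of the residue class -/
lemma exists_u0 (T : Finset Nat.Primes) (N E D M : ℕ) (t : (p : Nat.Primes) → ℚ_[(p : ℕ)])
    (ht1 : ∀ p ∈ T, ‖t p‖ ≤ ((p : ℕ) : ℝ) ^ N) (hD : D = ∏ p ∈ T, (p : ℕ) ^ N) (hM : M = ∏ p ∈ T, (p : ℕ) ^ E) :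
    ∃ u0 : ℕ, u0 < M ∧ ∀ w : ℤ, ∀ p ∈ T, ‖(((u0 : ℤ) + M * w : ℤ) : ℚ_[(p : ℕ)]) - D * t p‖ ≤ (((p : ℕ) : ℝ) ^ E)⁻¹ := by
  have hr : ∀ p : Nat.Primes, ∃ r : ℕ, p ∈ T → ‖(D : ℚ_[(p : ℕ)]) * t p - r‖ ≤ (((p : ℕ) : ℝ) ^ E)⁻¹ := by
    intro p
    by_cases hp : p ∈ T
    · have hpos : (0 : ℝ) < ((p : ℕ) : ℝ) := by exact_mod_cast p.2.pos
      obtain ⟨r, hr⟩ := nat_near ((D : ℚ_[(p : ℕ)]) * t p) (by
        rw [norm_mul, hD, norm_D T N p hp]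
        calc (((p : ℕ) : ℝ) ^ N)⁻¹ * ‖t p‖ ≤ (((p : ℕ) : ℝ) ^ N)⁻¹ * ((p : ℕ) : ℝ) ^ N :=
              mul_le_mul_of_nonneg_left (ht1 p hp) (by positivity)
          _ = 1 := inv_mul_cancel₀ (by positivity)) E
      rw [inv_zpow] at hr
      exact ⟨r, fun _ => hr⟩
    · exact ⟨0, fun h => absurd h hp⟩
  choose r hr using hr
  obtain ⟨u0, h1, h2⟩ := crt T E r
  refine ⟨u0, by rw [hM]; exact h1, fun w p hp => ?_⟩
  have h3 : (((p : ℕ) ^ E : ℕ) : ℤ) ∣ ((u0 : ℤ) + M * w) - r p := by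
    have h4 : (((p : ℕ) ^ E : ℕ) : ℤ) ∣ (M : ℤ) := by
      rw [hM]
      exact_mod_cast dvd_prod_of_mem (fun p : Nat.Primes => (p : ℕ) ^ E) hp
    have e : ((u0 : ℤ) + M * w) - r p = ((u0 : ℤ) - r p) + M * w := by ring
    rw [e]
    exact dvd_add (h2 p hp) (h4.mul_right _)
  have h5 := (Padic.norm_int_le_pow_iff_dvd (p := (p : ℕ)) (((u0 : ℤ) + M * w) - r p) E).2 (by exact_mod_cast h3)
  rw [inv_zpow] at h5
  have e : (((u0 : ℤ) + M * w : ℤ) : ℚ_[(p : ℕ)]) - D * t p =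
      ((((u0 : ℤ) + M * w) - r p : ℤ) : ℚ_[(p : ℕ)]) - ((D : ℚ_[(p : ℕ)]) * t p - r p) := by
    push_cast
    ring
  rw [e]
  refine (Padic.nonarchimedean _ _).trans ?_ |>.trans' (by rw [sub_eq_add_neg])
  rw [norm_neg]
  exact max_le h5 (hr p hp)

theorem thm0 (f : ℤ[X]) (hd : 2 ≤ f.natDegree) (A : Finset (ℤ × ℤ)) (hA : ∀ z ∈ A, z.1 ≠ 0 ∧ z.2 ≠ 0)
    (T : Finset Nat.Primes) (hT : BigT f A T) (N U V : ℕ) :
    ∃ X0 : ℕ, ∀ X : ℕ, X0 ≤ X → ∃ Bad : Finset ℤ, (#Bad : ℝ) ≤ X / Real.log X ^ U ∧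
      ∀ k : ℤ, |k| ≤ X → k ∉ Bad → (0 < f.leadingCoeff ∨ (X : ℝ) / Real.log X ^ V ≤ k) →
      (∀ z ∈ A, z.1 < 0 → 0 < z.2) → ∀ t : (p : Nat.Primes) → ℚ_[(p : ℕ)], Loc f A T N k t → Glob f A T N k t := by
  classical
  obtain ⟨d, hdd⟩ : ∃ d, d = f.natDegree := ⟨_, rfl⟩
  obtain ⟨E, hE⟩ : ∃ E, E = (2 * f.natDegree + 1) * N + 3 := ⟨_, rfl⟩
  obtain ⟨D, hD⟩ : ∃ D, D = ∏ p ∈ T, (p : ℕ) ^ N := ⟨_, rfl⟩
  obtain ⟨M, hM⟩ : ∃ M, M = ∏ p ∈ T, (p : ℕ) ^ E := ⟨_, rfl⟩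
  have hD0 : D ≠ 0 := by rw [hD]; exact prod_ne_zero_iff.2 fun p _ => pow_ne_zero _ p.2.ne_zero
  have hM0 : M ≠ 0 := by rw [hM]; exact prod_ne_zero_iff.2 fun p _ => pow_ne_zero _ p.2.ne_zero
  have hGd : (GG f D).natDegree = d := by rw [GG_natDegree f D hD0, hdd]
  -- the polynomials
  have hF : ∀ i : ℕ × ℕ, ∃ F : ℤ[X], i.2 ∣ M → F.natDegree = d ∧
      (i.2 : ℤ) * F.leadingCoeff = (GG f D).leadingCoeff * (M : ℤ) ^ d ∧
      (∀ x : ℤ, (i.2 : ℤ) * F.eval x = (GG f D).eval ((i.1 : ℤ) + M * x) - (GG f D).eval (i.1 : ℤ)) ∧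
      (∀ (x : ℤ) (p : ℕ), i.2 * p ∣ M → (p : ℤ) ∣ F.eval x) := by
    intro i
    by_cases h : i.2 ∣ M
    · obtain ⟨F, h1, h2, h3, h4⟩ := exists_F (GG f D) (by rw [hGd]; omega) M hM0 (i.1 : ℤ) i.2 h
      rw [hGd] at h1 h2
      exact ⟨F, fun _ => ⟨h1, h2, h3, h4⟩⟩
    · exact ⟨0, fun h' => absurd h' h⟩
  choose F hF using hF
  obtain ⟨I, hI⟩ : ∃ I : Finset (ℕ × ℕ), I = range M ×ˢ M.divisors := ⟨_, rfl⟩
  have hIm : ∀ i ∈ I, i.2 ∣ M := fun i hi => by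
    rw [hI, mem_product] at hi
    exact Nat.dvd_of_mem_divisors hi.2
  obtain ⟨n, hn⟩ : ∃ n, d = n + 1 := ⟨d - 1, by omega⟩
  have hex : ∀ i : ℕ × ℕ, ∃ X1 : ℕ, i ∈ I → ∀ x : ℕ, X1 ≤ x → ∃ Bad : Finset ℤ, (#Bad : ℝ) ≤ x / Real.log x ^ (U + 1) ∧
    ∀ t : ℤ, |t| ≤ x → t ∉ Bad → (∀ p : ℕ, p.Prime → rho (F i) t p < p) →
      (0 < (F i).leadingCoeff ∨ (x : ℝ) / Real.log x ^ (V + 1) ≤ t) →
      ∃ (w : ℤ) (q : ℕ), q.Prime ∧ (F i).eval w + t = q := by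
    intro i
    by_cases hi : i ∈ I
    · obtain ⟨X1, h1⟩ := exists_prime n (by omega) (F i) (by rw [(hF i (hIm i hi)).1, hn]) (U + 1) (V + 1)
      exact ⟨X1, fun _ => h1⟩
    · exact ⟨0, fun h => absurd h hi⟩
  choose X1 hX1 using hex
  obtain ⟨K, hK⟩ : ∃ K : ℕ, K = D ^ (2 * d) + ∑ u ∈ range M, ((GG f D).eval (u : ℤ)).natAbs := ⟨_, rfl⟩
  have hK1 : 1 ≤ K := by
    rw [hK]
    have : 1 ≤ D ^ (2 * d) := Nat.one_le_pow _ _ (Nat.pos_of_ne_zero hD0)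
    omega
  have hM1 : 1 ≤ M := Nat.pos_of_ne_zero hM0
  have hev : ∀ᶠ X : ℕ in atTop, (((#I : ℕ) : ℝ) * K + 2 * K * M + 1 ≤ Real.log X) ∧ Real.log X ^ (V + 1) ≤ (X : ℝ) ^ (1 : ℝ) := by
    filter_upwards [evt_log_ge (((#I : ℕ) : ℝ) * K + 2 * K * M + 1), evt_log_pow (V + 1) 1 (by norm_num)] with x h1 h2
    exact ⟨h1, h2⟩
  obtain ⟨X2, hX2⟩ := eventually_atTop.1 hev
  refine ⟨max (max (∑ i ∈ I, X1 i) X2) 1, fun X hX => ?_⟩
  have hXa : ∀ i ∈ I, X1 i ≤ K * X := fun i hi => by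
    calc X1 i ≤ ∑ i ∈ I, X1 i := single_le_sum (fun _ _ => Nat.zero_le _) hi
      _ ≤ X := (le_trans (le_max_left _ _) (le_max_left _ _)).trans hX
      _ ≤ K * X := Nat.le_mul_of_pos_left _ hK1
  obtain ⟨hL, hLX⟩ := hX2 X ((le_trans (le_max_right _ _) (le_max_left _ _)).trans hX)
  have hXone : 1 ≤ X := (le_max_right _ _).trans hX
  clear hX2 hX
  have hXr : (1 : ℝ) ≤ X := by exact_mod_cast hXone
  have hKr : (1 : ℝ) ≤ K := by exact_mod_cast hK1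
  have hMr : (1 : ℝ) ≤ M := by exact_mod_cast hM1
  obtain ⟨x, hx⟩ : ∃ x : ℕ, x = K * X := ⟨_, rfl⟩
  have hxX : (X : ℝ) ≤ x := by
    rw [hx]
    push_cast
    nlinarith
  obtain ⟨L, hLd⟩ : ∃ L, L = Real.log X := ⟨_, rfl⟩
  rw [← hLd] at hL hLX ⊢
  rw [Real.rpow_one] at hLX
  have hL1 : 1 ≤ L := by
    have h1 : 0 ≤ ((#I : ℕ) : ℝ) * K := by positivity
    have h2 : (0 : ℝ) ≤ 2 * K * M := by positivity
    linarith
  have hL0 : 0 < L := by linarith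
  have hLx : L ≤ Real.log x := by
    rw [hLd]
    exact Real.log_le_log (by linarith) hxX
  have hbad : ∀ i : ℕ × ℕ, ∃ Bad : Finset ℤ, i ∈ I → (#Bad : ℝ) ≤ x / Real.log x ^ (U + 1) ∧
    ∀ t : ℤ, |t| ≤ x → t ∉ Bad → (∀ p : ℕ, p.Prime → rho (F i) t p < p) →
      (0 < (F i).leadingCoeff ∨ (x : ℝ) / Real.log x ^ (V + 1) ≤ t) →
      ∃ (w : ℤ) (q : ℕ), q.Prime ∧ (F i).eval w + t = q := by
    intro i
    by_cases hi : i ∈ I
    · obtain ⟨B, hB⟩ := hX1 i hi x (by rw [hx]; exact hXa i hi)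
      exact ⟨B, fun _ => hB⟩
    · exact ⟨∅, fun h => absurd h hi⟩
  choose B hB using hbad
  obtain ⟨vv, hvv⟩ : ∃ vv : ℕ → ℤ → ℤ, vv = fun (u : ℕ) (k : ℤ) => (GG f D).eval ((u : ℕ) : ℤ) + (D : ℤ) ^ (2 * d) * k := ⟨_, rfl⟩
  have hvinj : ∀ u k k', vv u k = vv u k' → k = k' := by
    intro u k k' h
    rw [hvv] at h
    have h1 : (D : ℤ) ^ (2 * d) * k = (D : ℤ) ^ (2 * d) * k' := by simpa using h
    exact mul_left_cancel₀ (pow_ne_zero _ (by exact_mod_cast hD0)) h1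
  refine ⟨(Icc (-(X : ℤ)) X).filter (fun k => ∃ i ∈ I, (i.2 : ℤ) ∣ vv i.1 k ∧ vv i.1 k / (i.2 : ℤ) ∈ B i), ?_, ?_⟩
  · -- the number of exceptions
    have h1 : (Icc (-(X : ℤ)) X).filter (fun k => ∃ i ∈ I, (i.2 : ℤ) ∣ vv i.1 k ∧ vv i.1 k / (i.2 : ℤ) ∈ B i) ⊆
        I.biUnion (fun i => (Icc (-(X : ℤ)) X).filter (fun k => (i.2 : ℤ) ∣ vv i.1 k ∧ vv i.1 k / (i.2 : ℤ) ∈ B i)) := by
      intro k hk
      rw [mem_filter] at hk
      obtain ⟨i, hi, h2⟩ := hk.2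
      rw [mem_biUnion]
      exact ⟨i, hi, mem_filter.2 ⟨hk.1, h2⟩⟩
    have h2 : ∀ i ∈ I, #((Icc (-(X : ℤ)) X).filter (fun k => (i.2 : ℤ) ∣ vv i.1 k ∧ vv i.1 k / (i.2 : ℤ) ∈ B i)) ≤ #(B i) := by
      intro i hi
      have hi0 : (i.2 : ℤ) ≠ 0 := by
        intro h
        have h' : i.2 = 0 := by exact_mod_cast h
        have := hIm i hi
        rw [h'] at this
        exact hM0 (Nat.eq_zero_of_zero_dvd this)
      apply card_le_card_of_injOn (fun k => vv i.1 k / (i.2 : ℤ))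
      · intro k hk
        rw [mem_coe, mem_filter] at hk
        exact hk.2.2
      · intro k hk k' hk' h
        rw [mem_coe, mem_filter] at hk hk'
        simp only at h
        apply hvinj i.1
        rw [← Int.ediv_mul_cancel hk.2.1, ← Int.ediv_mul_cancel hk'.2.1, h]
    have h3 : (#((Icc (-(X : ℤ)) X).filter (fun k => ∃ i ∈ I, (i.2 : ℤ) ∣ vv i.1 k ∧ vv i.1 k / (i.2 : ℤ) ∈ B i)) : ℝ) ≤
        ∑ i ∈ I, (#(B i) : ℝ) := by
      have := (card_le_card h1).trans (card_biUnion_le.trans (sum_le_sum h2))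
      exact_mod_cast this
    refine h3.trans ?_
    calc ∑ i ∈ I, (#(B i) : ℝ) ≤ ∑ i ∈ I, (x : ℝ) / L ^ (U + 1) := by
          apply sum_le_sum
          intro i hi
          refine ((hB i hi).1).trans ?_
          apply div_le_div_of_nonneg_left (Nat.cast_nonneg _) (by positivity)
          exact pow_le_pow_left₀ hL0.le hLx _
      _ = ((#I : ℕ) : ℝ) * K * X / L ^ (U + 1) := by
          rw [sum_const, nsmul_eq_mul, hx]
          push_cast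
          ring
      _ ≤ L * X / L ^ (U + 1) := by
          apply div_le_div_of_nonneg_right _ (by positivity)
          apply mul_le_mul_of_nonneg_right _ (by positivity)
          have h2 : (0 : ℝ) ≤ 2 * K * M := by positivity
          linarith
      _ = X / L ^ U := by
          rw [pow_succ]
          field_simp
  · intro k hk hkB hcase hreal t hloc
    obtain ⟨u0, hu0M, hu0⟩ := exists_u0 T N E D M t (fun p hp => (hloc p hp).1) hD hM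
    obtain ⟨v0, hv0⟩ : ∃ v0 : ℤ, v0 = vv u0 k := ⟨_, rfl⟩
    have hv0e : v0 = (GG f D).eval (u0 : ℤ) + (D : ℤ) ^ (2 * d) * k := by rw [hv0, hvv]
    obtain ⟨c0, hc0⟩ : ∃ c0 : ℕ, c0 = Nat.gcd v0.natAbs M := ⟨_, rfl⟩
    have hc0M : c0 ∣ M := by rw [hc0]; exact Nat.gcd_dvd_right _ _
    have hc0v : (c0 : ℤ) ∣ v0 := by rw [hc0]; exact Int.natCast_dvd.2 (Nat.gcd_dvd_left _ _)
    have hc00 : c0 ≠ 0 := by
      rw [hc0]
      exact (Nat.gcd_pos_of_pos_right _ (Nat.pos_of_ne_zero hM0)).ne'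
    have hiI : (u0, c0) ∈ I := by
      rw [hI, mem_product]
      exact ⟨mem_range.2 hu0M, Nat.mem_divisors.2 ⟨hc0M, hM0⟩⟩
    obtain ⟨hFd, hFl, hFe, hFp⟩ := hF (u0, c0) hc0M
    simp only at hFl hFe hFp
    have hkN : v0 / (c0 : ℤ) ∉ B (u0, c0) := by
      intro h
      apply hkB
      rw [mem_filter, mem_Icc]
      refine ⟨abs_le.1 hk, (u0, c0), hiI, ?_, ?_⟩
      · simp only
        rw [← hv0]
        exact hc0v
      · simp only
        rw [← hv0]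
        exact h
    have hc0pos : (0 : ℤ) < c0 := by exact_mod_cast Nat.pos_of_ne_zero hc00
    have hGK : |(GG f D).eval (u0 : ℤ)| + (D : ℤ) ^ (2 * d) ≤ K := by
      rw [hK]
      push_cast
      have h1 : ((GG f D).eval (u0 : ℤ)).natAbs ≤ ∑ u ∈ range M, ((GG f D).eval (u : ℤ)).natAbs :=
        single_le_sum (f := fun u : ℕ => ((GG f D).eval (u : ℤ)).natAbs) (fun _ _ => Nat.zero_le _) (mem_range.2 hu0M)
      have h2 : (((GG f D).eval (u0 : ℤ)).natAbs : ℤ) ≤ ((∑ u ∈ range M, ((GG f D).eval (u : ℤ)).natAbs : ℕ) : ℤ) := by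
        exact_mod_cast h1
      rw [Int.natCast_natAbs] at h2
      push_cast at h2
      linarith
    have hDk : (1 : ℤ) ≤ (D : ℤ) ^ (2 * d) := one_le_pow₀ (by exact_mod_cast Nat.pos_of_ne_zero hD0)
    have hkh : |v0 / (c0 : ℤ)| ≤ (x : ℤ) := by
      have h1 : |v0 / (c0 : ℤ)| ≤ |v0| := by
        obtain ⟨b, hb⟩ := hc0v
        rw [hb, Int.mul_ediv_cancel_left _ hc0pos.ne', abs_mul, abs_of_pos hc0pos]
        exact le_mul_of_one_le_left (abs_nonneg _) (by linarith)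
      have h2 : |v0| ≤ |(GG f D).eval (u0 : ℤ)| + (D : ℤ) ^ (2 * d) * |k| := by
        rw [hv0e]
        refine (abs_add_le _ _).trans ?_
        rw [abs_mul, abs_of_pos (show 0 < (D : ℤ) ^ (2 * d) by linarith)]
      have h3 : (1 : ℤ) ≤ X := by exact_mod_cast hXone
      have h4 := abs_nonneg ((GG f D).eval (u0 : ℤ))
      rw [hx]
      push_cast
      nlinarith
    have hrho : ∀ p : ℕ, p.Prime → rho (F (u0, c0)) (v0 / (c0 : ℤ)) p < p := by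
      intro p hp
      by_cases hpT : (⟨p, hp⟩ : Nat.Primes) ∈ T
      · -- a prime in `T`
        obtain ⟨hl1, hl2, -⟩ := hloc _ hpT
        have h1 := val_near f T N E (le_of_eq hE.symm) k t ⟨p, hp⟩ hpT hl2 hl1 (u0 : ℤ) D hD (by
          have := hu0 0 ⟨p, hp⟩ hpT
          simpa using this)
        rw [← hdd, ← hv0e] at h1
        obtain ⟨m, hm, -⟩ := prod_split T E ⟨p, hp⟩ hpT
        obtain ⟨h2, h3⟩ := gcd_facts v0 M p E m hp (by rw [hM]; exact hm) hM0 h1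
        rw [← hc0] at h2 h3
        apply rho_lt _ _ _ hp
        refine ⟨0, fun h4 => h3 ?_⟩
        exact (Int.dvd_add_right (hFp 0 p h2)).1 h4
      · -- another prime
        have hnb : ¬ ((p ≤ f.natDegree) ∨ (p : ℤ) ∣ f.leadingCoeff ∨ (∃ z ∈ A, (p : ℤ) ∣ z.1 ∨ (p : ℤ) ∣ z.2)) :=
          fun h => hpT (hT ⟨p, hp⟩ h)
        push Not at hnb
        apply rho_lt_deg _ _ _ hp (by rw [hFd, hdd]; exact hnb.1) _ (by rw [hFd]; omega)
        intro h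
        have h1 : (p : ℤ) ∣ (GG f D).leadingCoeff * (M : ℤ) ^ d := by
          rw [← hFl]
          exact h.mul_left _
        rw [GG_lead] at h1
        have hpp := Nat.prime_iff_prime_int.1 hp
        rcases hpp.dvd_or_dvd h1 with h2 | h2
        · rcases hpp.dvd_or_dvd h2 with h3 | h3
          · have h4 := hpp.dvd_of_dvd_pow h3
            apply hpT
            apply mem_of_dvd_prod T N ⟨p, hp⟩
            rw [← hD]
            exact_mod_cast h4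
          · exact hnb.2.1 h3
        · have h4 := hpp.dvd_of_dvd_pow h2
          apply hpT
          apply mem_of_dvd_prod T E ⟨p, hp⟩
          rw [← hM]
          exact_mod_cast h4
    have hside : 0 < (F (u0, c0)).leadingCoeff ∨ (x : ℝ) / Real.log x ^ (V + 1) ≤ ((v0 / (c0 : ℤ) : ℤ) : ℝ) := by
      rcases hcase with h | h
      · left
        have h1 : 0 < (c0 : ℤ) * (F (u0, c0)).leadingCoeff := by
          rw [hFl, GG_lead]
          have hDpos : (0 : ℤ) < D := by exact_mod_cast Nat.pos_of_ne_zero hD0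
          have hMpos : (0 : ℤ) < M := by exact_mod_cast Nat.pos_of_ne_zero hM0
          positivity
        exact (mul_pos_iff_of_pos_left hc0pos).1 h1
      · right
        obtain ⟨b, hb⟩ := hc0v
        rw [hb, Int.mul_ediv_cancel_left _ hc0pos.ne']
        have h1 : ((c0 : ℤ) : ℝ) * b = (((GG f D).eval (u0 : ℤ) : ℤ) : ℝ) + (D : ℝ) ^ (2 * d) * k := by
          have := hb.symm.trans hv0e
          exact_mod_cast this
        have h2 : |(((GG f D).eval (u0 : ℤ) : ℤ) : ℝ)| + (D : ℝ) ^ (2 * d) ≤ K := by exact_mod_cast hGK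
        have h3 : (1 : ℝ) ≤ (D : ℝ) ^ (2 * d) := by exact_mod_cast hDk
        have h4 : (c0 : ℝ) ≤ M := by
          have := Nat.le_of_dvd (Nat.pos_of_ne_zero hM0) hc0M
          exact_mod_cast this
        have h5 : (1 : ℝ) ≤ c0 := by exact_mod_cast Nat.pos_of_ne_zero hc00
        have hk0 : (0 : ℝ) ≤ k := le_trans (by positivity) h
        have h6 : (k : ℝ) - K ≤ (c0 : ℝ) * b := by
          have h7 := (abs_le.1 (show |(((GG f D).eval (u0 : ℤ) : ℤ) : ℝ)| ≤ K by linarith)).1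
          have h8 : (k : ℝ) ≤ (D : ℝ) ^ (2 * d) * k := le_mul_of_one_le_left hk0 h3
          have h9 : ((c0 : ℤ) : ℝ) = (c0 : ℝ) := by norm_cast
          rw [h9] at h1
          rw [h1]
          linarith
        have hLV : (0 : ℝ) < L ^ V := by positivity
        have h10 : (x : ℝ) / Real.log x ^ (V + 1) ≤ K * X / L ^ (V + 1) := by
          rw [hx]
          push_cast
          rw [hx] at hLx
          push_cast at hLx
          apply div_le_div_of_nonneg_left (by positivity) (by positivity)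
          exact pow_le_pow_left₀ hL0.le hLx _
        refine h10.trans ?_
        -- `K X / L ^ (V + 1) ≤ b`
        have h11 : (M : ℝ) * (K * X / L ^ (V + 1)) ≤ (k : ℝ) / 2 := by
          have e : (M : ℝ) * (K * X / L ^ (V + 1)) = (X / L ^ V) * (K * M / L) := by
            rw [pow_succ]
            field_simp
          rw [e]
          have h12 : (K : ℝ) * M / L ≤ 1 / 2 := by
            rw [div_le_div_iff₀ hL0 (by norm_num)]
            have : 0 ≤ ((#I : ℕ) : ℝ) * K := mul_nonneg (Nat.cast_nonneg _) (Nat.cast_nonneg _)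
            linarith
          calc (X : ℝ) / L ^ V * (K * M / L) ≤ X / L ^ V * (1 / 2) := mul_le_mul_of_nonneg_left h12 (by positivity)
            _ ≤ k * (1 / 2) := mul_le_mul_of_nonneg_right h (by norm_num)
            _ = (k : ℝ) / 2 := by ring
        have h13 : (K : ℝ) ≤ (k : ℝ) / 2 := by
          have h14 : L ≤ X / L ^ V := by
            rw [le_div_iff₀ hLV, ← pow_succ']
            exact hLX
          have h15 : 2 * (K : ℝ) ≤ 2 * K * M := le_mul_of_one_le_right (by positivity) hMr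
          have : 0 ≤ ((#I : ℕ) : ℝ) * K := mul_nonneg (Nat.cast_nonneg _) (Nat.cast_nonneg _)
          linarith
        have hpos1 : (0 : ℝ) ≤ K * X / L ^ (V + 1) := by positivity
        have h16 : (c0 : ℝ) * (K * X / L ^ (V + 1)) ≤ c0 * b := by
          calc (c0 : ℝ) * (K * X / L ^ (V + 1)) ≤ M * (K * X / L ^ (V + 1)) := mul_le_mul_of_nonneg_right h4 hpos1
            _ ≤ (k : ℝ) - K := by linarith
            _ ≤ _ := h6
        exact le_of_mul_le_mul_left h16 (by linarith)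
    obtain ⟨w, q, hq, hwq⟩ := (hB (u0, c0) hiI).2 (v0 / (c0 : ℤ)) hkh hkN hrho hside
    refine core1 f (by omega) T N E (le_of_eq hE.symm) A hA (fun p hp => hT p (Or.inl (by omega)))
      (fun p hp => hT p (Or.inr (Or.inr hp))) k t (fun p hp => (hloc p hp).2.1) (fun p hp => (hloc p hp).1)
      (fun p hp => (hloc p hp).2.2) ((u0 : ℤ) + M * w) D hD (hu0 w) c0 q hq ?_ hc00 ?_ hreal
    · intro p hp
      apply mem_of_dvd_prod T E p
      rw [← hM]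
      exact hp.trans hc0M
    · rw [← hdd, ← hwq, mul_add, hFe w, Int.mul_ediv_cancel' hc0v, hv0e]
      ring

end Pool.Agent.TH204.HP
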