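import Pool.Agent.TH204.HP.H5

/-!
All signs.
-/

set_option autoImplicit false

namespace Pool.Agent.TH204.HP

open Finset Polynomial Filter
open Pool.Agent.TH204.WR (rho evt_log_ge evt_log_pow)
open Pool.Agent.W313.BMX (Splits splits_swap splits_comm splits_mul_sq)

lemma aeval_comp_neg {F : Type} [Field F] (f : ℤ[X]) (t : F) : aeval (-t) (f.comp (-X)) = aeval t f := by
  rw [aeval_comp]
  simp

lemma comp_neg_natDegree (f : ℤ[X]) : (f.comp (-X)).natDegree = f.natDegree := by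
  rw [natDegree_comp]
  simp

lemma comp_neg_lead (f : ℤ[X]) : (f.comp (-X)).leadingCoeff = f.leadingCoeff * (-1) ^ f.natDegree := by
  rw [leadingCoeff_comp (by simp)]
  simp

/-- a polynomial of even degree with negative leading coefficient is bounded above -/
lemma bdd (f : ℤ[X]) (hd : 1 ≤ f.natDegree) (he : Even f.natDegree) (hl : f.leadingCoeff < 0) :
    ∃ K0 : ℕ, ∀ r : ℝ, aeval r f ≤ K0 := by
  have key : ∀ g : ℤ[X], 1 ≤ g.natDegree → g.leadingCoeff < 0 → ∃ R : ℝ, ∀ x, R ≤ x → aeval x g ≤ 0 := by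
    intro g hg1 hg2
    have hinj : Function.Injective (Int.castRingHom ℝ) := Int.cast_injective
    have h := Polynomial.tendsto_atBot_of_leadingCoeff_nonpos (g.map (Int.castRingHom ℝ)) (by
      rw [degree_map_eq_of_injective hinj]
      exact natDegree_pos_iff_degree_pos.1 (by omega)) (by
      rw [leadingCoeff_map_of_injective hinj, eq_intCast]
      exact_mod_cast hg2.le)
    obtain ⟨R, hR⟩ := eventually_atTop.1 (h.eventually (eventually_le_atBot 0))
    refine ⟨R, fun x hx => ?_⟩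
    have h1 := hR x hx
    rw [eval_map] at h1
    exact h1
  obtain ⟨R1, h1⟩ := key f hd hl
  obtain ⟨R2, h2⟩ := key (f.comp (-X)) (by rw [comp_neg_natDegree]; exact hd) (by
    rw [comp_neg_lead, he.neg_one_pow, mul_one]; exact hl)
  obtain ⟨C, hC⟩ := (isCompact_Icc (a := -R2) (b := R1)).exists_bound_of_continuousOn (f := fun r : ℝ => aeval r f)
    (Polynomial.continuous_aeval f).continuousOn
  obtain ⟨K0, hK0⟩ := exists_nat_ge (max C 0)
  refine ⟨K0, fun r => ?_⟩
  rcases le_total R1 r with h | h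
  · exact (h1 r h).trans (Nat.cast_nonneg _)
  · rcases le_total r (-R2) with h' | h'
    · have h3 := h2 (-r) (by linarith)
      rw [aeval_comp_neg] at h3
      exact h3.trans (Nat.cast_nonneg _)
    · have h3 := hC r ⟨h', h⟩
      rw [Real.norm_eq_abs] at h3
      exact (le_abs_self _).trans (h3.trans ((le_max_left _ _).trans hK0))

theorem thm1 (f : ℤ[X]) (hd : 2 ≤ f.natDegree) (A : Finset (ℤ × ℤ)) (hA : ∀ z ∈ A, z.1 ≠ 0 ∧ z.2 ≠ 0)
    (T : Finset Nat.Primes) (hT : BigT f A T) (N U : ℕ) :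
    ∃ X0 : ℕ, ∀ X : ℕ, X0 ≤ X → ∃ Bad : Finset ℤ, (#Bad : ℝ) ≤ X / Real.log X ^ U ∧
      ∀ k : ℤ, |k| ≤ X → k ∉ Bad → (∃ r : ℝ, 0 < aeval r f + k) →
      (∀ z ∈ A, z.1 < 0 → 0 < z.2) → ∀ t : (p : Nat.Primes) → ℚ_[(p : ℕ)], Loc f A T N k t → Glob f A T N k t := by
  classical
  have hf0 : f.leadingCoeff ≠ 0 := by
    rw [Ne, leadingCoeff_eq_zero]
    rintro rfl
    simp at hd
  rcases lt_or_gt_of_ne hf0 with hl | hl
  · rcases Nat.even_or_odd f.natDegree with he | ho
    · -- even degree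
      obtain ⟨X1, h1⟩ := thm0 f hd A hA T hT N (U + 1) (U + 1)
      obtain ⟨K0, hK0⟩ := bdd f (by omega) he hl
      obtain ⟨X2, hX2⟩ := eventually_atTop.1 ((evt_log_ge ((K0 : ℝ) + 4)).and (evt_log_pow (U + 1) 1 (by norm_num)))
      refine ⟨max X1 X2, fun X hX => ?_⟩
      obtain ⟨Bad, hB1, hB2⟩ := h1 X ((le_max_left _ _).trans hX)
      obtain ⟨hL, hLX⟩ := hX2 X ((le_max_right _ _).trans hX)
      rw [Real.rpow_one] at hLX
      obtain ⟨L, hLd⟩ : ∃ L, L = Real.log X := ⟨_, rfl⟩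
      rw [← hLd] at hL hLX hB1 hB2 ⊢
      have hL0 : 0 < L := by
        have : (0 : ℝ) ≤ K0 := Nat.cast_nonneg _
        linarith
      obtain ⟨J, hJ⟩ : ∃ J : ℕ, J = ⌈(X : ℝ) / L ^ (U + 1)⌉₊ := ⟨_, rfl⟩
      have hJ1 : (X : ℝ) / L ^ (U + 1) ≤ J := by rw [hJ]; exact Nat.le_ceil _
      have hJ2 : (J : ℝ) ≤ X / L ^ (U + 1) + 1 := by
        rw [hJ]
        exact (Nat.ceil_lt_add_one (by positivity)).le
      refine ⟨Bad ∪ Ioo (-(K0 : ℤ)) J, ?_, ?_⟩
      · have h2 : #(Bad ∪ Ioo (-(K0 : ℤ)) J) ≤ #Bad + (J + K0) := by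
          refine (card_union_le _ _).trans ?_
          rw [Int.card_Ioo]
          have : ((J : ℤ) - -(K0 : ℤ) - 1).toNat ≤ J + K0 := by omega
          omega
        have h3 : (#(Bad ∪ Ioo (-(K0 : ℤ)) J) : ℝ) ≤ (#Bad : ℝ) + (J + K0) := by exact_mod_cast h2
        refine h3.trans ?_
        have h4 : 1 ≤ (X : ℝ) / L ^ (U + 1) := by
          rw [le_div_iff₀ (by positivity), one_mul]
          exact hLX
        have h5 : (X : ℝ) / L ^ U = L * (X / L ^ (U + 1)) := by
          rw [pow_succ]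
          field_simp
        rw [h5]
        have hK00 : (0 : ℝ) ≤ K0 := Nat.cast_nonneg _
        nlinarith
      · intro k hk hkB hr hreal t hloc
        rw [mem_union, not_or, mem_Ioo] at hkB
        obtain ⟨r, hr⟩ := hr
        have h2 : -(K0 : ℤ) < k := by
          have h3 := hK0 r
          have h4 : -(K0 : ℝ) < k := by linarith
          exact_mod_cast h4
        have h3 : (J : ℤ) ≤ k := by
          by_contra hcon
          exact hkB.2 ⟨h2, not_le.1 hcon⟩
        refine hB2 k hk hkB.1 (Or.inr (hJ1.trans (by exact_mod_cast h3))) hreal t hloc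
    · -- odd degree
      obtain ⟨X1, h1⟩ := thm0 (f.comp (-X)) (by rw [comp_neg_natDegree]; exact hd) A hA T (by
        intro p hp
        apply hT p
        rw [comp_neg_natDegree, comp_neg_lead, ho.neg_one_pow, mul_neg_one, dvd_neg] at hp
        exact hp) N U 0
      refine ⟨X1, fun X hX => ?_⟩
      obtain ⟨Bad, hB1, hB2⟩ := h1 X hX
      refine ⟨Bad, hB1, fun k hk hkB _ hreal t hloc => ?_⟩
      obtain ⟨s, hs1, hs2, hs3⟩ := hB2 k hk hkB (Or.inl (by
        rw [comp_neg_lead, ho.neg_one_pow, mul_neg_one]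
        linarith)) hreal (fun p => -t p) (by
        intro p hp
        obtain ⟨h2, h3, h4⟩ := hloc p hp
        simp only [aeval_comp_neg, norm_neg]
        exact ⟨h2, h3, h4⟩)
      have e : aeval (-s) f = aeval s (f.comp (-Polynomial.X)) := by
        rw [← aeval_comp_neg, neg_neg]
      refine ⟨-s, ?_, ?_, ?_⟩
      · intro p hp
        have h2 := hs1 p hp
        have e2 : (((-s : ℚ)) : ℚ_[(p : ℕ)]) - t p = -(((s : ℚ) : ℚ_[(p : ℕ)]) - -t p) := by
          push_cast
          ring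
        rw [e2, norm_neg]
        exact h2
      · rw [e]
        exact hs2
      · rw [e]
        exact hs3
  · obtain ⟨X1, h1⟩ := thm0 f hd A hA T hT N U 0
    refine ⟨X1, fun X hX => ?_⟩
    obtain ⟨Bad, hB1, hB2⟩ := h1 X hX
    exact ⟨Bad, hB1, fun k hk hkB _ hreal t hloc => hB2 k hk hkB (Or.inl hl) hreal t hloc⟩

theorem thm2 (f : ℤ[X]) (hd : 2 ≤ f.natDegree) (A : Finset (ℤ × ℤ)) (hA : ∀ z ∈ A, z.1 ≠ 0 ∧ z.2 ≠ 0)
    (T : Finset Nat.Primes) (hT : BigT f A T) (N U : ℕ) :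
    ∃ X0 : ℕ, ∀ X : ℕ, X0 ≤ X → ∃ Bad : Finset ℤ, (#Bad : ℝ) ≤ X / Real.log X ^ U ∧
      ∀ k : ℤ, |k| ≤ X → k ∉ Bad →
      (∃ r : ℝ, aeval r f + (k : ℝ) ≠ 0 ∧ ∀ z ∈ A, z.1 < 0 → 0 < (z.2 : ℝ) * (aeval r f + k)) →
      ∀ t : (p : Nat.Primes) → ℚ_[(p : ℕ)], Loc f A T N k t → Glob f A T N k t := by
  classical
  obtain ⟨X1, h1⟩ := thm1 f hd A hA T hT N (U + 1)
  obtain ⟨A', hA'⟩ : ∃ A' : Finset (ℤ × ℤ), A' = A.image (fun z => (z.1, -z.2)) := ⟨_, rfl⟩
  have hmem : ∀ z ∈ A', (z.1, -z.2) ∈ A := by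
    intro z hz
    rw [hA', mem_image] at hz
    obtain ⟨y, hy, rfl⟩ := hz
    simpa using hy
  have hmem' : ∀ z ∈ A, (z.1, -z.2) ∈ A' := by
    intro z hz
    rw [hA', mem_image]
    exact ⟨z, hz, rfl⟩
  obtain ⟨X2, h2⟩ := thm1 (-f) (by rw [natDegree_neg]; exact hd) A' (by
    intro z hz
    have := hA _ (hmem z hz)
    simpa using this) T (by
    intro p hp
    apply hT p
    rw [natDegree_neg, leadingCoeff_neg, dvd_neg] at hp
    rcases hp with h | h | ⟨z, hz, h⟩
    · exact Or.inl h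
    · exact Or.inr (Or.inl h)
    · refine Or.inr (Or.inr ⟨_, hmem z hz, ?_⟩)
      simpa using h) N (U + 1)
  obtain ⟨X3, hX3⟩ := eventually_atTop.1 (evt_log_ge 2)
  refine ⟨max (max X1 X2) X3, fun X hX => ?_⟩
  obtain ⟨B1, hB1, hC1⟩ := h1 X ((le_trans (le_max_left _ _) (le_max_left _ _)).trans hX)
  obtain ⟨B2, hB2, hC2⟩ := h2 X ((le_trans (le_max_right _ _) (le_max_left _ _)).trans hX)
  have hL := hX3 X ((le_max_right _ _).trans hX)
  refine ⟨B1 ∪ B2.image (fun k => -k), ?_, ?_⟩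
  · have h3 : #(B1 ∪ B2.image (fun k => -k)) ≤ #B1 + #B2 :=
      (card_union_le _ _).trans (Nat.add_le_add_left card_image_le _)
    have h4 : (#(B1 ∪ B2.image (fun k => -k)) : ℝ) ≤ (#B1 : ℝ) + #B2 := by exact_mod_cast h3
    refine h4.trans ?_
    have h5 : (X : ℝ) / Real.log X ^ U = Real.log X * (X / Real.log X ^ (U + 1)) := by
      have : Real.log X ≠ 0 := by linarith
      rw [pow_succ]
      field_simp
    rw [h5]
    have h6 : 0 ≤ (X : ℝ) / Real.log X ^ (U + 1) := le_trans (Nat.cast_nonneg _) hB1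
    nlinarith
  · intro k hk hkB hr t hloc
    rw [mem_union, not_or] at hkB
    obtain ⟨r, hr0, hr1⟩ := hr
    rcases lt_or_gt_of_ne hr0 with h | h
    · -- negative values
      have hkB2 : -k ∉ B2 := by
        intro h3
        exact hkB.2 (mem_image.2 ⟨-k, h3, neg_neg k⟩)
      obtain ⟨s, hs1, hs2, hs3⟩ := hC2 (-k) (by rw [abs_neg]; exact hk) hkB2 ⟨r, by
          rw [map_neg]
          push_cast
          linarith⟩ (by
          intro z hz hz1
          have h3 := hr1 _ (hmem z hz) hz1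
          simp only at h3
          push_cast at h3
          have h4 : (0 : ℝ) < z.2 := by nlinarith
          exact_mod_cast h4) t (by
          intro p hp
          obtain ⟨h3, h4, h5⟩ := hloc p hp
          refine ⟨h3, ?_, ?_⟩
          · have e : aeval (t p) (-f) + ((-k : ℤ) : ℚ_[(p : ℕ)]) = -(aeval (t p) f + (k : ℚ_[(p : ℕ)])) := by
              rw [map_neg]
              push_cast
              ring
            rw [e, norm_neg]
            exact h4
          · intro z hz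
            have h6 := h5 _ (hmem z hz)
            have e : (z.2 : ℚ_[(p : ℕ)]) * (aeval (t p) (-f) + ((-k : ℤ) : ℚ_[(p : ℕ)])) =
                ((-z.2 : ℤ) : ℚ_[(p : ℕ)]) * (aeval (t p) f + (k : ℚ_[(p : ℕ)])) := by
              rw [map_neg]
              push_cast
              ring
            rw [e]
            exact h6)
      have e : aeval s (-f) + ((-k : ℤ) : ℚ) = -(aeval s f + (k : ℚ)) := by
        rw [map_neg]
        push_cast
        ring
      refine ⟨s, hs1, ?_, ?_⟩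
      · rw [e] at hs2
        exact fun h0 => hs2 (by rw [h0, neg_zero])
      · intro z hz
        have h6 := hs3 _ (hmem' z hz)
        simp only [e] at h6
        have e2 : ((-z.2 : ℤ) : ℚ) * -(aeval s f + (k : ℚ)) = (z.2 : ℚ) * (aeval s f + (k : ℚ)) := by
          push_cast
          ring
        rw [e2] at h6
        exact h6
    · -- positive values
      refine hC1 k hk hkB.1 ⟨r, h⟩ (fun z hz hz1 => ?_) t hloc
      have h3 := hr1 z hz hz1
      have h4 : (0 : ℝ) < z.2 := (mul_pos_iff_of_pos_right h).1 h3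
      exact_mod_cast h4

end Pool.Agent.TH204.HP
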