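import Pool.Agent.TH204.HP.H6

/-!
Almost all `k` which are locally soluble at `p` have a `p`-adic point of bounded level.
-/

set_option autoImplicit false

namespace Pool.Agent.TH204.HP

open Finset Polynomial Filter Topology
open Pool.Agent.W313.BMX (Splits splits_swap splits_comm splits_mul_sq)

section padic

variable {p : ℕ} [hp : Fact p.Prime]

/-- a `p`-adic point with coordinate `t` -/
def Sp (A : Finset (ℤ × ℤ)) (b : ℚ_[p]) : Prop := ∀ z ∈ A, Splits (z.1 : ℚ_[p]) (z.2 * b)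

lemma Sp.sq {A : Finset (ℤ × ℤ)} {b : ℚ_[p]} (h : Sp A b) (s : ℚ_[p]) (hs : s ≠ 0) : Sp A (b * s ^ 2) := by
  intro z hz
  rw [← mul_assoc]
  exact splits_swap ((splits_mul_sq hs).2 (splits_swap (h z hz)))

/-- local solubility of level `N` -/
def LocN (f : ℤ[X]) (A : Finset (ℤ × ℤ)) (p : ℕ) [Fact p.Prime] (N : ℕ) (k : ℤ) : Prop :=
  ∃ t : ℚ_[p], ‖t‖ ≤ (p : ℝ) ^ N ∧ ((p : ℝ) ^ N)⁻¹ ≤ ‖aeval t f + (k : ℚ_[p])‖ ∧ Sp A (aeval t f + (k : ℚ_[p]))

lemma one_lt_p : (1 : ℝ) < p := by exact_mod_cast hp.out.one_lt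

lemma p_pos : (0 : ℝ) < p := by exact_mod_cast hp.out.pos

lemma LocN.mono {f : ℤ[X]} {A : Finset (ℤ × ℤ)} {N N' : ℕ} {k : ℤ} (h : LocN f A p N k) (hN : N ≤ N') :
    LocN f A p N' k := by
  obtain ⟨t, h1, h2, h3⟩ := h
  have h4 : (p : ℝ) ^ N ≤ (p : ℝ) ^ N' := pow_le_pow_right₀ one_lt_p.le hN
  refine ⟨t, h1.trans h4, le_trans ?_ h2, h3⟩
  exact inv_anti₀ (pow_pos p_pos _) h4

lemma aeval_norm_le (g : ℤ[X]) (m : ℕ) (hm : g.natDegree ≤ m) (t : ℚ_[p]) (ht : 1 ≤ ‖t‖) : ‖aeval t g‖ ≤ ‖t‖ ^ m := by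
  rw [aeval_eq_sum_range]
  apply IsUltrametricDist.norm_sum_le_of_forall_le_of_nonneg (by positivity)
  intro i hi
  rw [mem_range] at hi
  rw [zsmul_eq_mul, norm_mul, norm_pow]
  calc ‖((g.coeff i : ℤ) : ℚ_[p])‖ * ‖t‖ ^ i ≤ 1 * ‖t‖ ^ m :=
        mul_le_mul (Padic.norm_int_le_one _) (pow_le_pow_right₀ ht (by omega)) (by positivity) (by norm_num)
    _ = _ := one_mul _

lemma far_sq (f : ℤ[X]) (hd : 1 ≤ f.natDegree) (N0 : ℕ) (h0 : 1 < (p : ℝ) ^ N0 * (‖(4 : ℚ_[p])‖ * ‖((f.leadingCoeff : ℤ) : ℚ_[p])‖))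
    (k : ℤ) (t : ℚ_[p]) (ht : (p : ℝ) ^ N0 ≤ ‖t‖) :
    ∃ s : ℚ_[p], s ≠ 0 ∧ aeval t f + (k : ℚ_[p]) = ((f.leadingCoeff : ℤ) : ℚ_[p]) * t ^ f.natDegree * s ^ 2 ∧
      ‖aeval t f + (k : ℚ_[p])‖ = ‖((f.leadingCoeff : ℤ) : ℚ_[p])‖ * ‖t‖ ^ f.natDegree := by
  have ht1 : 1 ≤ ‖t‖ := le_trans (one_le_pow₀ one_lt_p.le) ht
  have ht0 : 0 < ‖t‖ := by linarith
  have hlc : f.leadingCoeff ≠ 0 := by
    rw [Ne, leadingCoeff_eq_zero]
    rintro rfl
    simp at hd
  have hlc' : ((f.leadingCoeff : ℤ) : ℚ_[p]) ≠ 0 := by exact_mod_cast hlc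
  have hln : 0 < ‖((f.leadingCoeff : ℤ) : ℚ_[p])‖ := norm_pos_iff.2 hlc'
  obtain ⟨n, hn⟩ : ∃ n, f.natDegree = n + 1 := ⟨f.natDegree - 1, by omega⟩
  have e : aeval t f = aeval t f.eraseLead + ((f.leadingCoeff : ℤ) : ℚ_[p]) * t ^ f.natDegree := by
    conv_lhs => rw [← eraseLead_add_C_mul_X_pow f]
    rw [map_add, map_mul, aeval_C, map_pow, aeval_X, algebraMap_int_eq, eq_intCast]
  have h1 : ‖aeval t f.eraseLead‖ ≤ ‖t‖ ^ n := aeval_norm_le _ _ (by
    have := eraseLead_natDegree_le f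
    omega) t ht1
  have h2 : ‖(aeval t f + (k : ℚ_[p])) - ((f.leadingCoeff : ℤ) : ℚ_[p]) * t ^ f.natDegree‖ ≤ ‖t‖ ^ n := by
    rw [e]
    have e2 : aeval t f.eraseLead + ((f.leadingCoeff : ℤ) : ℚ_[p]) * t ^ f.natDegree + (k : ℚ_[p]) -
        ((f.leadingCoeff : ℤ) : ℚ_[p]) * t ^ f.natDegree = aeval t f.eraseLead + (k : ℚ_[p]) := by ring
    rw [e2]
    refine (Padic.nonarchimedean _ _).trans (max_le h1 ?_)
    exact (Padic.norm_int_le_one k).trans (one_le_pow₀ ht1)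
  have h3 : ‖((f.leadingCoeff : ℤ) : ℚ_[p]) * t ^ f.natDegree‖ = ‖((f.leadingCoeff : ℤ) : ℚ_[p])‖ * ‖t‖ ^ f.natDegree := by
    rw [norm_mul, norm_pow]
  have h4 : ‖t‖ ^ n < ‖(4 : ℚ_[p])‖ * (‖((f.leadingCoeff : ℤ) : ℚ_[p])‖ * ‖t‖ ^ f.natDegree) := by
    rw [hn, pow_succ]
    have h5 : 1 < ‖t‖ * (‖(4 : ℚ_[p])‖ * ‖((f.leadingCoeff : ℤ) : ℚ_[p])‖) :=
      h0.trans_le (mul_le_mul_of_nonneg_right ht (by positivity))
    calc ‖t‖ ^ n = ‖t‖ ^ n * 1 := (mul_one _).symm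
      _ < ‖t‖ ^ n * (‖t‖ * (‖(4 : ℚ_[p])‖ * ‖((f.leadingCoeff : ℤ) : ℚ_[p])‖)) :=
          mul_lt_mul_of_pos_left h5 (by positivity)
      _ = _ := by ring
  have h5 := h2.trans_lt h4
  rw [← h3] at h5
  obtain ⟨s, hs, hs2⟩ := sq_near _ _ (mul_ne_zero hlc' (pow_ne_zero _ (norm_pos_iff.1 ht0))) h5
  refine ⟨s, hs, hs2, ?_⟩
  rw [← h3]
  apply norm_eq_of_near
  refine h5.trans_le ?_
  exact mul_le_of_le_one_left (norm_nonneg _) four_norm_le

lemma norm_zpow_p (m : ℤ) : ‖(p : ℚ_[p]) ^ m‖ = (p : ℝ) ^ (-m) := Padic.norm_p_zpow m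

lemma exists_pow_gt (x : ℝ) : ∃ n : ℕ, x < (p : ℝ) ^ n := pow_unbounded_of_one_lt x one_lt_p

/-- points far away -/
lemma far (f : ℤ[X]) (hd : 1 ≤ f.natDegree) (A : Finset (ℤ × ℤ)) :
    ∃ N1 : ℕ, ∀ (k : ℤ) (t : ℚ_[p]), (p : ℝ) ^ N1 < ‖t‖ → Sp A (aeval t f + (k : ℚ_[p])) → LocN f A p N1 k := by
  have hlc : f.leadingCoeff ≠ 0 := by
    rw [Ne, leadingCoeff_eq_zero]
    rintro rfl
    simp at hd
  have hlc' : ((f.leadingCoeff : ℤ) : ℚ_[p]) ≠ 0 := by exact_mod_cast hlc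
  have hln : 0 < ‖((f.leadingCoeff : ℤ) : ℚ_[p])‖ := norm_pos_iff.2 hlc'
  have h4n : 0 < ‖(4 : ℚ_[p])‖ := norm_pos_iff.2 (by norm_num)
  obtain ⟨N0, hN0⟩ := exists_pow_gt (p := p) (‖(4 : ℚ_[p])‖ * ‖((f.leadingCoeff : ℤ) : ℚ_[p])‖)⁻¹
  have h0 : 1 < (p : ℝ) ^ N0 * (‖(4 : ℚ_[p])‖ * ‖((f.leadingCoeff : ℤ) : ℚ_[p])‖) := by
    rw [inv_lt_iff_one_lt_mul₀ (by positivity)] at hN0
    exact hN0
  refine ⟨N0 + 1, fun k t ht hs => ?_⟩
  have hppos : (0 : ℝ) < p := p_pos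
  have hp1 : (1 : ℝ) < p := one_lt_p
  have ht0 : t ≠ 0 := by
    rintro rfl
    rw [norm_zero] at ht
    have : (0 : ℝ) < (p : ℝ) ^ (N0 + 1) := by positivity
    linarith
  have htn := Padic.norm_eq_zpow_neg_valuation ht0
  obtain ⟨v, hv⟩ : ∃ v : ℤ, v = -t.valuation := ⟨_, rfl⟩
  rw [← hv] at htn
  have hvN : ((N0 + 1 : ℕ) : ℤ) < v := by
    rw [htn, ← zpow_natCast] at ht
    exact (zpow_lt_zpow_iff_right₀ hp1).1 ht
  push_cast at hvN
  obtain ⟨i, hi⟩ : ∃ i : ℕ, v - 2 * i = N0 ∨ v - 2 * i = N0 + 1 := ⟨((v - N0) / 2).toNat, by omega⟩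
  obtain ⟨t', ht'⟩ : ∃ t' : ℚ_[p], t' = t * ((p : ℚ_[p]) ^ i) ^ 2 := ⟨_, rfl⟩
  have ht'n : ‖t'‖ = (p : ℝ) ^ (v - 2 * i) := by
    rw [ht', norm_mul, norm_pow, norm_pow, Padic.norm_p, htn, zpow_sub₀ hppos.ne']
    rw [inv_pow, inv_pow, ← pow_mul, div_eq_mul_inv]
    congr 2
    rw [← zpow_natCast]
    congr 1
    push_cast
    ring
  have hlow : (p : ℝ) ^ N0 ≤ ‖t'‖ := by
    rw [ht'n, ← zpow_natCast]
    exact zpow_le_zpow_right₀ hp1.le (by omega)
  have hup : ‖t'‖ ≤ (p : ℝ) ^ (N0 + 1) := by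
    rw [ht'n, ← zpow_natCast]
    exact zpow_le_zpow_right₀ hp1.le (by push_cast; omega)
  obtain ⟨s1, hs1, hs1e, -⟩ := far_sq f hd N0 h0 k t (le_trans (pow_le_pow_right₀ hp1.le (by omega)) ht.le)
  obtain ⟨s2, hs2, hs2e, hs2n⟩ := far_sq f hd N0 h0 k t' hlow
  refine ⟨t', hup, ?_, ?_⟩
  · rw [hs2n]
    have h1 : ((p : ℝ) ^ N0)⁻¹ ≤ ‖((f.leadingCoeff : ℤ) : ℚ_[p])‖ := by
      rw [inv_le_iff_one_le_mul₀ (by positivity)]
      have h2 : (p : ℝ) ^ N0 * (‖(4 : ℚ_[p])‖ * ‖((f.leadingCoeff : ℤ) : ℚ_[p])‖) ≤ (p : ℝ) ^ N0 * ‖((f.leadingCoeff : ℤ) : ℚ_[p])‖ :=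
        mul_le_mul_of_nonneg_left (mul_le_of_le_one_left hln.le four_norm_le) (by positivity)
      rw [mul_comm]
      linarith
    have h2 : ((p : ℝ) ^ (N0 + 1))⁻¹ ≤ ((p : ℝ) ^ N0)⁻¹ :=
      inv_anti₀ (by positivity) (pow_le_pow_right₀ hp1.le (by omega))
    have h3 : 1 ≤ ‖t'‖ ^ f.natDegree := one_le_pow₀ (le_trans (one_le_pow₀ hp1.le) hlow)
    calc ((p : ℝ) ^ (N0 + 1))⁻¹ ≤ ‖((f.leadingCoeff : ℤ) : ℚ_[p])‖ := h2.trans h1
      _ ≤ _ := le_mul_of_one_le_right hln.le h3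
  · have hpq : (p : ℚ_[p]) ≠ 0 := by exact_mod_cast hp.out.ne_zero
    have e : aeval t' f + (k : ℚ_[p]) = (aeval t f + (k : ℚ_[p])) * (((p : ℚ_[p]) ^ i) ^ f.natDegree * s2 / s1) ^ 2 := by
      rw [hs2e, hs1e, ht']
      obtain ⟨P, hP⟩ : ∃ P, P = (p : ℚ_[p]) ^ i := ⟨_, rfl⟩
      rw [← hP, mul_pow t, ← pow_mul, div_pow, mul_pow, ← pow_mul, mul_comm 2 f.natDegree]
      field_simp
    rw [e]
    exact hs.sq _ (div_ne_zero (mul_ne_zero (pow_ne_zero _ (pow_ne_zero _ hpq)) hs2) hs1)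

open Classical in
/-- the critical values, with the opposite sign -/
noncomputable def crit (f : ℤ[X]) (p : ℕ) [Fact p.Prime] : Finset ℚ_[p] :=
  (f.map (Int.castRingHom ℚ_[p])).derivative.roots.toFinset.image (fun t => -aeval t f)

lemma not_crit (f : ℤ[X]) (hd : 1 ≤ f.natDegree) (t : ℚ_[p]) (h : -aeval t f ∉ crit f p) :
    (f.map (Int.castRingHom ℚ_[p])).derivative.eval t ≠ 0 := by
  classical
  intro h0
  apply h
  unfold crit
  rw [mem_image]
  refine ⟨t, ?_, rfl⟩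
  rw [Multiset.mem_toFinset, mem_roots']
  refine ⟨?_, h0⟩
  intro h1
  have h2 := Polynomial.derivative_eq_zero.1 h1
  rw [natDegree_map_eq_of_injective (Int.cast_injective (α := ℚ_[p]))] at h2
  omega

lemma cont (f : ℤ[X]) : Continuous (fun t : ℚ_[p] => aeval t f) := Polynomial.continuous_aeval f

/-- bounded points, away from the critical values -/
lemma near (f : ℤ[X]) (hd : 1 ≤ f.natDegree) (A : Finset (ℤ × ℤ)) (N1 R : ℕ) :
    ∃ N2 : ℕ, ∀ k : ℤ, (∀ c ∈ crit f p, ((p : ℝ) ^ R)⁻¹ ≤ ‖(k : ℚ_[p]) - c‖) → ∀ t : ℚ_[p], ‖t‖ ≤ (p : ℝ) ^ N1 →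
      aeval t f + (k : ℚ_[p]) ≠ 0 → Sp A (aeval t f + (k : ℚ_[p])) → LocN f A p N2 k := by
  have hppos : (0 : ℝ) < p := p_pos
  have hp1 : (1 : ℝ) < p := one_lt_p
  obtain ⟨K, hK⟩ : ∃ K : Set (ℚ_[p] × ℚ_[p]), K = (Metric.closedBall 0 ((p : ℝ) ^ N1) ×ˢ Metric.closedBall 0 1) ∩
    {y | ∀ c ∈ crit f p, ((p : ℝ) ^ R)⁻¹ ≤ ‖y.2 - c‖} := ⟨_, rfl⟩
  have hKc : IsCompact K := by
    rw [hK]
    apply ((isCompact_closedBall _ _).prod (isCompact_closedBall _ _)).inter_right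
    have e : {y : ℚ_[p] × ℚ_[p] | ∀ c ∈ crit f p, ((p : ℝ) ^ R)⁻¹ ≤ ‖y.2 - c‖} =
        ⋂ c ∈ crit f p, {y : ℚ_[p] × ℚ_[p] | ((p : ℝ) ^ R)⁻¹ ≤ ‖y.2 - c‖} := by
      ext y
      simp
    rw [e]
    apply isClosed_biInter
    intro c _
    exact isClosed_le continuous_const (by fun_prop)
  have hmain : ∃ N2 : ℕ, ∀ (t : ℚ_[p]) (k : ℤ), (t, (k : ℚ_[p])) ∈ K → aeval t f + (k : ℚ_[p]) ≠ 0 →
      Sp A (aeval t f + (k : ℚ_[p])) → LocN f A p N2 k := by
    refine hKc.induction_on (p := fun S => ∃ N2 : ℕ, ∀ (t : ℚ_[p]) (k : ℤ), (t, (k : ℚ_[p])) ∈ S →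
      aeval t f + (k : ℚ_[p]) ≠ 0 → Sp A (aeval t f + (k : ℚ_[p])) → LocN f A p N2 k) ?_ ?_ ?_ ?_
    · exact ⟨0, fun t k h => absurd h (by simp)⟩
    · rintro S S' hSS ⟨N2, h⟩
      exact ⟨N2, fun t k hk => h t k (hSS hk)⟩
    · rintro S S' ⟨N2, h⟩ ⟨N2', h'⟩
      refine ⟨max N2 N2', fun t k hk hne hs => ?_⟩
      rcases hk with hk | hk
      · exact (h t k hk hne hs).mono (le_max_left _ _)
      · exact (h' t k hk hne hs).mono (le_max_right _ _)
    · rintro ⟨t0, κ⟩ hx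
      have hx' := hx
      rw [hK] at hx'
      obtain ⟨⟨hx1, hx2⟩, hx3⟩ := hx'
      simp only [Metric.mem_closedBall, dist_zero_right, Set.mem_ofPred_eq] at hx1 hx2 hx3
      by_cases h0 : aeval t0 f + κ = 0
      · -- a zero
        have hκ : -aeval t0 f = κ := by linear_combination -h0
        have hnc : -aeval t0 f ∉ crit f p := by
          intro h
          have h1 := hx3 _ h
          rw [hκ, sub_self, norm_zero] at h1
          have : 0 < ((p : ℝ) ^ R)⁻¹ := by positivity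
          linarith
        have hder := not_crit f hd t0 hnc
        have hst : HasStrictDerivAt (fun t : ℚ_[p] => aeval t f) ((f.map (Int.castRingHom ℚ_[p])).derivative.eval t0) t0 := by
          have h1 := (f.map (Int.castRingHom ℚ_[p])).hasStrictDerivAt t0
          have e : (fun t : ℚ_[p] => (f.map (Int.castRingHom ℚ_[p])).eval t) = fun t : ℚ_[p] => aeval t f := by
            funext t
            rw [eval_map]
            rfl
          rw [e] at h1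
          exact h1
        have hmap := hst.map_nhds_eq hder
        have hV : (fun t : ℚ_[p] => aeval t f) '' (Metric.ball t0 1) ∈ 𝓝 (aeval t0 f) := by
          rw [← hmap]
          exact image_mem_map (Metric.ball_mem_nhds t0 one_pos)
        obtain ⟨ε, hε, hball⟩ := Metric.mem_nhds_iff.1 hV
        obtain ⟨m, hm⟩ := exists_pow_gt (p := p) ε⁻¹
        have hm2 : ((p : ℝ) ^ (2 * m))⁻¹ < ε := by
          rw [inv_lt_comm₀ (by positivity) hε]
          refine hm.trans_le (pow_le_pow_right₀ hp1.le (by omega))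
        refine ⟨K ∩ {y | ‖y.2 - κ‖ < ε}, ?_, max N1 (2 * m + 1), ?_⟩
        · apply inter_mem self_mem_nhdsWithin
          apply mem_nhdsWithin_of_mem_nhds
          apply IsOpen.mem_nhds
          · exact isOpen_lt (by fun_prop) continuous_const
          · simpa using hε
        · rintro t k ⟨hk1, hk2⟩ hne hs
          simp only [Set.mem_ofPred_eq] at hk2
          rw [hK] at hk1
          obtain ⟨⟨hk3, -⟩, -⟩ := hk1
          simp only [Metric.mem_closedBall, dist_zero_right] at hk3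
          obtain ⟨b, hb⟩ : ∃ b : ℚ_[p], b = aeval t f + (k : ℚ_[p]) := ⟨_, rfl⟩
          rw [← hb] at hne hs
          by_cases hbn : ((p : ℝ) ^ (2 * m + 1))⁻¹ ≤ ‖b‖
          · refine LocN.mono (N := max N1 (2 * m + 1)) ⟨t, hk3.trans (pow_le_pow_right₀ hp1.le (le_max_left _ _)), ?_, ?_⟩ le_rfl
            · rw [← hb]
              refine le_trans ?_ hbn
              exact inv_anti₀ (by positivity) (pow_le_pow_right₀ hp1.le (le_max_right _ _))
            · rw [← hb]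
              exact hs
          · rw [not_le] at hbn
            have hbv := Padic.norm_eq_zpow_neg_valuation hne
            obtain ⟨v, hv⟩ : ∃ v : ℤ, v = b.valuation := ⟨_, rfl⟩
            rw [← hv] at hbv
            have hvm : (2 * (m : ℤ) + 1) < v := by
              rw [hbv, ← inv_zpow] at hbn
              have := (zpow_lt_zpow_iff_right₀ hp1).1 hbn
              push_cast at this
              linarith
            obtain ⟨j, hj⟩ : ∃ j : ℕ, v - 2 * j = 2 * m ∨ v - 2 * j = 2 * m + 1 := ⟨((v - 2 * m) / 2).toNat, by omega⟩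
            have hpq : (p : ℚ_[p]) ≠ 0 := by exact_mod_cast hp.out.ne_zero
            obtain ⟨b', hb'⟩ : ∃ b' : ℚ_[p], b' = b * (((p : ℚ_[p]) ^ j)⁻¹) ^ 2 := ⟨_, rfl⟩
            have hb'n : ‖b'‖ = (p : ℝ) ^ (-(v - 2 * j)) := by
              rw [hb', norm_mul, norm_pow, norm_inv, norm_pow, Padic.norm_p, hbv]
              rw [inv_pow, inv_pow, inv_pow, inv_inv, ← pow_mul, ← zpow_natCast, ← zpow_add₀ hppos.ne']
              congr 1
              push_cast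
              ring
            have hb'1 : ‖b'‖ ≤ ((p : ℝ) ^ (2 * m))⁻¹ := by
              rw [hb'n, ← inv_zpow]
              apply zpow_le_zpow_right₀ hp1.le
              push_cast
              omega
            have hb'2 : ((p : ℝ) ^ (2 * m + 1))⁻¹ ≤ ‖b'‖ := by
              rw [hb'n, ← inv_zpow]
              apply zpow_le_zpow_right₀ hp1.le
              push_cast
              omega
            have hin : -(k : ℚ_[p]) + b' ∈ Metric.ball (aeval t0 f) ε := by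
              rw [Metric.mem_ball, dist_eq_norm]
              have e : -(k : ℚ_[p]) + b' - aeval t0 f = -((k : ℚ_[p]) - κ) + b' := by
                rw [← hκ]
                ring
              rw [e]
              refine (Padic.nonarchimedean _ _).trans_lt (max_lt ?_ (hb'1.trans_lt hm2))
              rw [norm_neg]
              exact hk2
            obtain ⟨t', ht'1, ht'2⟩ := hball hin
            simp only at ht'2
            have hft : aeval t' f + (k : ℚ_[p]) = b' := by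
              rw [ht'2]
              ring
            refine ⟨t', ?_, ?_, ?_⟩
            · rw [Metric.mem_ball, dist_eq_norm] at ht'1
              have e : t' = (t' - t0) + t0 := by ring
              have h1 : (1 : ℝ) ≤ (p : ℝ) ^ N1 := one_le_pow₀ hp1.le
              calc ‖t'‖ ≤ max ‖t' - t0‖ ‖t0‖ := by
                    conv_lhs => rw [e]
                    exact Padic.nonarchimedean _ _
                _ ≤ (p : ℝ) ^ N1 := max_le (ht'1.le.trans h1) hx1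
                _ ≤ _ := pow_le_pow_right₀ hp1.le (le_max_left _ _)
            · rw [hft]
              refine le_trans ?_ hb'2
              exact inv_anti₀ (by positivity) (pow_le_pow_right₀ hp1.le (le_max_right _ _))
            · rw [hft, hb']
              exact hs.sq _ (inv_ne_zero (pow_ne_zero _ hpq))
      · -- not a zero
        have hδ : 0 < ‖aeval t0 f + κ‖ := norm_pos_iff.2 h0
        obtain ⟨m, hm⟩ := exists_pow_gt (p := p) (‖aeval t0 f + κ‖ / 2)⁻¹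
        have hm2 : ((p : ℝ) ^ m)⁻¹ < ‖aeval t0 f + κ‖ / 2 := by
          rw [inv_lt_comm₀ (by positivity) (by linarith)]
          exact hm
        refine ⟨K ∩ {y | ‖aeval t0 f + κ‖ / 2 < ‖aeval y.1 f + y.2‖}, ?_, max N1 m, ?_⟩
        · apply inter_mem self_mem_nhdsWithin
          apply mem_nhdsWithin_of_mem_nhds
          apply IsOpen.mem_nhds
          · have hc : Continuous (fun y : ℚ_[p] × ℚ_[p] => aeval y.1 f) := (cont f).comp continuous_fst
            exact isOpen_lt continuous_const (by fun_prop)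
          · simp only [Set.mem_ofPred_eq]
            linarith
        · rintro t k ⟨hk1, hk2⟩ hne hs
          simp only [Set.mem_ofPred_eq] at hk2
          rw [hK] at hk1
          obtain ⟨⟨hk3, -⟩, -⟩ := hk1
          simp only [Metric.mem_closedBall, dist_zero_right] at hk3
          refine ⟨t, hk3.trans (pow_le_pow_right₀ hp1.le (le_max_left _ _)), ?_, hs⟩
          refine le_trans ?_ (hm2.trans hk2).le
          exact inv_anti₀ (by positivity) (pow_le_pow_right₀ hp1.le (le_max_right _ _))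
  obtain ⟨N2, hN2⟩ := hmain
  refine ⟨N2, fun k hk t ht hne hs => hN2 t k ?_ hne hs⟩
  rw [hK]
  refine ⟨⟨?_, ?_⟩, ?_⟩
  · simpa using ht
  · simpa using Padic.norm_int_le_one (p := p) k
  · exact hk

end padic

/-- integers in one residue class -/
lemma card_class (q : ℕ) (hq : 0 < q) (X : ℕ) (S : Finset ℤ) (hS : ∀ k ∈ S, |k| ≤ (X : ℤ))
    (h : ∀ k ∈ S, ∀ k' ∈ S, (q : ℤ) ∣ k - k') : #S ≤ 2 * X / q + 1 := by
  obtain ⟨Y, hY⟩ : ∃ Y, Y = 2 * X / q := ⟨_, rfl⟩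
  have h1 : #S ≤ #(Icc (0 : ℤ) ((Y : ℕ) : ℤ)) := by
    rw [hY]
    have hq0 : (0 : ℤ) < q := by exact_mod_cast hq
    apply card_le_card_of_injOn (fun k => (k + X) / (q : ℤ))
    · intro k hk
      have h2 := abs_le.1 (hS k hk)
      rw [mem_coe, mem_Icc]
      constructor
      · exact Int.ediv_nonneg (by linarith) hq0.le
      · push_cast
        exact Int.ediv_le_ediv hq0 (by linarith)
    · intro k hk k' hk' he
      simp only at he
      have h3 := h k hk k' hk'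
      have h4 : (k + X) % (q : ℤ) = (k' + X) % (q : ℤ) := by
        apply Int.ModEq.symm
        rw [Int.modEq_iff_dvd]
        have e : k + X - (k' + X) = k - k' := by ring
        rw [e]
        exact h3
      have h5 := Int.emod_add_mul_ediv (k + X) q
      have h6 := Int.emod_add_mul_ediv (k' + X) q
      rw [he, h4] at h5
      linarith
  rw [Int.card_Icc] at h1
  rw [← hY]
  omega

/-- local solubility at `p` -/
def ELS (f : ℤ[X]) (A : Finset (ℤ × ℤ)) (p : ℕ) [Fact p.Prime] (k : ℤ) : Prop :=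
  ∃ t : ℚ_[p], aeval t f + (k : ℚ_[p]) ≠ 0 ∧ Sp A (aeval t f + (k : ℚ_[p]))

open Classical in
lemma dens (f : ℤ[X]) (hd : 1 ≤ f.natDegree) (A : Finset (ℤ × ℤ)) (p : ℕ) [Fact p.Prime] (η : ℝ) (hη : 0 < η) :
    ∃ N X0 : ℕ, ∀ X : ℕ, X0 ≤ X → (#((Icc (-(X : ℤ)) X).filter (fun k => ELS f A p k ∧ ¬ LocN f A p N k)) : ℝ) ≤ η * X := by
  have hppos : (0 : ℝ) < p := p_pos
  have hp1 : (1 : ℝ) < p := one_lt_p
  obtain ⟨N1, hN1⟩ := far (p := p) f hd A
  obtain ⟨C, hC⟩ : ∃ C : ℕ, C = #(crit f p) := ⟨_, rfl⟩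
  obtain ⟨R, hR⟩ := exists_pow_gt (p := p) (4 * C / η)
  obtain ⟨N2, hN2⟩ := near (p := p) f hd A N1 R
  refine ⟨max N1 N2, ⌈2 * C / η⌉₊, fun X hX => ?_⟩
  have h1 : (Icc (-(X : ℤ)) X).filter (fun k => ELS f A p k ∧ ¬ LocN f A p (max N1 N2) k) ⊆
      (crit f p).biUnion (fun c => (Icc (-(X : ℤ)) X).filter (fun k : ℤ => ‖(k : ℚ_[p]) - c‖ < ((p : ℝ) ^ R)⁻¹)) := by
    intro k hk
    rw [mem_filter] at hk
    obtain ⟨hkX, ⟨t, ht1, ht2⟩, hk2⟩ := hk
    by_contra hcon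
    apply hk2
    by_cases ht : ‖t‖ ≤ (p : ℝ) ^ N1
    · refine (hN2 k (fun c hc => ?_) t ht ht1 ht2).mono (le_max_right _ _)
      by_contra h2
      apply hcon
      rw [mem_biUnion]
      exact ⟨c, hc, mem_filter.2 ⟨hkX, not_le.1 h2⟩⟩
    · exact (hN1 k t (not_le.1 ht) ht2).mono (le_max_left _ _)
  have h2 : ∀ c ∈ crit f p, #((Icc (-(X : ℤ)) X).filter (fun k : ℤ => ‖(k : ℚ_[p]) - c‖ < ((p : ℝ) ^ R)⁻¹)) ≤ 2 * X / p ^ R + 1 := by
    intro c _
    apply card_class (p ^ R) (pow_pos (Fact.out : p.Prime).pos _) X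
    · intro k hk
      rw [mem_filter, mem_Icc] at hk
      exact abs_le.2 hk.1
    · intro k hk k' hk'
      rw [mem_filter] at hk hk'
      have h3 : ‖((k - k' : ℤ) : ℚ_[p])‖ ≤ ((p : ℝ) ^ R)⁻¹ := by
        have e : ((k - k' : ℤ) : ℚ_[p]) = ((k : ℚ_[p]) - c) + -((k' : ℚ_[p]) - c) := by push_cast; ring
        rw [e]
        refine (Padic.nonarchimedean _ _).trans (max_le hk.2.le ?_)
        rw [norm_neg]
        exact hk'.2.le
      rw [← inv_zpow] at h3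
      have h4 := (Padic.norm_int_le_pow_iff_dvd (p := p) (k - k') R).1 h3
      exact_mod_cast h4
  have h3 := (card_le_card h1).trans (card_biUnion_le.trans (sum_le_sum h2))
  rw [sum_const, smul_eq_mul, ← hC] at h3
  have h4 : (#((Icc (-(X : ℤ)) X).filter (fun k => ELS f A p k ∧ ¬ LocN f A p (max N1 N2) k)) : ℝ) ≤
      C * (2 * X / (p : ℝ) ^ R + 1) := by
    refine le_trans (b := ((C * (2 * X / p ^ R + 1) : ℕ) : ℝ)) (by exact_mod_cast h3) ?_
    rw [Nat.cast_mul]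
    apply mul_le_mul_of_nonneg_left _ (Nat.cast_nonneg _)
    push_cast
    have := Nat.cast_div_le (α := ℝ) (m := 2 * X) (n := p ^ R)
    push_cast at this
    linarith
  refine h4.trans ?_
  have hX2 : (C : ℝ) ≤ η / 2 * X := by
    have h5 := (Nat.le_ceil (2 * C / η)).trans (by exact_mod_cast hX : ((⌈2 * C / η⌉₊ : ℕ) : ℝ) ≤ X)
    rw [div_le_iff₀ hη] at h5
    linarith
  have h6 : (C : ℝ) * (2 * X / (p : ℝ) ^ R) ≤ η / 2 * X := by
    rw [div_lt_iff₀ hη] at hR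
    rw [← mul_div_assoc, div_le_iff₀ (by positivity)]
    have hX0 : (0 : ℝ) ≤ X := Nat.cast_nonneg _
    nlinarith
  linarith

end Pool.Agent.TH204.HP
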