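import Pool.Agent.TH204.HP.H7

/-!
Weak approximation on a conic, and points on nearby conics.
-/

set_option autoImplicit false

namespace Pool.Agent.TH204.HP

open Finset Polynomial Filter Topology

/-- the parametrisation of a conic with a point -/
lemma param {F : Type} [Field F] [CharZero F] (a b y0 z0 Y Z : F) (ha : a ≠ 0) (hb : b ≠ 0) (h0 : y0 ^ 2 - a * z0 ^ 2 = b)
    (h : Y ^ 2 - a * Z ^ 2 = b) :
    ∃ u v : F, u ^ 2 - a * v ^ 2 ≠ 0 ∧ Y * (u ^ 2 - a * v ^ 2) = y0 * (u ^ 2 + a * v ^ 2) + 2 * a * z0 * (u * v) ∧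
      Z * (u ^ 2 - a * v ^ 2) = 2 * y0 * (u * v) + z0 * (u ^ 2 + a * v ^ 2) := by
  obtain ⟨g, hg⟩ : ∃ g, g = (Y * y0 - a * Z * z0) / b := ⟨_, rfl⟩
  obtain ⟨w, hw⟩ : ∃ w, w = (Z * y0 - Y * z0) / b := ⟨_, rfl⟩
  have hgb : g * b = Y * y0 - a * Z * z0 := by rw [hg]; field_simp
  have hwb : w * b = Z * y0 - Y * z0 := by rw [hw]; field_simp
  have hn : g ^ 2 - a * w ^ 2 = 1 := by
    have h1 : (g ^ 2 - a * w ^ 2) * b ^ 2 = 1 * b ^ 2 := by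
      have e : (g ^ 2 - a * w ^ 2) * b ^ 2 = (g * b) ^ 2 - a * (w * b) ^ 2 := by ring
      rw [e, hgb, hwb]
      have e2 : (Y * y0 - a * Z * z0) ^ 2 - a * (Z * y0 - Y * z0) ^ 2 = (Y ^ 2 - a * Z ^ 2) * (y0 ^ 2 - a * z0 ^ 2) := by ring
      rw [e2, h, h0]
      ring
    exact mul_right_cancel₀ (pow_ne_zero 2 hb) h1
  have hY : Y = y0 * g + a * z0 * w := by
    apply mul_right_cancel₀ hb
    have e : (y0 * g + a * z0 * w) * b = y0 * (g * b) + a * z0 * (w * b) := by ring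
    rw [e, hgb, hwb, ← h0]
    ring
  have hZ : Z = y0 * w + z0 * g := by
    apply mul_right_cancel₀ hb
    have e : (y0 * w + z0 * g) * b = y0 * (w * b) + z0 * (g * b) := by ring
    rw [e, hgb, hwb, ← h0]
    ring
  by_cases hg1 : 1 + g = 0
  · have hg2 : g = -1 := by linear_combination hg1
    have hw0 : w = 0 := by
      have h1 : a * w ^ 2 = 0 := by
        rw [hg2] at hn
        linear_combination -hn
      rcases mul_eq_zero.1 h1 with h2 | h2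
      · exact absurd h2 ha
      · exact pow_eq_zero_iff (two_ne_zero) |>.1 h2
    refine ⟨0, 1, ?_, ?_, ?_⟩
    · simpa using ha
    · rw [hY, hg2, hw0]
      ring
    · rw [hZ, hg2, hw0]
      ring
  · have e1 : (1 + g) ^ 2 - a * w ^ 2 = 2 * (1 + g) := by linear_combination hn
    have e2 : (1 + g) ^ 2 + a * w ^ 2 = 2 * g * (1 + g) := by linear_combination -hn
    refine ⟨1 + g, w, ?_, ?_, ?_⟩
    · rw [e1]
      exact mul_ne_zero two_ne_zero hg1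
    · rw [e1, e2, hY]
      ring
    · rw [e1, e2, hZ]
      ring

/-- weak approximation for the rational numbers -/
lemma approx_Q (T : Finset Nat.Primes) (x : (p : Nat.Primes) → ℚ_[(p : ℕ)]) (δ : ℝ) (hδ : 0 < δ) :
    ∃ u : ℚ, ∀ p ∈ T, ‖(u : ℚ_[(p : ℕ)]) - x p‖ < δ := by
  have hN : ∃ N : ℕ, ∀ p ∈ T, ‖x p‖ ≤ ((p : ℕ) : ℝ) ^ N := by
    have h1 : ∀ p : Nat.Primes, ∃ N : ℕ, ‖x p‖ < ((p : ℕ) : ℝ) ^ N := fun p => exists_pow_gt (p := (p : ℕ)) _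
    choose N hN using h1
    refine ⟨∑ p ∈ T, N p, fun p hp => (hN p).le.trans ?_⟩
    exact pow_le_pow_right₀ (one_lt_p (p := (p : ℕ))).le (single_le_sum (fun _ _ => Nat.zero_le _) hp)
  obtain ⟨N, hN⟩ := hN
  obtain ⟨n, hn⟩ := exists_pow_lt_of_lt_one hδ (show ((1 : ℝ) / 2) < 1 by norm_num)
  obtain ⟨u0, -, hu0⟩ := exists_u0 T N (N + n) _ _ x hN rfl rfl
  obtain ⟨D, hD⟩ : ∃ D, D = ∏ p ∈ T, (p : ℕ) ^ N := ⟨_, rfl⟩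
  rw [← hD] at hu0
  have hD0 : D ≠ 0 := by rw [hD]; exact prod_ne_zero_iff.2 fun p _ => pow_ne_zero _ p.2.ne_zero
  refine ⟨(u0 : ℚ) / D, fun p hp => ?_⟩
  have hDF : (D : ℚ_[(p : ℕ)]) ≠ 0 := by exact_mod_cast hD0
  have hDn : ‖(D : ℚ_[(p : ℕ)])‖ = (((p : ℕ) : ℝ) ^ N)⁻¹ := by
    rw [hD]
    exact norm_D T N p hp
  have hppos : (0 : ℝ) < ((p : ℕ) : ℝ) := p_pos (p := (p : ℕ))
  have h1 := hu0 0 p hp
  have e : (((u0 : ℚ) / D : ℚ) : ℚ_[(p : ℕ)]) - x p = ((((u0 : ℤ) + (∏ p ∈ T, (p : ℕ) ^ (N + n) : ℕ) * (0 : ℤ) : ℤ) : ℚ_[(p : ℕ)]) - D * x p) / D := by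
    push_cast
    field_simp
    ring
  rw [e, norm_div, hDn, div_inv_eq_mul]
  refine lt_of_le_of_lt (mul_le_mul_of_nonneg_right h1 (by positivity)) ?_
  refine lt_of_le_of_lt ?_ hn
  rw [pow_add, mul_inv]
  have h2 : ((((p : ℕ) : ℝ) ^ n))⁻¹ ≤ (1 / 2) ^ n := by
    rw [one_div, inv_pow]
    apply inv_anti₀ (by positivity)
    apply pow_le_pow_left₀ (by norm_num)
    exact_mod_cast p.2.two_le
  calc (((p : ℕ) : ℝ) ^ N)⁻¹ * (((p : ℕ) : ℝ) ^ n)⁻¹ * ((p : ℕ) : ℝ) ^ N = (((p : ℕ) : ℝ) ^ n)⁻¹ := by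
        field_simp
    _ ≤ _ := h2

/-- weak approximation on a conic with a rational point -/
lemma conic_dense (a b y0 z0 : ℚ) (ha : a ≠ 0) (hb : b ≠ 0) (h0 : y0 ^ 2 - a * z0 ^ 2 = b) (T : Finset Nat.Primes)
    (Y Z : (p : Nat.Primes) → ℚ_[(p : ℕ)]) (hYZ : ∀ p ∈ T, Y p ^ 2 - (a : ℚ_[(p : ℕ)]) * Z p ^ 2 = b) (ε : ℝ) (hε : 0 < ε) :
    ∃ y z : ℚ, y ^ 2 - a * z ^ 2 = b ∧ ∀ p ∈ T, ‖(y : ℚ_[(p : ℕ)]) - Y p‖ < ε ∧ ‖(z : ℚ_[(p : ℕ)]) - Z p‖ < ε := by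
  rcases T.eq_empty_or_nonempty with hT | ⟨q, hq⟩
  · exact ⟨y0, z0, h0, fun p hp => absurd hp (by rw [hT]; exact notMem_empty _)⟩
  have h1 : ∀ p : Nat.Primes, ∃ (u v : ℚ_[(p : ℕ)]) (δ : ℝ), 0 < δ ∧ (p ∈ T → ∀ u' v' : ℚ_[(p : ℕ)], ‖u' - u‖ < δ → ‖v' - v‖ < δ →
      u' ^ 2 - (a : ℚ_[(p : ℕ)]) * v' ^ 2 ≠ 0 ∧
      ‖((y0 : ℚ_[(p : ℕ)]) * (u' ^ 2 + a * v' ^ 2) + 2 * a * z0 * (u' * v')) / (u' ^ 2 - a * v' ^ 2) - Y p‖ < ε ∧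
      ‖(2 * (y0 : ℚ_[(p : ℕ)]) * (u' * v') + z0 * (u' ^ 2 + a * v' ^ 2)) / (u' ^ 2 - a * v' ^ 2) - Z p‖ < ε) := by
    intro p
    by_cases hp : p ∈ T
    · have h0' : (y0 : ℚ_[(p : ℕ)]) ^ 2 - (a : ℚ_[(p : ℕ)]) * (z0 : ℚ_[(p : ℕ)]) ^ 2 = b := by
        rw [← h0]
        push_cast
        ring
      obtain ⟨u, v, hne, hY, hZ⟩ := param (a : ℚ_[(p : ℕ)]) b y0 z0 (Y p) (Z p) (by exact_mod_cast ha) (by exact_mod_cast hb) h0' (hYZ p hp)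
      have hc : ContinuousAt (fun x : ℚ_[(p : ℕ)] × ℚ_[(p : ℕ)] => x.1 ^ 2 - (a : ℚ_[(p : ℕ)]) * x.2 ^ 2) (u, v) := by fun_prop
      have e1 : ∀ᶠ x : ℚ_[(p : ℕ)] × ℚ_[(p : ℕ)] in 𝓝 (u, v), x.1 ^ 2 - (a : ℚ_[(p : ℕ)]) * x.2 ^ 2 ≠ 0 :=
        hc.eventually_ne hne
      have hc2 : ContinuousAt (fun x : ℚ_[(p : ℕ)] × ℚ_[(p : ℕ)] => ((y0 : ℚ_[(p : ℕ)]) * (x.1 ^ 2 + a * x.2 ^ 2) + 2 * a * z0 * (x.1 * x.2)) / (x.1 ^ 2 - a * x.2 ^ 2)) (u, v) :=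
        ContinuousAt.div (by fun_prop) hc hne
      have hc3 : ContinuousAt (fun x : ℚ_[(p : ℕ)] × ℚ_[(p : ℕ)] => (2 * (y0 : ℚ_[(p : ℕ)]) * (x.1 * x.2) + z0 * (x.1 ^ 2 + a * x.2 ^ 2)) / (x.1 ^ 2 - a * x.2 ^ 2)) (u, v) :=
        ContinuousAt.div (by fun_prop) hc hne
      have hY' : ((y0 : ℚ_[(p : ℕ)]) * (u ^ 2 + a * v ^ 2) + 2 * a * z0 * (u * v)) / (u ^ 2 - a * v ^ 2) = Y p := by
        rw [div_eq_iff hne]
        exact hY.symm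
      have hZ' : (2 * (y0 : ℚ_[(p : ℕ)]) * (u * v) + z0 * (u ^ 2 + a * v ^ 2)) / (u ^ 2 - a * v ^ 2) = Z p := by
        rw [div_eq_iff hne]
        exact hZ.symm
      have e2 := Metric.tendsto_nhds.1 hc2.tendsto ε hε
      have e3 := Metric.tendsto_nhds.1 hc3.tendsto ε hε
      obtain ⟨δ, hδ, hball⟩ := Metric.eventually_nhds_iff.1 (e1.and (e2.and e3))
      refine ⟨u, v, δ, hδ, fun _ u' v' h2 h3 => ?_⟩
      have h4 : dist (u', v') (u, v) < δ := by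
        rw [Prod.dist_eq]
        exact max_lt (by rw [dist_eq_norm]; exact h2) (by rw [dist_eq_norm]; exact h3)
      obtain ⟨h5, h6, h7⟩ := hball h4
      simp only [dist_eq_norm, hY', hZ'] at h6 h7
      exact ⟨h5, h6, h7⟩
    · exact ⟨0, 0, 1, one_pos, fun h => absurd h hp⟩
  choose u v δ hδ h2 using h1
  obtain ⟨d, hd⟩ : ∃ d : ℝ, d = (∑ p ∈ T, (δ p)⁻¹ + 1)⁻¹ := ⟨_, rfl⟩
  have hsum : 0 ≤ ∑ p ∈ T, (δ p)⁻¹ := sum_nonneg fun p _ => inv_nonneg.2 (hδ p).le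
  have hd0 : 0 < d := by rw [hd]; positivity
  have hdp : ∀ p ∈ T, d ≤ δ p := by
    intro p hp
    rw [hd]
    rw [inv_le_comm₀ (by positivity) (hδ p)]
    have := single_le_sum (f := fun p => (δ p)⁻¹) (fun p _ => inv_nonneg.2 (hδ p).le) hp
    linarith
  obtain ⟨u', hu'⟩ := approx_Q T u d hd0
  obtain ⟨v', hv'⟩ := approx_Q T v d hd0
  have hne : u' ^ 2 - a * v' ^ 2 ≠ 0 := by
    obtain ⟨h3, -, -⟩ := h2 q hq u' v' ((hu' q hq).trans_le (hdp q hq)) ((hv' q hq).trans_le (hdp q hq))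
    intro h4
    apply h3
    have h5 := congrArg (fun x : ℚ => (x : ℚ_[(q : ℕ)])) h4
    push_cast at h5
    exact h5
  refine ⟨(y0 * (u' ^ 2 + a * v' ^ 2) + 2 * a * z0 * (u' * v')) / (u' ^ 2 - a * v' ^ 2),
    (2 * y0 * (u' * v') + z0 * (u' ^ 2 + a * v' ^ 2)) / (u' ^ 2 - a * v' ^ 2), ?_, ?_⟩
  · rw [div_pow, div_pow, mul_div_assoc', div_sub_div_same, div_eq_iff (pow_ne_zero 2 hne), ← h0]
    ring
  · intro p hp
    obtain ⟨-, h3, h4⟩ := h2 p hp u' v' ((hu' p hp).trans_le (hdp p hp)) ((hv' p hp).trans_le (hdp p hp))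
    push_cast
    exact ⟨h3, h4⟩

section padic

variable {p : ℕ} [hp : Fact p.Prime]

/-- the square root of a number near `1` -/
lemma sqrt_near (e : ℚ_[p]) (he : ‖e‖ < ‖(4 : ℚ_[p])‖) : ∃ s : ℚ_[p], s ^ 2 = 1 + e ∧ ‖s - 1‖ * ‖(4 : ℚ_[p])‖ ≤ ‖e‖ := by
  have he2 : ‖e‖ < 1 := he.trans_le four_norm_le
  obtain ⟨e', he'⟩ : ∃ e' : ℤ_[p], (e' : ℚ_[p]) = e := ⟨⟨e, he2.le⟩, rfl⟩
  have h2 : ‖(2 : ℤ_[p])‖ = ‖(2 : ℚ_[p])‖ := by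
    rw [PadicInt.norm_def]
    rfl
  have he3 : ‖e'‖ < ‖(2 : ℤ_[p])‖ ^ 2 := by
    rw [h2, ← four_norm, PadicInt.norm_def, he']
    exact he
  have h := hensels_lemma (p := p) (R := ℤ_[p]) (F := X ^ 2 - C (1 + e')) (a := 1) (by
    simp only [map_sub, map_pow, aeval_X, aeval_C, derivative_sub, derivative_X_pow, derivative_C, sub_zero,
      map_mul, map_natCast, Algebra.algebraMap_self, RingHom.id_apply]
    norm_num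
    exact he3)
  obtain ⟨z, hz, hz1, -⟩ := h
  simp only [map_sub, map_pow, aeval_X, aeval_C, Algebra.algebraMap_self, RingHom.id_apply] at hz
  have hz1' : ‖z - 1‖ < ‖(2 : ℤ_[p])‖ := by
    refine hz1.trans_eq ?_
    simp only [derivative_sub, derivative_X_pow, derivative_C, sub_zero, map_mul, map_pow, aeval_X, aeval_C,
      map_natCast]
    norm_num
  have hs2 : (z : ℚ_[p]) ^ 2 = 1 + e := by
    have h3 : z ^ 2 = 1 + e' := by linear_combination hz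
    have := congrArg (fun w : ℤ_[p] => (w : ℚ_[p])) h3
    simpa [he'] using this
  have hn1 : ‖(z : ℚ_[p]) - 1‖ < ‖(2 : ℚ_[p])‖ := by
    rw [← h2]
    rw [PadicInt.norm_def] at hz1'
    push_cast at hz1'
    exact hz1'
  have hn2 : ‖(z : ℚ_[p]) + 1‖ = ‖(2 : ℚ_[p])‖ := by
    apply norm_eq_of_near
    have e1 : (z : ℚ_[p]) + 1 - 2 = z - 1 := by ring
    rw [e1]
    exact hn1
  refine ⟨z, hs2, ?_⟩
  have h3 : e = ((z : ℚ_[p]) - 1) * (z + 1) := by linear_combination -hs2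
  calc ‖(z : ℚ_[p]) - 1‖ * ‖(4 : ℚ_[p])‖ ≤ ‖(z : ℚ_[p]) - 1‖ * ‖(2 : ℚ_[p])‖ := by
        apply mul_le_mul_of_nonneg_left _ (norm_nonneg _)
        rw [four_norm, sq]
        exact mul_le_of_le_one_right (norm_nonneg _) two_norm_le
    _ = ‖e‖ := by rw [h3, norm_mul, hn2]

/-- points on nearby conics -/
lemma transfer (a b b' Y Z : ℚ_[p]) (hb : b ≠ 0) (h : Y ^ 2 - a * Z ^ 2 = b) (N n : ℕ) (hY : ‖Y‖ ≤ (p : ℝ) ^ N) (hZ : ‖Z‖ ≤ (p : ℝ) ^ N)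
    (hbb : ‖b' - b‖ ≤ ((p : ℝ) ^ (N + n + 3))⁻¹ * ‖b‖) :
    ∃ Y' Z' : ℚ_[p], Y' ^ 2 - a * Z' ^ 2 = b' ∧ ‖Y' - Y‖ ≤ ((p : ℝ) ^ n)⁻¹ ∧ ‖Z' - Z‖ ≤ ((p : ℝ) ^ n)⁻¹ := by
  have hppos : (0 : ℝ) < p := p_pos
  have hp1 : (1 : ℝ) < p := one_lt_p
  obtain ⟨e, he⟩ : ∃ e, e = (b' - b) / b := ⟨_, rfl⟩
  have hbn : 0 < ‖b‖ := norm_pos_iff.2 hb
  have h4 := norm_four_gt p
  have h4pos : 0 < ‖(4 : ℚ_[p])‖ := norm_pos_iff.2 (by norm_num)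
  have he1 : ‖e‖ ≤ ((p : ℝ) ^ (N + n + 3))⁻¹ := by
    rw [he, norm_div, div_le_iff₀ hbn]
    exact hbb
  have he2 : ‖e‖ ≤ ((p : ℝ) ^ (N + n))⁻¹ * ‖(4 : ℚ_[p])‖ := by
    refine he1.trans ?_
    rw [pow_add _ (N + n) 3, mul_inv]
    exact mul_le_mul_of_nonneg_left h4.le (by positivity)
  have he3 : ‖e‖ < ‖(4 : ℚ_[p])‖ := by
    refine he1.trans_lt (lt_of_le_of_lt ?_ h4)
    exact inv_anti₀ (by positivity) (pow_le_pow_right₀ hp1.le (by omega))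
  obtain ⟨s, hs, hs2⟩ := sqrt_near e he3
  have hs3 : ‖s - 1‖ ≤ ((p : ℝ) ^ (N + n))⁻¹ := le_of_mul_le_mul_right (hs2.trans he2) h4pos
  have hfin : ∀ W : ℚ_[p], ‖W‖ ≤ (p : ℝ) ^ N → ‖s * W - W‖ ≤ ((p : ℝ) ^ n)⁻¹ := by
    intro W hW
    have e1 : s * W - W = (s - 1) * W := by ring
    rw [e1, norm_mul]
    calc ‖s - 1‖ * ‖W‖ ≤ ((p : ℝ) ^ (N + n))⁻¹ * (p : ℝ) ^ N := mul_le_mul hs3 hW (norm_nonneg _) (by positivity)
      _ = ((p : ℝ) ^ n)⁻¹ := by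
          rw [pow_add]
          field_simp
  refine ⟨s * Y, s * Z, ?_, hfin Y hY, hfin Z hZ⟩
  have e2 : (s * Y) ^ 2 - a * (s * Z) ^ 2 = s ^ 2 * (Y ^ 2 - a * Z ^ 2) := by ring
  rw [e2, h, hs, he]
  field_simp
  ring

end padic

end Pool.Agent.TH204.HP
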