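import Pool.Agent.TH204.HP.H8

/-!
Points with all coordinates.
-/

set_option autoImplicit false

namespace Pool.Agent.TH204.HP

open Finset Polynomial Filter Topology
open Pool.Agent.TH204.WR (rho evt_log_ge evt_log_pow)
open Pool.Agent.W313.BMX (Splits splits_swap splits_comm splits_mul_sq)

/-- from the base point to all coordinates -/
lemma glue (r : ℕ) (a c : Fin r → ℤ) (ha : ∀ i, a i ≠ 0) (hc : ∀ i, c i ≠ 0) (T : Finset Nat.Primes) (N : ℕ) (b : ℚ)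
    (hb : b ≠ 0) (hs : ∀ i, Splits (a i : ℚ) (c i * b)) (bp : (p : Nat.Primes) → ℚ_[(p : ℕ)])
    (hbp : ∀ p ∈ T, (((p : ℕ) : ℝ) ^ N)⁻¹ ≤ ‖bp p‖) (y z : (p : Nat.Primes) → Fin r → ℚ_[(p : ℕ)])
    (hy : ∀ p ∈ T, ∀ i, ‖y p i‖ ≤ ((p : ℕ) : ℝ) ^ N) (hz : ∀ p ∈ T, ∀ i, ‖z p i‖ ≤ ((p : ℕ) : ℝ) ^ N)
    (hyz : ∀ p ∈ T, ∀ i, y p i ^ 2 - (a i : ℚ_[(p : ℕ)]) * z p i ^ 2 = c i * bp p)
    (hbb : ∀ p ∈ T, ‖(b : ℚ_[(p : ℕ)]) - bp p‖ ≤ (((p : ℕ) : ℝ) ^ (3 * N + 3))⁻¹) :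
    ∃ Y Z : Fin r → ℚ, (∀ i, Y i ^ 2 - (a i : ℚ) * Z i ^ 2 = c i * b) ∧
      ∀ p ∈ T, ∀ i, ‖(Y i : ℚ_[(p : ℕ)]) - y p i‖ ≤ (((p : ℕ) : ℝ) ^ N)⁻¹ ∧ ‖(Z i : ℚ_[(p : ℕ)]) - z p i‖ ≤ (((p : ℕ) : ℝ) ^ N)⁻¹ := by
  have hone : ∀ i : Fin r, ∃ Y Z : ℚ, Y ^ 2 - (a i : ℚ) * Z ^ 2 = c i * b ∧
      ∀ p ∈ T, ‖(Y : ℚ_[(p : ℕ)]) - y p i‖ ≤ (((p : ℕ) : ℝ) ^ N)⁻¹ ∧ ‖(Z : ℚ_[(p : ℕ)]) - z p i‖ ≤ (((p : ℕ) : ℝ) ^ N)⁻¹ := by
    intro i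
    have haQ : (a i : ℚ) ≠ 0 := by exact_mod_cast ha i
    have hcbQ : (c i : ℚ) * b ≠ 0 := mul_ne_zero (by exact_mod_cast hc i) hb
    obtain ⟨y0, z0, h0⟩ := (conic_iff (a i : ℚ) (c i * b) haQ hcbQ).2 (hs i)
    have h1 : ∀ p : Nat.Primes, ∃ Y' Z' : ℚ_[(p : ℕ)], p ∈ T → Y' ^ 2 - (a i : ℚ_[(p : ℕ)]) * Z' ^ 2 = c i * b ∧
        ‖Y' - y p i‖ ≤ (((p : ℕ) : ℝ) ^ N)⁻¹ ∧ ‖Z' - z p i‖ ≤ (((p : ℕ) : ℝ) ^ N)⁻¹ := by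
      intro p
      by_cases hp : p ∈ T
      · have hppos : (0 : ℝ) < ((p : ℕ) : ℝ) := p_pos (p := (p : ℕ))
        have hbp0 : bp p ≠ 0 := by
          intro h0
          have h1 := hbp p hp
          rw [h0, norm_zero] at h1
          have : (0 : ℝ) < (((p : ℕ) : ℝ) ^ N)⁻¹ := by positivity
          linarith
        have hcp : (c i : ℚ_[(p : ℕ)]) ≠ 0 := by exact_mod_cast hc i
        obtain ⟨Y', Z', h2, h3, h4⟩ := transfer (a i : ℚ_[(p : ℕ)]) (c i * bp p) (c i * b) (y p i) (z p i)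
          (mul_ne_zero hcp hbp0) (hyz p hp i) N N (hy p hp i) (hz p hp i) (by
            rw [← mul_sub, norm_mul, norm_mul]
            have h5 : ‖(b : ℚ_[(p : ℕ)]) - bp p‖ ≤ (((p : ℕ) : ℝ) ^ (N + N + 3))⁻¹ * ‖bp p‖ := by
              refine (hbb p hp).trans ?_
              calc (((p : ℕ) : ℝ) ^ (3 * N + 3))⁻¹ = (((p : ℕ) : ℝ) ^ (N + N + 3))⁻¹ * (((p : ℕ) : ℝ) ^ N)⁻¹ := by
                    rw [← mul_inv, ← pow_add]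
                    congr 2
                    ring
                _ ≤ _ := mul_le_mul_of_nonneg_left (hbp p hp) (by positivity)
            calc ‖(c i : ℚ_[(p : ℕ)])‖ * ‖(b : ℚ_[(p : ℕ)]) - bp p‖ ≤
                ‖(c i : ℚ_[(p : ℕ)])‖ * ((((p : ℕ) : ℝ) ^ (N + N + 3))⁻¹ * ‖bp p‖) := mul_le_mul_of_nonneg_left h5 (norm_nonneg _)
              _ = _ := by ring)
        exact ⟨Y', Z', fun _ => ⟨h2, h3, h4⟩⟩
      · exact ⟨0, 0, fun h => absurd h hp⟩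
    choose Y' Z' h1 using h1
    obtain ⟨D, hD⟩ : ∃ D : ℕ, D = ∏ p ∈ T, (p : ℕ) ^ N := ⟨_, rfl⟩
    have hD0 : 0 < D := by rw [hD]; exact prod_pos fun p _ => pow_pos p.2.pos _
    obtain ⟨Y, Z, h2, h3⟩ := conic_dense (a i : ℚ) (c i * b) y0 z0 haQ hcbQ h0 T Y' Z' (by
      intro p hp
      have := (h1 p hp).1
      push_cast
      exact this) ((D : ℝ)⁻¹) (by positivity)
    refine ⟨Y, Z, h2, fun p hp => ?_⟩
    obtain ⟨h4, h5⟩ := h3 p hp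
    have hDp : ((D : ℝ))⁻¹ ≤ (((p : ℕ) : ℝ) ^ N)⁻¹ := by
      have hppos : (0 : ℝ) < ((p : ℕ) : ℝ) := p_pos (p := (p : ℕ))
      apply inv_anti₀ (by positivity)
      have h6 : (p : ℕ) ^ N ≤ D := by
        apply Nat.le_of_dvd hD0
        rw [hD]
        exact dvd_prod_of_mem (fun p : Nat.Primes => (p : ℕ) ^ N) hp
      exact_mod_cast h6
    constructor
    · have e : (Y : ℚ_[(p : ℕ)]) - y p i = ((Y : ℚ_[(p : ℕ)]) - Y' p) + (Y' p - y p i) := by ring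
      rw [e]
      exact (Padic.nonarchimedean _ _).trans (max_le (h4.le.trans hDp) (h1 p hp).2.1)
    · have e : (Z : ℚ_[(p : ℕ)]) - z p i = ((Z : ℚ_[(p : ℕ)]) - Z' p) + (Z' p - z p i) := by ring
      rw [e]
      exact (Padic.nonarchimedean _ _).trans (max_le (h5.le.trans hDp) (h1 p hp).2.2)
  choose Y Z hYZ using hone
  exact ⟨Y, Z, fun i => (hYZ i).1, fun p hp i => (hYZ i).2 p hp⟩

/-- the polynomial is continuous, with an explicit modulus -/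
lemma lip2 (f : ℤ[X]) (T : Finset Nat.Primes) (N : ℕ) (p : Nat.Primes) (hp : p ∈ T) (s t : ℚ_[(p : ℕ)])
    (hs : ‖s‖ ≤ ((p : ℕ) : ℝ) ^ N) (ht : ‖t‖ ≤ ((p : ℕ) : ℝ) ^ N)
    (hst : ‖s - t‖ ≤ (((p : ℕ) : ℝ) ^ ((2 * f.natDegree + 3) * N + 3))⁻¹) :
    ‖aeval s f - aeval t f‖ ≤ (((p : ℕ) : ℝ) ^ (3 * N + 3))⁻¹ := by
  have hppos : (0 : ℝ) < ((p : ℕ) : ℝ) := p_pos (p := (p : ℕ))
  have hp1 : (1 : ℝ) < ((p : ℕ) : ℝ) := one_lt_p (p := (p : ℕ))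
  obtain ⟨D, hD⟩ : ∃ D : ℕ, D = ∏ p ∈ T, (p : ℕ) ^ N := ⟨_, rfl⟩
  have hD0 : D ≠ 0 := by rw [hD]; exact (prod_pos fun p _ => pow_pos p.2.pos _).ne'
  have hDn : ‖(D : ℚ_[(p : ℕ)])‖ = (((p : ℕ) : ℝ) ^ N)⁻¹ := by
    rw [hD]
    exact norm_D T N p hp
  have hle : ∀ w : ℚ_[(p : ℕ)], ‖w‖ ≤ ((p : ℕ) : ℝ) ^ N → ‖(D : ℚ_[(p : ℕ)]) * w‖ ≤ 1 := by
    intro w hw
    rw [norm_mul, hDn]
    calc (((p : ℕ) : ℝ) ^ N)⁻¹ * ‖w‖ ≤ (((p : ℕ) : ℝ) ^ N)⁻¹ * ((p : ℕ) : ℝ) ^ N :=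
          mul_le_mul_of_nonneg_left hw (by positivity)
      _ = 1 := inv_mul_cancel₀ (by positivity)
  have h1 := lip (GG f D) _ _ (hle s hs) (hle t ht)
  rw [GG_aeval f D hD0, GG_aeval f D hD0, ← mul_sub, ← mul_sub, norm_mul, norm_mul, norm_pow, hDn] at h1
  have h2 : ‖aeval s f - aeval t f‖ ≤ ((p : ℕ) : ℝ) ^ (2 * f.natDegree * N) * ‖s - t‖ := by
    have h3 : ‖aeval s f - aeval t f‖ = ((p : ℕ) : ℝ) ^ (2 * f.natDegree * N) * (((((p : ℕ) : ℝ) ^ N)⁻¹) ^ (2 * f.natDegree) * ‖aeval s f - aeval t f‖) := by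
      rw [inv_pow, ← pow_mul, ← mul_assoc, mul_comm N, mul_inv_cancel₀ (by positivity), one_mul]
    rw [h3]
    apply mul_le_mul_of_nonneg_left _ (by positivity)
    refine h1.trans ?_
    apply mul_le_of_le_one_left (norm_nonneg _)
    exact inv_le_one_of_one_le₀ (one_le_pow₀ hp1.le)
  refine h2.trans ?_
  calc ((p : ℕ) : ℝ) ^ (2 * f.natDegree * N) * ‖s - t‖ ≤
      ((p : ℕ) : ℝ) ^ (2 * f.natDegree * N) * (((p : ℕ) : ℝ) ^ ((2 * f.natDegree + 3) * N + 3))⁻¹ :=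
        mul_le_mul_of_nonneg_left hst (by positivity)
    _ = (((p : ℕ) : ℝ) ^ (3 * N + 3))⁻¹ := by
        have e : (2 * f.natDegree + 3) * N + 3 = 2 * f.natDegree * N + (3 * N + 3) := by ring
        rw [e, pow_add _ (2 * f.natDegree * N)]
        field_simp

/-- The point `(t, y, z)` lies on the variety `y i ^ 2 - a i * z i ^ 2 = c i * (f(t) + k)`, `f(t) + k ≠ 0`. -/
def OnV {r : ℕ} (f : ℤ[X]) (a c : Fin r → ℤ) (k : ℤ) {F : Type} [Field F] (t : F) (y z : Fin r → F) : Prop :=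
  aeval t f + (k : F) ≠ 0 ∧ ∀ i, y i ^ 2 - (a i : F) * z i ^ 2 = (c i : F) * (aeval t f + (k : F))

/-- Approximation of level `N` at the primes of `T`. -/
def WA {r : ℕ} (f : ℤ[X]) (a c : Fin r → ℤ) (T : Finset Nat.Primes) (N : ℕ) (k : ℤ) : Prop :=
  ∀ (t : (p : Nat.Primes) → ℚ_[(p : ℕ)]) (y z : (p : Nat.Primes) → Fin r → ℚ_[(p : ℕ)]),
    (∀ p ∈ T, OnV f a c k (t p) (y p) (z p) ∧ ‖t p‖ ≤ ((p : ℕ) : ℝ) ^ N ∧ (∀ i, ‖y p i‖ ≤ ((p : ℕ) : ℝ) ^ N) ∧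
      (∀ i, ‖z p i‖ ≤ ((p : ℕ) : ℝ) ^ N) ∧ (((p : ℕ) : ℝ) ^ N)⁻¹ ≤ ‖aeval (t p) f + (k : ℚ_[(p : ℕ)])‖) →
    ∃ (s : ℚ) (Y Z : Fin r → ℚ), OnV f a c k s Y Z ∧ ∀ p ∈ T, ‖(s : ℚ_[(p : ℕ)]) - t p‖ ≤ (((p : ℕ) : ℝ) ^ N)⁻¹ ∧
      ∀ i, ‖(Y i : ℚ_[(p : ℕ)]) - y p i‖ ≤ (((p : ℕ) : ℝ) ^ N)⁻¹ ∧ ‖(Z i : ℚ_[(p : ℕ)]) - z p i‖ ≤ (((p : ℕ) : ℝ) ^ N)⁻¹

/-- the pairs of coefficients -/
def AA' {r : ℕ} (a c : Fin r → ℤ) : Finset (ℤ × ℤ) := univ.image (fun i => (a i, c i))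

lemma mem_AA' {r : ℕ} (a c : Fin r → ℤ) (z : ℤ × ℤ) : z ∈ AA' a c ↔ ∃ i, (a i, c i) = z := by
  unfold AA'
  simp

/-- from approximation of the base point to full approximation -/
lemma wa_of_glob {r : ℕ} (f : ℤ[X]) (a c : Fin r → ℤ) (ha : ∀ i, a i ≠ 0) (hc : ∀ i, c i ≠ 0) (T T1 : Finset Nat.Primes)
    (hT : T ⊆ T1) (N N' : ℕ) (hN : (2 * f.natDegree + 3) * N + 3 ≤ N') (k : ℤ)
    (h0 : ∀ p ∈ T1, p ∉ T → LocN f (AA' a c) (p : ℕ) N' k)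
    (h : ∀ t : (p : Nat.Primes) → ℚ_[(p : ℕ)], Loc f (AA' a c) T1 N' k t → Glob f (AA' a c) T1 N' k t) : WA f a c T N k := by
  classical
  intro t y z hloc
  have h1 : ∀ p : Nat.Primes, ∃ t' : ℚ_[(p : ℕ)], (p ∈ T → t' = t p) ∧ (p ∈ T1 → ‖t'‖ ≤ ((p : ℕ) : ℝ) ^ N' ∧
      (((p : ℕ) : ℝ) ^ N')⁻¹ ≤ ‖aeval t' f + (k : ℚ_[(p : ℕ)])‖ ∧
      ∀ z ∈ AA' a c, Splits (z.1 : ℚ_[(p : ℕ)]) (z.2 * (aeval t' f + k))) := by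
    intro p
    have hppos : (0 : ℝ) < ((p : ℕ) : ℝ) := p_pos (p := (p : ℕ))
    have hp1 : (1 : ℝ) < ((p : ℕ) : ℝ) := one_lt_p (p := (p : ℕ))
    have hNN : N ≤ N' := by nlinarith
    by_cases hp : p ∈ T
    · obtain ⟨⟨h2, h3⟩, h4, -, -, h5⟩ := hloc p hp
      refine ⟨t p, fun _ => rfl, fun _ => ⟨h4.trans (pow_le_pow_right₀ hp1.le hNN), le_trans ?_ h5, ?_⟩⟩
      · exact inv_anti₀ (by positivity) (pow_le_pow_right₀ hp1.le hNN)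
      · intro z' hz'
        rw [mem_AA'] at hz'
        obtain ⟨i, rfl⟩ := hz'
        simp only
        rw [← conic_iff _ _ (by exact_mod_cast ha i) (mul_ne_zero (by exact_mod_cast hc i) h2)]
        exact ⟨y p i, z p i, h3 i⟩
    · by_cases hp2 : p ∈ T1
      · obtain ⟨t', h2, h3, h4⟩ := h0 p hp2 hp
        exact ⟨t', fun h => absurd h hp, fun _ => ⟨h2, h3, h4⟩⟩
      · exact ⟨0, fun h => absurd h hp, fun h => absurd h hp2⟩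
  choose t' ht' ht'2 using h1
  obtain ⟨s, hs1, hs2, hs3⟩ := h t' (fun p hp => ht'2 p hp)
  obtain ⟨Y, Z, hY, hYZ⟩ := glue r a c ha hc T N (aeval s f + (k : ℚ)) hs2 (fun i => hs3 (a i, c i) ((mem_AA' a c _).2 ⟨i, rfl⟩))
    (fun p => aeval (t p) f + (k : ℚ_[(p : ℕ)])) (fun p hp => (hloc p hp).2.2.2.2) y z (fun p hp => (hloc p hp).2.2.1)
    (fun p hp => (hloc p hp).2.2.2.1) (fun p hp => (hloc p hp).1.2) (by
      intro p hp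
      have hppos : (0 : ℝ) < ((p : ℕ) : ℝ) := p_pos (p := (p : ℕ))
      have hp1 : (1 : ℝ) < ((p : ℕ) : ℝ) := one_lt_p (p := (p : ℕ))
      have h2 := hs1 p (hT hp)
      rw [ht' p hp] at h2
      have h3 : ‖(s : ℚ_[(p : ℕ)]) - t p‖ ≤ (((p : ℕ) : ℝ) ^ ((2 * f.natDegree + 3) * N + 3))⁻¹ :=
        h2.trans (inv_anti₀ (by positivity) (pow_le_pow_right₀ hp1.le hN))
      have h4 : ‖(s : ℚ_[(p : ℕ)])‖ ≤ ((p : ℕ) : ℝ) ^ N := by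
        have e : (s : ℚ_[(p : ℕ)]) = ((s : ℚ_[(p : ℕ)]) - t p) + t p := by ring
        rw [e]
        refine (Padic.nonarchimedean _ _).trans (max_le ?_ (hloc p hp).2.1)
        refine h3.trans (le_trans (inv_le_one_of_one_le₀ (one_le_pow₀ hp1.le)) (one_le_pow₀ hp1.le))
      have h5 := lip2 f T N p hp (s : ℚ_[(p : ℕ)]) (t p) h4 (hloc p hp).2.1 h3
      have e : ((aeval s f + (k : ℚ) : ℚ) : ℚ_[(p : ℕ)]) - (aeval (t p) f + (k : ℚ_[(p : ℕ)])) =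
          aeval (s : ℚ_[(p : ℕ)]) f - aeval (t p) f := by
        have e2 : ((aeval s f : ℚ) : ℚ_[(p : ℕ)]) = aeval (s : ℚ_[(p : ℕ)]) f := by
          have := aeval_algebraMap_apply ℚ_[(p : ℕ)] s f
          simp only [eq_ratCast] at this
          exact this.symm
        push_cast
        rw [e2]
        ring
      rw [e]
      exact h5)
  refine ⟨s, Y, Z, ⟨hs2, hY⟩, fun p hp => ⟨?_, hYZ p hp⟩⟩
  have hppos : (0 : ℝ) < ((p : ℕ) : ℝ) := p_pos (p := (p : ℕ))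
  have hp1 : (1 : ℝ) < ((p : ℕ) : ℝ) := one_lt_p (p := (p : ℕ))
  have h2 := hs1 p (hT hp)
  rw [ht' p hp] at h2
  refine h2.trans (inv_anti₀ (by positivity) (pow_le_pow_right₀ hp1.le ?_))
  nlinarith

/-- a real point -/
lemma real_cond {r : ℕ} (f : ℤ[X]) (a c : Fin r → ℤ) (ha : ∀ i, a i ≠ 0) (hc : ∀ i, c i ≠ 0) (k : ℤ)
    (h : ∃ (t : ℝ) (y z : Fin r → ℝ), OnV f a c k t y z) :
    ∃ t : ℝ, aeval t f + (k : ℝ) ≠ 0 ∧ ∀ z ∈ AA' a c, z.1 < 0 → 0 < (z.2 : ℝ) * (aeval t f + k) := by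
  obtain ⟨t, y, z, h1, h2⟩ := h
  refine ⟨t, h1, fun w hw hw1 => ?_⟩
  rw [mem_AA'] at hw
  obtain ⟨i, rfl⟩ := hw
  simp only at hw1 ⊢
  have h3 : (c i : ℝ) * (aeval t f + k) ≠ 0 := mul_ne_zero (by exact_mod_cast hc i) h1
  have h4 : 0 ≤ (c i : ℝ) * (aeval t f + k) := by
    rw [← h2 i]
    have h5 : (a i : ℝ) < 0 := by exact_mod_cast hw1
    nlinarith [sq_nonneg (y i), sq_nonneg (z i)]
  exact lt_of_le_of_ne h4 (Ne.symm h3)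

end Pool.Agent.TH204.HP
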